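import Pool.Agent.H108R4.Growth

/-!
The arrangement: data of the interfaces, and the matching with the eight prototiles.
-/

set_option autoImplicit false

open Set MeasureTheory Metric

namespace Pool.Agent.H108R4.Br

/-- states of the cells of the lower unit row -/
def Lc (h j : ℤ) : ℤ :=
  if j % (2 * h) = 0 then 2 else if j % (2 * h) ≤ j / (2 * h) + h then 1 else 0

/-- states of the cells of the upper unit row -/
def Uc (h j : ℤ) : ℤ :=
  if j % (2 * h) = j / (2 * h) + h then 2 else if j % (2 * h) < j / (2 * h) + h then 1 else 0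

/-- data between the bricks of the first kind and the lower unit cells -/
def Da (h n : ℤ) : ℤ := if n % 4 = 2 then (if Lc h (n / 4) = 2 then -4 else 1) else 0
/-- data between the two unit rows -/
def Db (h n : ℤ) : ℤ :=
  if n % 4 = 1 then (if Lc h (n / 4) = 1 then 7 else 0)
  else if n % 4 = 3 then (if Lc h (n / 4) = 0 then 6 else -2) else 0
/-- data between the upper unit cells and the bricks of the second kind -/
def Dc (h n : ℤ) : ℤ := if n % 4 = 0 then (if Uc h (n / 4 - 1) = 2 then -5 else 3) else 0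

/-- data of the interface at height `r` -/
def DD (h r : ℤ) : ℤ → ℤ :=
  if r % 4 = 0 then fun _ => 0 else if r % 4 = 1 then Da h else if r % 4 = 2 then Db h else Dc h

/-- slope of the breakpoints -/
def al (h r : ℤ) : ℤ := if r % 4 = 0 then 8 * h else if r % 4 = 3 then 4 * (2 * h + 1) else 4
/-- offset of the breakpoints -/
def be (h r : ℤ) : ℤ := if r % 4 = 2 then 2 else if r % 4 = 3 then 4 * h + 2 else 0
/-- breakpoints, in quarter units -/
def bp (h r i : ℤ) : ℤ := al h r * i + be h r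

/-- the eight prototiles: two bricks, three lower cells, three upper cells -/
def pr (h : ℕ) (k : Fin 8) : Proto :=
  match k with
  | 0 => ⟨2 * h, fun _ => 0, fun m => if m % 4 = 2 then (if m = 2 then -4 else 1) else 0⟩
  | 1 => ⟨2 * h + 1, fun m => if m % 4 = 2 then (if m = 2 then -5 else 3) else 0, fun _ => 0⟩
  | 2 => ⟨1, fun m => if m = 2 then 1 else 0, fun m => if m = 3 then 6 else 0⟩
  | 3 => ⟨1, fun m => if m = 2 then 1 else 0,
      fun m => if m = 1 then 7 else if m = 3 then -2 else 0⟩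
  | 4 => ⟨1, fun m => if m = 2 then -4 else 0, fun m => if m = 3 then -2 else 0⟩
  | 5 => ⟨1, fun m => if m = 1 then 6 else 0, fun m => if m = 2 then 3 else 0⟩
  | 6 => ⟨1, fun m => if m = 1 then -2 else if m = 3 then 7 else 0,
      fun m => if m = 2 then 3 else 0⟩
  | 7 => ⟨1, fun m => if m = 1 then -2 else 0, fun m => if m = 2 then -5 else 0⟩

/-- which prototile is at the place `(r, i)` -/
def ix (h r i : ℤ) : Fin 8 :=
  if r % 4 = 0 then 0 else if r % 4 = 3 then 1
  else if r % 4 = 1 then (if Lc h i = 2 then 4 else if Lc h i = 1 then 3 else 2)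
  else (if Uc h i = 2 then 7 else if Uc h i = 1 then 6 else 5)

theorem pr_good {h : ℕ} (hh : 1 ≤ h) (k : Fin 8) : (pr h k).Good := by
  fin_cases k
  all_goals
    constructor
    · simp [pr]; try omega
    · simp [pr]
    · simp [pr]
    · simp [pr]
    · simp [pr]
    · intro n
      simp only [pr]
      try split_ifs
      all_goals norm_num
    · intro n
      simp only [pr]
      try split_ifs
      all_goals norm_num

theorem euc {h j a ρ : ℤ} (hh : 0 < h) (he : j = 2 * h * a + ρ) (h0 : 0 ≤ ρ) (h1 : ρ < 2 * h) :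
    j / (2 * h) = a ∧ j % (2 * h) = ρ := by
  rw [Int.ediv_emod_unique (by omega)]
  exact ⟨by rw [he]; ring, h0, h1⟩

theorem euc' {h : ℤ} (hh : 0 < h) (j : ℤ) : ∃ a ρ : ℤ, j = 2 * h * a + ρ ∧ 0 ≤ ρ ∧ ρ < 2 * h ∧
    j / (2 * h) = a ∧ j % (2 * h) = ρ :=
  ⟨j / (2 * h), j % (2 * h), (Int.mul_ediv_add_emod j (2 * h)).symm,
    Int.emod_nonneg _ (by omega), Int.emod_lt_of_pos _ (by omega), rfl, rfl⟩

theorem fact1 {h j : ℤ} (hh : 0 < h) (h1 : -h ≤ j / (2 * h)) :
    Uc h j = 0 ↔ Lc h j = 0 := by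
  obtain ⟨a, ρ, hj, h0, hρ, e1, e2⟩ := euc' hh j
  unfold Uc Lc
  rw [e1] at h1
  rw [e1, e2]
  split_ifs <;> simp <;> omega

theorem fact2 {h j : ℤ} (hh : 0 < h) (h1 : -h ≤ j / (2 * h)) (h2 : j / (2 * h) < h) :
    Uc h j = 1 ↔ Lc h (j + 1) = 1 := by
  obtain ⟨a, ρ, hj, h0, hρ, e1, e2⟩ := euc' hh j
  unfold Uc Lc
  rw [e1] at h1 h2
  rw [e1, e2]
  rcases lt_or_ge (ρ + 1) (2 * h) with hc | hc
  · obtain ⟨e3, e4⟩ := euc (j := j + 1) (a := a) (ρ := ρ + 1) hh (by rw [hj]; ring) (by omega) hc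
    rw [e3, e4]
    split_ifs <;> simp <;> omega
  · obtain ⟨e3, e4⟩ := euc (j := j + 1) (a := a + 1) (ρ := 0) hh
      (by
        have : ρ = 2 * h - 1 := by omega
        rw [hj, this]; ring) (by omega) (by omega)
    rw [e3, e4]
    split_ifs <;> simp <;> omega

theorem fact3 {h i q : ℤ} (hh : 0 < h) (h1 : -h ≤ i) (h2 : i < h) (hq0 : 0 ≤ q) (hq1 : q ≤ 2 * h) :
    Uc h (q + (2 * h + 1) * i + h) = 2 ↔ q = 0 := by
  unfold Uc
  rcases lt_or_ge (i + h + q) (2 * h) with hc | hc
  · obtain ⟨e3, e4⟩ := euc (j := q + (2 * h + 1) * i + h) (a := i) (ρ := i + h + q) hh (by ring)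
      (by omega) hc
    rw [e3, e4]
    split_ifs <;> simp <;> omega
  · obtain ⟨e3, e4⟩ := euc (j := q + (2 * h + 1) * i + h) (a := i + 1) (ρ := i + h + q - 2 * h) hh
      (by ring) (by omega) (by omega)
    rw [e3, e4]
    split_ifs <;> simp <;> omega

theorem Lc_cases (h j : ℤ) : Lc h j = 0 ∨ Lc h j = 1 ∨ Lc h j = 2 := by
  unfold Lc; split_ifs <;> simp

theorem Uc_cases (h j : ℤ) : Uc h j = 0 ∨ Uc h j = 1 ∨ Uc h j = 2 := by
  unfold Uc; split_ifs <;> simp

/-- places where the arrangement is correct -/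
def valid (h r i : ℤ) : Prop :=
  (r % 4 = 2 → -h ≤ i / (2 * h) ∧ i / (2 * h) < h) ∧ (r % 4 = 3 → -h ≤ i ∧ i < h)

theorem bp_succ (h : ℕ) (r i : ℤ) : bp h r (i + 1) = bp h r i + 4 * (pr h (ix h r i)).ℓ := by
  have h4 : r % 4 = 0 ∨ r % 4 = 1 ∨ r % 4 = 2 ∨ r % 4 = 3 := by omega
  unfold bp al be ix
  rcases h4 with e | e | e | e
  · simp [e, pr]; ring
  · rw [e]
    rcases Lc_cases h i with e' | e' | e' <;> simp [e', pr] <;> ring
  · rw [e]
    rcases Uc_cases h i with e' | e' | e' <;> simp [e', pr] <;> ring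
  · simp [e, pr]; ring

theorem match_b {h : ℕ} (hh : 1 ≤ h) {r i : ℤ} (hv : valid h r i) (m : ℤ) (h0 : 0 ≤ m)
    (h1 : m ≤ 4 * (pr h (ix h r i)).ℓ) :
    DD h r (m + bp h r i) = (pr h (ix h r i)).b m := by
  have hh' : (0 : ℤ) < h := by exact_mod_cast hh
  have h4 : r % 4 = 0 ∨ r % 4 = 1 ∨ r % 4 = 2 ∨ r % 4 = 3 := by omega
  rcases h4 with e | e | e | e
  · simp [DD, ix, e, pr]
  · have hb : bp h r i = 4 * i := by simp [bp, al, be, e]
    rw [hb]
    have hm : m ≤ 4 := by
      refine h1.trans ?_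
      unfold ix
      rw [e]
      rcases Lc_cases h i with e' | e' | e' <;> simp [e', pr]
    have hD : DD h r = Da h := by simp [DD, e]
    have hq : m = 2 → (m + 4 * i) / 4 = i := by omega
    rw [hD]
    unfold Da ix
    rw [e]
    by_cases hm2 : m = 2
    · rw [hq hm2, hm2]
      rcases Lc_cases h i with e' | e' | e' <;> simp [e', pr] <;> omega
    · have : (m + 4 * i) % 4 ≠ 2 := by omega
      rw [if_neg this]
      rcases Lc_cases h i with e' | e' | e' <;> simp [e', pr, hm2]
  · have hb : bp h r i = 4 * i + 2 := by simp [bp, al, be, e]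
    rw [hb]
    have hm : m ≤ 4 := by
      refine h1.trans ?_
      unfold ix
      rw [e]
      rcases Uc_cases h i with e' | e' | e' <;> simp [e', pr]
    have hD : DD h r = Db h := by simp [DD, e]
    obtain ⟨v1, v2⟩ := hv.1 e
    have f1 := fact1 hh' v1
    have f2 := fact2 hh' v1 v2
    rw [hD]
    unfold Db ix
    rw [e]
    by_cases hm1 : m = 1
    · have hq : (m + (4 * i + 2)) / 4 = i := by omega
      have hr1 : (m + (4 * i + 2)) % 4 = 3 := by omega
      rw [hq, hr1, hm1]
      rcases Uc_cases h i with e' | e' | e' <;> simp [e'] at f1 <;> simp [e', f1, pr]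
    · by_cases hm3 : m = 3
      · have hq : (m + (4 * i + 2)) / 4 = i + 1 := by omega
        have hr1 : (m + (4 * i + 2)) % 4 = 1 := by omega
        rw [hq, hr1, hm3]
        rcases Uc_cases h i with e' | e' | e' <;> simp [e'] at f2 <;> simp [e', f2, pr]
      · have hr1 : (m + (4 * i + 2)) % 4 ≠ 1 := by omega
        have hr3 : (m + (4 * i + 2)) % 4 ≠ 3 := by omega
        rw [if_neg hr1, if_neg hr3]
        rcases Uc_cases h i with e' | e' | e' <;> simp [e', pr, hm1, hm3]
  · have hb : bp h r i = 4 * ((2 * h + 1) * i) + (4 * h + 2) := by simp [bp, al, be, e]; ring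
    rw [hb]
    have hm : m ≤ 4 * (2 * h + 1) := by
      refine h1.trans ?_
      unfold ix
      simp [e, pr]
    have hD : DD h r = Dc h := by simp [DD, e]
    obtain ⟨v1, v2⟩ := hv.2 e
    rw [hD]
    unfold Dc ix
    simp only [e, pr]
    set X := (2 * (h : ℤ) + 1) * i with hX
    by_cases hm2 : m % 4 = 2
    · obtain ⟨q, hq⟩ : ∃ q, m = 4 * q + 2 := ⟨m / 4, by omega⟩
      have hq1 : (m + (4 * X + (4 * h + 2))) / 4 - 1 = q + X + h := by omega
      have hr1 : (m + (4 * X + (4 * h + 2))) % 4 = 0 := by omega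
      have f3 := fact3 (h := h) (i := i) (q := q) hh' v1 v2 (by omega) (by omega)
      rw [← hX] at f3
      rw [hq1, hr1]
      by_cases hq0 : q = 0
      · have : Uc h (q + X + h) = 2 := f3.2 hq0
        rw [this]
        have hm' : m = 2 := by omega
        simp [hm']
      · have : Uc h (q + X + h) ≠ 2 := fun hc => hq0 (f3.1 hc)
        have hm' : m ≠ 2 := by omega
        simp [this, hm', hm2]
    · have hr1 : (m + (4 * X + (4 * h + 2))) % 4 ≠ 0 := by omega
      simp [hr1, hm2]

theorem match_t {h : ℕ} (hh : 1 ≤ h) {r i : ℤ} (m : ℤ) (h0 : 0 ≤ m)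
    (h1 : m ≤ 4 * (pr h (ix h r i)).ℓ) :
    DD h (r + 1) (m + bp h r i) = (pr h (ix h r i)).t m := by
  have hh' : (0 : ℤ) < h := by exact_mod_cast hh
  have h4 : r % 4 = 0 ∨ r % 4 = 1 ∨ r % 4 = 2 ∨ r % 4 = 3 := by omega
  rcases h4 with e | e | e | e
  · have e1 : (r + 1) % 4 = 1 := by omega
    have hb : bp h r i = 4 * (2 * (h * i)) := by simp [bp, al, be, e]; ring
    rw [hb]
    have hm : m ≤ 4 * (2 * h) := by
      refine h1.trans ?_
      unfold ix
      simp [e, pr]
    have hD : DD h (r + 1) = Da h := by simp [DD, e1]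
    rw [hD]
    unfold Da ix
    simp only [e, pr]
    by_cases hm2 : m % 4 = 2
    · have hr1 : (m + 4 * (2 * (h * i))) % 4 = 2 := by omega
      have hq1 : (m + 4 * (2 * (h * i))) / 4 = 2 * h * i + m / 4 := by
        have : (2 : ℤ) * h * i = 2 * (h * i) := by ring
        rw [this]
        omega
      rw [hr1, hq1]
      obtain ⟨e3, e4⟩ := euc (h := h) (j := 2 * h * i + m / 4) (a := i) (ρ := m / 4) hh' rfl
        (by omega) (by omega)
      unfold Lc
      rw [e3, e4]
      by_cases hm' : m = 2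
      · simp [hm']
      · have : m / 4 ≠ 0 := by omega
        simp [this, hm', hm2]
        split_ifs <;> simp
    · have hr1 : (m + 4 * (2 * (h * i))) % 4 ≠ 2 := by omega
      simp [hr1, hm2]
  · have e1 : (r + 1) % 4 = 2 := by omega
    have hb : bp h r i = 4 * i := by simp [bp, al, be, e]
    rw [hb]
    have hm : m ≤ 4 := by
      refine h1.trans ?_
      unfold ix
      rw [e]
      rcases Lc_cases h i with e' | e' | e' <;> simp [e', pr]
    have hD : DD h (r + 1) = Db h := by simp [DD, e1]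
    rw [hD]
    unfold Db ix
    rw [e]
    by_cases hm1 : m = 1
    · have hq : (m + 4 * i) / 4 = i := by omega
      have hr1 : (m + 4 * i) % 4 = 1 := by omega
      rw [hq, hr1, hm1]
      rcases Lc_cases h i with e' | e' | e' <;> simp [e', pr]
    · by_cases hm3 : m = 3
      · have hq : (m + 4 * i) / 4 = i := by omega
        have hr1 : (m + 4 * i) % 4 = 3 := by omega
        rw [hq, hr1, hm3]
        rcases Lc_cases h i with e' | e' | e' <;> simp [e', pr]
      · have hr1 : (m + 4 * i) % 4 ≠ 1 := by omega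
        have hr3 : (m + 4 * i) % 4 ≠ 3 := by omega
        rw [if_neg hr1, if_neg hr3]
        rcases Lc_cases h i with e' | e' | e' <;> simp [e', pr, hm1, hm3]
  · have e1 : (r + 1) % 4 = 3 := by omega
    have hb : bp h r i = 4 * i + 2 := by simp [bp, al, be, e]
    rw [hb]
    have hm : m ≤ 4 := by
      refine h1.trans ?_
      unfold ix
      rw [e]
      rcases Uc_cases h i with e' | e' | e' <;> simp [e', pr]
    have hD : DD h (r + 1) = Dc h := by simp [DD, e1]
    rw [hD]
    unfold Dc ix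
    rw [e]
    by_cases hm2 : m = 2
    · have hq : (m + (4 * i + 2)) / 4 - 1 = i := by omega
      have hr1 : (m + (4 * i + 2)) % 4 = 0 := by omega
      rw [hq, hr1, hm2]
      rcases Uc_cases h i with e' | e' | e' <;> simp [e', pr]
    · have hr1 : (m + (4 * i + 2)) % 4 ≠ 0 := by omega
      rw [if_neg hr1]
      rcases Uc_cases h i with e' | e' | e' <;> simp [e', pr, hm2]
  · have e1 : (r + 1) % 4 = 0 := by omega
    simp [DD, e1, ix, e, pr]

end Pool.Agent.H108R4.Br
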