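import Pool.Agent.H108R4.Arr

/-!
The imbalance of the eight prototiles.
-/

set_option autoImplicit false

open Set MeasureTheory Metric

namespace Pool.Agent.H108R4.Br

/-- weights of the seven types -/
def Wt (h : ℕ) (e : ℕ) : ℕ :=
  if e = 1 then 4 * h + 4 else if e = 2 then (2 * h - 1) * (4 * h + 4) + 2
  else if e = 3 then 4 * h + 2 else if e = 4 then (2 * h - 1) * (4 * h + 4) + 1
  else if e = 5 then (2 * h - 1) * (4 * h + 4) + 3 else if e = 6 then 4 * h + 3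
  else (2 * h - 1) * (4 * h + 4) + (4 * h + 5)

theorem sum_four (f : ℕ → ℤ) (ℓ : ℕ) : ∑ n ∈ Finset.range (4 * ℓ), f n =
    ∑ q ∈ Finset.range ℓ, (f (4 * q) + f (4 * q + 1) + f (4 * q + 2) + f (4 * q + 3)) := by
  induction ℓ with
  | zero => simp
  | succ n ih =>
    rw [Finset.sum_range_succ, ← ih, show 4 * (n + 1) = 4 * n + 1 + 1 + 1 + 1 by ring,
      Finset.sum_range_succ, Finset.sum_range_succ, Finset.sum_range_succ, Finset.sum_range_succ]
    ring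

theorem sum_one (a b : ℤ) (n : ℕ) :
    ∑ q ∈ Finset.range (n + 1), (if q = 0 then a else b) = a + n * b := by
  rw [Finset.sum_range_succ']
  simp
  ring

theorem sum_sites (p : Proto) (f : ℤ → ℤ) : ∑ s ∈ p.sites, f (p.c s) =
    ∑ n ∈ Finset.range (4 * p.ℓ), (f (-p.t n) + f (p.b n)) := by
  unfold Proto.sites
  rw [Finset.sum_product]
  apply Finset.sum_congr rfl
  intro n _
  simp [Proto.c]

theorem sg2 : Int.sign 2 = 1 := rfl
theorem sg3 : Int.sign 3 = 1 := rfl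
theorem sg4 : Int.sign 4 = 1 := rfl
theorem sg5 : Int.sign 5 = 1 := rfl
theorem sg6 : Int.sign 6 = 1 := rfl
theorem sg7 : Int.sign 7 = 1 := rfl

theorem balance {h : ℕ} (hh : 1 ≤ h) (k : Fin 8) :
    ∑ s ∈ (pr h k).sites, ((pr h k).c s).sign * (Wt h ((pr h k).c s).natAbs : ℤ) = 1 := by
  rw [sum_sites (pr h k) (fun e => e.sign * (Wt h e.natAbs : ℤ))]
  obtain ⟨g, rfl⟩ : ∃ g, h = g + 1 := ⟨h - 1, by omega⟩
  fin_cases k
  · simp only [pr]
    rw [sum_four]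
    have e : ∀ q : ℕ, ((((4 * q : ℕ) : ℤ) % 4 = 2) = False) ∧ ((((4 * q + 1 : ℕ) : ℤ) % 4 = 2) = False) ∧
        ((((4 * q + 2 : ℕ) : ℤ) % 4 = 2) = True) ∧ ((((4 * q + 3 : ℕ) : ℤ) % 4 = 2) = False) ∧
        ((((4 * q + 2 : ℕ) : ℤ) = 2) = (q = 0)) := by
      intro q
      refine ⟨?_, ?_, ?_, ?_, ?_⟩ <;> simp <;> omega
    have hs : ∀ q ∈ Finset.range (2 * (g + 1)), (fun n : ℕ => ((fun e : ℤ => e.sign * (Wt (g + 1) e.natAbs : ℤ))
        (-(if (n : ℤ) % 4 = 2 then if (n : ℤ) = 2 then -4 else 1 else 0)) +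
        (fun e : ℤ => e.sign * (Wt (g + 1) e.natAbs : ℤ)) 0)) (4 * q) +
        (fun n : ℕ => ((fun e : ℤ => e.sign * (Wt (g + 1) e.natAbs : ℤ))
        (-(if (n : ℤ) % 4 = 2 then if (n : ℤ) = 2 then -4 else 1 else 0)) +
        (fun e : ℤ => e.sign * (Wt (g + 1) e.natAbs : ℤ)) 0)) (4 * q + 1) +
        (fun n : ℕ => ((fun e : ℤ => e.sign * (Wt (g + 1) e.natAbs : ℤ))
        (-(if (n : ℤ) % 4 = 2 then if (n : ℤ) = 2 then -4 else 1 else 0)) +
        (fun e : ℤ => e.sign * (Wt (g + 1) e.natAbs : ℤ)) 0)) (4 * q + 2) +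
        (fun n : ℕ => ((fun e : ℤ => e.sign * (Wt (g + 1) e.natAbs : ℤ))
        (-(if (n : ℤ) % 4 = 2 then if (n : ℤ) = 2 then -4 else 1 else 0)) +
        (fun e : ℤ => e.sign * (Wt (g + 1) e.natAbs : ℤ)) 0)) (4 * q + 3) =
        (if q = 0 then (Wt (g + 1) 4 : ℤ) else -(Wt (g + 1) 1 : ℤ)) := by
      intro q _
      simp only [(e q).1, (e q).2.1, (e q).2.2.1, (e q).2.2.2.1, (e q).2.2.2.2, if_false, if_true]
      by_cases hq : q = 0
      · simp [hq, sg2, sg3, sg4, sg5, sg6, sg7]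
      · simp [hq, sg2, sg3, sg4, sg5, sg6, sg7]
    rw [Finset.sum_congr rfl hs, show 2 * (g + 1) = (2 * g + 1) + 1 by ring, sum_one]
    simp only [Wt]
    have : 2 * (g + 1) - 1 = 2 * g + 1 := by omega
    rw [this]
    push_cast
    norm_num
    ring
  · simp only [pr]
    rw [sum_four]
    have e : ∀ q : ℕ, ((((4 * q : ℕ) : ℤ) % 4 = 2) = False) ∧ ((((4 * q + 1 : ℕ) : ℤ) % 4 = 2) = False) ∧
        ((((4 * q + 2 : ℕ) : ℤ) % 4 = 2) = True) ∧ ((((4 * q + 3 : ℕ) : ℤ) % 4 = 2) = False) ∧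
        ((((4 * q + 2 : ℕ) : ℤ) = 2) = (q = 0)) := by
      intro q
      refine ⟨?_, ?_, ?_, ?_, ?_⟩ <;> simp <;> omega
    have hs : ∀ q ∈ Finset.range (2 * (g + 1) + 1), (fun n : ℕ => ((fun e : ℤ => e.sign * (Wt (g + 1) e.natAbs : ℤ))
        (-0) +
        (fun e : ℤ => e.sign * (Wt (g + 1) e.natAbs : ℤ)) (if (n : ℤ) % 4 = 2 then if (n : ℤ) = 2 then -5 else 3 else 0))) (4 * q) +
        (fun n : ℕ => ((fun e : ℤ => e.sign * (Wt (g + 1) e.natAbs : ℤ))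
        (-0) +
        (fun e : ℤ => e.sign * (Wt (g + 1) e.natAbs : ℤ)) (if (n : ℤ) % 4 = 2 then if (n : ℤ) = 2 then -5 else 3 else 0))) (4 * q + 1) +
        (fun n : ℕ => ((fun e : ℤ => e.sign * (Wt (g + 1) e.natAbs : ℤ))
        (-0) +
        (fun e : ℤ => e.sign * (Wt (g + 1) e.natAbs : ℤ)) (if (n : ℤ) % 4 = 2 then if (n : ℤ) = 2 then -5 else 3 else 0))) (4 * q + 2) +
        (fun n : ℕ => ((fun e : ℤ => e.sign * (Wt (g + 1) e.natAbs : ℤ))
        (-0) +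
        (fun e : ℤ => e.sign * (Wt (g + 1) e.natAbs : ℤ)) (if (n : ℤ) % 4 = 2 then if (n : ℤ) = 2 then -5 else 3 else 0))) (4 * q + 3) =
        (if q = 0 then -(Wt (g + 1) 5 : ℤ) else (Wt (g + 1) 3 : ℤ)) := by
      intro q _
      simp only [(e q).1, (e q).2.1, (e q).2.2.1, (e q).2.2.2.1, (e q).2.2.2.2, if_false, if_true]
      by_cases hq : q = 0
      · simp [hq, sg2, sg3, sg4, sg5, sg6, sg7]
      · simp [hq, sg2, sg3, sg4, sg5, sg6, sg7]
    rw [Finset.sum_congr rfl hs, sum_one]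
    simp only [Wt]
    have : 2 * (g + 1) - 1 = 2 * g + 1 := by omega
    rw [this]
    push_cast
    norm_num
    ring
  all_goals
    simp [pr, Finset.sum_range_succ, Wt, sg2, sg3, sg4, sg5, sg6, sg7]
    try have : 2 * (g + 1) - 1 = 2 * g + 1 := by omega
    try rw [this]
    try push_cast
    try ring

end Pool.Agent.H108R4.Br
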