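import Mathlib

/-!
A finite union of compact convex bodies with a common interior point is a closed disk
(the two lemmas `star_disk0`, `star_disk` are copied from `Pool/Agent/Helper71/HeeschPatch.lean`).
-/

set_option autoImplicit false

open Complex ComplexConjugate Filter Topology Set

namespace Pool.Agent.H108R4.Br

lemma star_disk0 {n : ℕ} (C : Fin (n + 1) → Set ℂ)
    (hconv : ∀ i, Convex ℝ (C i)) (hcl : ∀ i, IsClosed (C i))
    (hb : ∀ i, Bornology.IsBounded (C i)) (ho : ∀ i, (0 : ℂ) ∈ interior (C i)) :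
    Nonempty ((⋃ i, C i : Set ℂ) ≃ₜ Metric.closedBall (0 : ℂ) 1) := by
  classical
  have hnh : ∀ i, C i ∈ 𝓝 (0 : ℂ) := fun i => mem_interior_iff_mem_nhds.mp (ho i)
  have habs : ∀ i, Absorbent ℝ (C i) := fun i => absorbent_nhds_zero (hnh i)
  let g : ℂ → ℝ := fun z => Finset.univ.inf' ⟨0, Finset.mem_univ (0 : Fin (n + 1))⟩ (fun i => gauge (C i) z)
  have hgc : Continuous g :=
    Continuous.finset_inf'_apply _ (fun i _ => continuous_gauge (hconv i) (hnh i))
  have hex : ∀ z, ∃ i, g z = gauge (C i) z := by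
    intro z
    obtain ⟨i, _, hi⟩ := Finset.exists_mem_eq_inf' ⟨0, Finset.mem_univ (0 : Fin (n + 1))⟩ (fun i => gauge (C i) z)
    exact ⟨i, hi⟩
  have hle : ∀ z i, g z ≤ gauge (C i) z := fun z i => Finset.inf'_le _ (Finset.mem_univ i)
  have hg0 : ∀ z, 0 ≤ g z := by
    intro z
    obtain ⟨i, hi⟩ := hex z
    rw [hi]; exact gauge_nonneg z
  have hgpos : ∀ z, z ≠ 0 → 0 < g z := by
    intro z hz
    obtain ⟨i, hi⟩ := hex z
    rw [hi]
    rw [gauge_pos (habs i) (NormedSpace.isVonNBounded_of_isBounded ℝ (hb i))]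
    exact hz
  have hgz : g 0 = 0 := by
    obtain ⟨i, hi⟩ := hex 0
    rw [hi, gauge_zero]
  have hgs : ∀ (c : ℝ) (z : ℂ), 0 ≤ c → g (c • z) = c * g z := by
    intro c z hc
    apply le_antisymm
    · obtain ⟨i, hi⟩ := hex z
      rw [hi]
      refine (hle _ i).trans ?_
      rw [gauge_smul_of_nonneg hc, smul_eq_mul]
    · obtain ⟨i, hi⟩ := hex (c • z)
      rw [hi, gauge_smul_of_nonneg hc, smul_eq_mul]
      exact mul_le_mul_of_nonneg_left (hle z i) hc
  have hmem : ∀ z, z ∈ (⋃ i, C i : Set ℂ) ↔ g z ≤ 1 := by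
    intro z
    rw [Set.mem_iUnion]
    constructor
    · rintro ⟨i, hi⟩
      exact (hle z i).trans (gauge_le_one_of_mem hi)
    · intro h
      obtain ⟨i, hi⟩ := hex z
      refine ⟨i, ?_⟩
      rw [hi, gauge_le_one_iff_mem_closure (hconv i) (hnh i), (hcl i).closure_eq] at h
      exact h
  let φ : ℂ → ℂ := fun z => (g z / ‖z‖) • z
  have hφn : ∀ z, ‖φ z‖ = g z := by
    intro z
    by_cases hz : z = 0
    · subst hz
      simp [φ, hgz]
    · have : ‖z‖ ≠ 0 := norm_ne_zero_iff.mpr hz
      show ‖(g z / ‖z‖) • z‖ = g z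
      rw [norm_smul, Real.norm_eq_abs, abs_of_nonneg (div_nonneg (hg0 z) (norm_nonneg z))]
      field_simp
  let ψ : ℂ → ℂ := fun w => (‖w‖ / g w) • w
  have hψg : ∀ w, g (ψ w) = ‖w‖ := by
    intro w
    by_cases hw : w = 0
    · subst hw
      simp [ψ, hgz]
    · have : g w ≠ 0 := (hgpos w hw).ne'
      show g ((‖w‖ / g w) • w) = ‖w‖
      rw [hgs _ _ (div_nonneg (norm_nonneg w) (hg0 w))]
      field_simp
  have hψφ : ∀ z, ψ (φ z) = z := by
    intro z
    by_cases hz : z = 0
    · subst hz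
      simp [ψ, φ]
    · have h1 : ‖z‖ ≠ 0 := norm_ne_zero_iff.mpr hz
      have h2 : g z ≠ 0 := (hgpos z hz).ne'
      show (‖φ z‖ / g (φ z)) • φ z = z
      rw [hφn]
      show (g z / g ((g z / ‖z‖) • z)) • ((g z / ‖z‖) • z) = z
      rw [hgs _ _ (div_nonneg (hg0 z) (norm_nonneg z)), smul_smul]
      have : g z / (g z / ‖z‖ * g z) * (g z / ‖z‖) = 1 := by field_simp
      rw [this, one_smul]
  have hφψ : ∀ w, φ (ψ w) = w := by
    intro w
    by_cases hw : w = 0
    · subst hw
      simp [ψ, φ]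
    · have h1 : ‖w‖ ≠ 0 := norm_ne_zero_iff.mpr hw
      have h2 : g w ≠ 0 := (hgpos w hw).ne'
      show (g (ψ w) / ‖ψ w‖) • ψ w = w
      rw [hψg]
      show (‖w‖ / ‖(‖w‖ / g w) • w‖) • ((‖w‖ / g w) • w) = w
      rw [norm_smul, Real.norm_eq_abs, abs_of_nonneg (div_nonneg (norm_nonneg w) (hg0 w)), smul_smul]
      have : ‖w‖ / (‖w‖ / g w * ‖w‖) * (‖w‖ / g w) = 1 := by field_simp
      rw [this, one_smul]
  have hφc : Continuous φ := by
    rw [continuous_iff_continuousAt]
    intro z
    by_cases hz : z = 0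
    · subst hz
      have h0 : φ 0 = 0 := by simp [φ]
      rw [ContinuousAt, h0, tendsto_zero_iff_norm_tendsto_zero]
      have h1 : (fun z => ‖φ z‖) = g := funext hφn
      rw [h1]
      have h2 := hgc.tendsto 0
      rwa [hgz] at h2
    · have h1 : ContinuousAt (fun z : ℂ => g z / ‖z‖) z :=
        ContinuousAt.div hgc.continuousAt continuous_norm.continuousAt (norm_ne_zero_iff.mpr hz)
      have h2 : ContinuousAt (fun z : ℂ => z) z := continuousAt_id
      exact h1.smul h2
  have hcomp : IsCompact (⋃ i, C i : Set ℂ) := by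
    apply isCompact_iUnion
    intro i
    exact Metric.isCompact_of_isClosed_isBounded (hcl i) (hb i)
  haveI : CompactSpace (⋃ i, C i : Set ℂ) := isCompact_iff_compactSpace.mp hcomp
  let e : (⋃ i, C i : Set ℂ) ≃ Metric.closedBall (0 : ℂ) 1 :=
    { toFun := fun z => ⟨φ z.1, by
        rw [mem_closedBall_zero_iff, hφn]
        exact (hmem z.1).mp z.2⟩
      invFun := fun w => ⟨ψ w.1, by
        rw [hmem, hψg]
        exact mem_closedBall_zero_iff.mp w.2⟩
      left_inv := fun z => Subtype.ext (hψφ z.1)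
      right_inv := fun w => Subtype.ext (hφψ w.1) }
  have hec : Continuous e := (hφc.comp continuous_subtype_val).subtype_mk _
  exact ⟨hec.homeoOfEquivCompactToT2⟩

/-- A finite union of compact convex bodies of the plane that all contain a point `o` in their interior
is homeomorphic to the closed unit disk. (Put o = 0 by translation; let g z = min over i of gauge (C i) z,
continuous, positively homogeneous, positive off 0; the homeomorphism is z ↦ (g z / ‖z‖) • z, inverse w ↦ (‖w‖ / g w) • w;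
`continuous_gauge`, `gauge_le_one_iff_mem_closure`; compare `gaugeRescale` in Mathlib.Analysis.Convex.GaugeRescale.) -/
lemma star_disk {n : ℕ} (C : Fin (n + 1) → Set ℂ) (o : ℂ)
    (hconv : ∀ i, Convex ℝ (C i)) (hcl : ∀ i, IsClosed (C i))
    (hb : ∀ i, Bornology.IsBounded (C i)) (ho : ∀ i, o ∈ interior (C i)) :
    Nonempty ((⋃ i, C i : Set ℂ) ≃ₜ Metric.closedBall (0 : ℂ) 1) := by
  let h : ℂ ≃ₜ ℂ := Homeomorph.addLeft o
  have hh : ∀ z, h z = o + z := fun z => rfl
  have key := star_disk0 (fun i => h ⁻¹' (C i))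
    (fun i => (hconv i).translate_preimage_right o)
    (fun i => (hcl i).preimage h.continuous)
    (fun i => by
      obtain ⟨R, hR⟩ := (hb i).subset_closedBall o
      refine (Metric.isBounded_closedBall (x := (0 : ℂ)) (r := R)).subset ?_
      intro z hz
      have h1 := hR hz
      rw [Metric.mem_closedBall, hh, dist_eq_norm, add_sub_cancel_left] at h1
      rwa [mem_closedBall_zero_iff])
    (fun i => by
      rw [← h.preimage_interior]
      show h 0 ∈ interior (C i)
      rw [hh, add_zero]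
      exact ho i)
  obtain ⟨e⟩ := key
  refine ⟨(Homeomorph.subtype (p := fun z => z ∈ (⋃ i, C i : Set ℂ)) (q := fun z => z ∈ (⋃ i, h ⁻¹' (C i) : Set ℂ)) h.symm ?_).trans e⟩
  intro z
  rw [Set.mem_iUnion, Set.mem_iUnion]
  simp only [Set.mem_preimage, Homeomorph.apply_symm_apply]


end Pool.Agent.H108R4.Br
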