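import Pool.Agent.H108R4.Bal
import Pool.Agent.H108R4.Star

/-!
Bands between two interfaces; straightening; unions of bands are disks.
-/

set_option autoImplicit false

open Set MeasureTheory Metric

namespace Pool.Agent.H108R4.Br

/-- closed topological disk -/
def IsDisk (T : Set ℂ) : Prop := Nonempty (T ≃ₜ closedBall (0 : ℂ) 1)

theorem IsDisk.image {K : Set ℂ} (hK : IsDisk K) {f : ℂ → ℂ} (hf : Continuous f)
    (hinj : Function.Injective f) : IsDisk (f '' K) := by
  obtain ⟨e⟩ := hK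
  haveI : CompactSpace K := e.symm.compactSpace
  let φ : K ≃ (f '' K : Set ℂ) := Equiv.Set.image f K hinj
  have hφ : Continuous φ := by
    apply Continuous.subtype_mk
    exact hf.comp continuous_subtype_val
  exact ⟨(hφ.homeoOfEquivCompactToT2).symm.trans e⟩

/-- closed rectangle -/
def rect (l u a b : ℝ) : Set ℂ := {z | (l ≤ z.re ∧ z.re ≤ u) ∧ (a ≤ z.im ∧ z.im ≤ b)}

theorem rect_eq (l u a b : ℝ) : rect l u a b = Icc l u ×ℂ Icc a b := by
  ext z
  simp [rect, Complex.mem_reProdIm]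

theorem rects_disk {n : ℕ} (l u a b : Fin (n + 1) → ℝ) {x y : ℝ} (hl : ∀ i, l i < x)
    (hu : ∀ i, x < u i) (ha : ∀ i, a i < y) (hb : ∀ i, y < b i) :
    IsDisk (⋃ i, rect (l i) (u i) (a i) (b i)) := by
  apply star_disk (fun i => rect (l i) (u i) (a i) (b i)) ⟨x, y⟩
  · intro i
    exact ((convex_halfSpace_re_ge _).inter (convex_halfSpace_re_le _)).inter
      ((convex_halfSpace_im_ge _).inter (convex_halfSpace_im_le _))
  · intro i
    rw [rect_eq]
    exact isClosed_Icc.reProdIm isClosed_Icc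
  · intro i
    rw [rect_eq]
    exact (isBounded_Icc _ _).reProdIm (isBounded_Icc _ _)
  · intro i
    rw [rect_eq, Complex.interior_reProdIm, interior_Icc, interior_Icc, Complex.mem_reProdIm]
    exact ⟨⟨hl i, hu i⟩, ⟨ha i, hb i⟩⟩

/-- region between the interfaces at heights `r`, `r + 1` -/
def band (H : ℝ) (D : ℤ → ℤ → ℤ) (r : ℤ) (l u : ℝ) : Set ℂ :=
  {z | (l ≤ z.re ∧ z.re ≤ u) ∧ (r + prof H (D r) z.re ≤ z.im ∧
    z.im ≤ r + 1 + prof H (D (r + 1)) z.re)}

section psi

variable (H : ℝ) (D : ℤ → ℤ → ℤ) (R : ℕ)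

/-- vertical displacement -/
noncomputable def gg (z : ℂ) : ℝ :=
  ∑ s ∈ Finset.Icc (-(R : ℤ)) (R + 1), max 0 (1 - |z.im - s|) * prof H (D s) z.re

/-- the straightening map -/
noncomputable def Psi (z : ℂ) : ℂ := ((z.re : ℝ) : ℂ) + ((z.im + gg H D R z : ℝ) : ℂ) * Complex.I

theorem Psi_re (z : ℂ) : (Psi H D R z).re = z.re := by simp [Psi]
theorem Psi_im (z : ℂ) : (Psi H D R z).im = z.im + gg H D R z := by simp [Psi]

variable {H} (hH : 0 < H) (hH8 : H ≤ 1 / 8)

include hH8 in
theorem Psi_cont : Continuous (Psi H D R) := by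
  have hg : Continuous (gg H D R) := by
    unfold gg
    apply continuous_finsetSum
    intro s _
    apply Continuous.mul
    · exact continuous_const.max (continuous_const.sub (Complex.continuous_im.sub continuous_const).abs)
    · exact (cont_prof hH8 (D s)).comp Complex.continuous_re
  unfold Psi
  exact (Complex.continuous_ofReal.comp Complex.continuous_re).add
    ((Complex.continuous_ofReal.comp (Complex.continuous_im.add hg)).mul continuous_const)

include hH in
theorem Psi_inj (hR : (2 * (R : ℝ) + 2) * H < 1) : Function.Injective (Psi H D R) := by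
  intro z z' hzz
  have h1 := congrArg Complex.re hzz
  have h2 := congrArg Complex.im hzz
  rw [Psi_re, Psi_re] at h1
  rw [Psi_im, Psi_im] at h2
  have hdiff : |gg H D R z - gg H D R z'| ≤ (2 * (R : ℝ) + 2) * H * |z.im - z'.im| := by
    unfold gg
    rw [← Finset.sum_sub_distrib]
    calc |∑ s ∈ Finset.Icc (-(R : ℤ)) (R + 1), (max 0 (1 - |z.im - s|) * prof H (D s) z.re -
            max 0 (1 - |z'.im - s|) * prof H (D s) z'.re)|
        ≤ ∑ s ∈ Finset.Icc (-(R : ℤ)) (R + 1), |max 0 (1 - |z.im - s|) * prof H (D s) z.re -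
            max 0 (1 - |z'.im - s|) * prof H (D s) z'.re| := Finset.abs_sum_le_sum_abs _ _
      _ ≤ ∑ s ∈ Finset.Icc (-(R : ℤ)) (R + 1), |z.im - z'.im| * H := by
          apply Finset.sum_le_sum
          intro s _
          rw [h1, ← sub_mul, abs_mul]
          have h3 := abs_prof_le hH (D s) z'.re
          have h4 : |max 0 (1 - |z.im - s|) - max 0 (1 - |z'.im - s|)| ≤ |z.im - z'.im| := by
            have h5 := abs_max_sub_max_le_abs (1 - |z.im - s|) (1 - |z'.im - s|) 0
            rw [max_comm 0, max_comm 0]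
            refine h5.trans ?_
            have h6 : (1 - |z.im - s|) - (1 - |z'.im - s|) = |z'.im - s| - |z.im - s| := by ring
            rw [h6]
            refine (abs_abs_sub_abs_le_abs_sub _ _).trans ?_
            rw [abs_sub_comm]
            apply le_of_eq
            congr 1
            ring
          exact mul_le_mul h4 h3 (abs_nonneg _) (abs_nonneg _)
      _ = (2 * (R : ℝ) + 2) * H * |z.im - z'.im| := by
          rw [Finset.sum_const, Int.card_Icc, nsmul_eq_mul]
          have : ((((R : ℤ) + 1 + 1 - -(R : ℤ)).toNat : ℕ) : ℝ) = 2 * R + 2 := by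
            have : ((R : ℤ) + 1 + 1 - -(R : ℤ)).toNat = 2 * R + 2 := by omega
            rw [this]
            push_cast
            ring
          rw [this]
          ring
  have h3 : |z.im - z'.im| = |gg H D R z - gg H D R z'| := by
    have : z.im - z'.im = -(gg H D R z - gg H D R z') := by linarith
    rw [this, abs_neg]
  rw [← h3] at hdiff
  have h4 : |z.im - z'.im| = 0 := by
    by_contra hne
    have hpos : 0 < |z.im - z'.im| := lt_of_le_of_ne (abs_nonneg _) (Ne.symm hne)
    nlinarith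
  apply Complex.ext h1
  have := abs_eq_zero.1 h4
  linarith

theorem gg_row {r : ℤ} (hr1 : -(R : ℤ) ≤ r) (hr2 : r ≤ R) {z : ℂ} {t : ℝ} (ht0 : 0 ≤ t)
    (ht1 : t ≤ 1) (hz : z.im = r + t) :
    gg H D R z = (1 - t) * prof H (D r) z.re + t * prof H (D (r + 1)) z.re := by
  unfold gg
  rw [Finset.sum_eq_add r (r + 1) (by omega)]
  · rw [hz]
    congr 1
    · rw [add_sub_cancel_left, abs_of_nonneg ht0, max_eq_right (by linarith)]
    · push_cast
      rw [show (r : ℝ) + t - (r + 1) = -(1 - t) by ring, abs_neg, abs_of_nonneg (by linarith),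
        max_eq_right (by linarith)]
      ring
  · rintro s hs ⟨hs1, hs2⟩
    rw [max_eq_left, zero_mul]
    rw [hz]
    rcases lt_or_gt_of_ne hs1 with h | h
    · have : (s : ℝ) + 1 ≤ r := by exact_mod_cast h
      rw [abs_of_nonneg (by linarith)]
      linarith
    · have h' : r + 2 ≤ s := by omega
      have : (r : ℝ) + 2 ≤ s := by exact_mod_cast h'
      rw [abs_of_nonpos (by linarith)]
      linarith
  · intro h
    exact absurd (Finset.mem_Icc.2 ⟨hr1, by omega⟩) h
  · intro h
    exact absurd (Finset.mem_Icc.2 ⟨by omega, by omega⟩) h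

include hH hH8 in
theorem band_image {r : ℤ} (hr1 : -(R : ℤ) ≤ r) (hr2 : r ≤ R) (l u : ℝ) :
    Psi H D R '' rect l u r (r + 1) = band H D r l u := by
  ext z
  have hb1 := abs_le.1 (abs_prof_le hH (D r) z.re)
  have hb2 := abs_le.1 (abs_prof_le hH (D (r + 1)) z.re)
  constructor
  · rintro ⟨w, ⟨⟨h1, h2⟩, h3, h4⟩, rfl⟩
    rw [Psi_re] at hb1 hb2
    have hg := gg_row (H := H) D R hr1 hr2 (z := w) (t := w.im - r) (by linarith) (by linarith) (by ring)
    refine ⟨⟨by rwa [Psi_re], by rwa [Psi_re]⟩, ?_, ?_⟩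
    · rw [Psi_re, Psi_im, hg]
      nlinarith
    · rw [Psi_re, Psi_im, hg]
      nlinarith
  · rintro ⟨⟨h1, h2⟩, h3, h4⟩
    set p := prof H (D r) z.re with hp
    set q := prof H (D (r + 1)) z.re with hq
    have hpos : 0 < 1 + q - p := by linarith [hb1.2, hb2.1]
    set t := (z.im - r - p) / (1 + q - p) with ht
    have ht0 : 0 ≤ t := div_nonneg (by linarith) hpos.le
    have ht1 : t ≤ 1 := by
      rw [ht, div_le_one hpos]
      linarith
    have htm : t * (1 + q - p) = z.im - r - p := by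
      rw [ht]
      field_simp
    have hg := gg_row (H := H) D R hr1 hr2 (z := ⟨z.re, r + t⟩) (t := t) ht0 ht1 rfl
    refine ⟨⟨z.re, r + t⟩, ⟨⟨h1, h2⟩, by simp only; linarith, by simp only; linarith⟩, ?_⟩
    apply Complex.ext
    · rw [Psi_re]
    · rw [Psi_im, hg]
      simp only
      rw [← hp, ← hq]
      linarith

include hH hH8 in
theorem band_disk (hR : (2 * (R : ℝ) + 2) * H < 1) {r : ℤ} (hr1 : -(R : ℤ) ≤ r) (hr2 : r ≤ R)
    {l u : ℝ} (hlu : l < u) : IsDisk (band H D r l u) := by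
  rw [← band_image D R hH hH8 hr1 hr2]
  apply IsDisk.image _ (Psi_cont D R hH8) (Psi_inj D R hH hR)
  have := rects_disk (n := 0) (fun _ => l) (fun _ => u) (fun _ => (r : ℝ)) (fun _ => (r : ℝ) + 1)
    (x := (l + u) / 2) (y := r + 1 / 2) (fun _ => by linarith) (fun _ => by linarith)
    (fun _ => by linarith) (fun _ => by linarith)
  rwa [iUnion_const] at this

include hH hH8 in
theorem bands_disk (hR : (2 * (R : ℝ) + 2) * H < 1) (l u : ℤ → ℝ) {x : ℝ}
    (hl : ∀ r, -(R : ℤ) ≤ r → r ≤ R → l r < x) (hu : ∀ r, -(R : ℤ) ≤ r → r ≤ R → x < u r)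
    (hm : ∀ r s : ℤ, -(R : ℤ) ≤ r → r ≤ R → ((0 ≤ s ∧ s ≤ r) ∨ (r ≤ s ∧ s ≤ 0)) →
      l s ≤ l r ∧ u r ≤ u s) :
    IsDisk (⋃ r ∈ Icc (-(R : ℤ)) R, band H D r (l r) (u r)) := by
  have h1 : (⋃ r ∈ Icc (-(R : ℤ)) R, band H D r (l r) (u r)) =
      Psi H D R '' (⋃ i : Fin (2 * R + 1), rect (l ((i : ℕ) - R)) (u ((i : ℕ) - R))
        (min 0 (((i : ℕ) : ℝ) - R)) (max 1 (((i : ℕ) : ℝ) - R + 1))) := by
    have h2 : (⋃ i : Fin (2 * R + 1), rect (l ((i : ℕ) - R)) (u ((i : ℕ) - R))
        (min 0 (((i : ℕ) : ℝ) - R)) (max 1 (((i : ℕ) : ℝ) - R + 1))) =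
        ⋃ r ∈ Icc (-(R : ℤ)) R, rect (l r) (u r) r (r + 1) := by
      ext z
      simp only [mem_iUnion]
      constructor
      · rintro ⟨i, ⟨h1, h2⟩, h3, h4⟩
        have hi := i.2
        set r : ℤ := (i : ℕ) - R with hr
        have hrr : (((i : ℕ) : ℝ) - R) = r := by rw [hr]; push_cast; ring
        rw [hrr] at h3 h4
        -- the row of z
        have hr1 : -(R : ℤ) ≤ r := by omega
        have hr2 : r ≤ R := by omega
        rcases le_total 0 r with h0 | h0
        · have h0' : (0 : ℝ) ≤ r := by exact_mod_cast h0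
          rw [min_eq_left h0'] at h3
          rw [max_eq_right (by linarith)] at h4
          rcases le_or_gt (r : ℝ) z.im with h5 | h5
          · exact ⟨r, ⟨hr1, hr2⟩, ⟨h1, h2⟩, h5, h4⟩
          · have hf1 : ⌊z.im⌋ < r := Int.floor_lt.2 h5
            have hf2 : 0 ≤ ⌊z.im⌋ := Int.floor_nonneg.2 h3
            obtain ⟨m1, m2⟩ := hm r ⌊z.im⌋ hr1 hr2 (Or.inl ⟨hf2, hf1.le⟩)
            exact ⟨⌊z.im⌋, ⟨by omega, by omega⟩, ⟨m1.trans h1, h2.trans m2⟩, Int.floor_le _,
              (Int.lt_floor_add_one _).le⟩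
        · have h0' : (r : ℝ) ≤ 0 := by exact_mod_cast h0
          rw [min_eq_right h0'] at h3
          rw [max_eq_left (by linarith)] at h4
          rcases le_or_gt z.im ((r : ℝ) + 1) with h5 | h5
          · exact ⟨r, ⟨hr1, hr2⟩, ⟨h1, h2⟩, h3, h5⟩
          · -- use ceil z.im - 1
            have hc1 : r + 1 < ⌈z.im⌉ := by
              rw [Int.lt_ceil]
              push_cast
              exact h5
            have hc2 : ⌈z.im⌉ ≤ 1 := by
              rw [Int.ceil_le]
              push_cast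
              exact h4
            obtain ⟨m1, m2⟩ := hm r (⌈z.im⌉ - 1) hr1 hr2 (Or.inr ⟨by omega, by omega⟩)
            refine ⟨⌈z.im⌉ - 1, ⟨by omega, by omega⟩, ⟨m1.trans h1, h2.trans m2⟩, ?_, ?_⟩
            · push_cast
              linarith [Int.ceil_lt_add_one z.im]
            · push_cast
              linarith [Int.le_ceil z.im]
      · rintro ⟨r, ⟨hr1, hr2⟩, ⟨h1, h2⟩, h3, h4⟩
        refine ⟨⟨(r + R).toNat, by omega⟩, ?_⟩
        have e : (((r + R).toNat : ℕ) : ℤ) = r + R := by omega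
        have e' : (((r + R).toNat : ℕ) : ℝ) = r + R := by exact_mod_cast e
        simp only [e, e', add_sub_cancel_right]
        exact ⟨⟨h1, h2⟩, (min_le_right _ _).trans h3, h4.trans (le_max_right _ _)⟩
    rw [h2, image_iUnion₂]
    apply iUnion₂_congr
    intro r hr
    exact (band_image D R hH hH8 hr.1 hr.2 _ _).symm
  rw [h1]
  apply IsDisk.image _ (Psi_cont D R hH8) (Psi_inj D R hH hR)
  apply rects_disk (x := x) (y := 1 / 2)
  · intro i
    exact hl _ (by omega) (by omega)
  · intro i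
    exact hu _ (by omega) (by omega)
  · intro i
    exact lt_of_le_of_lt (min_le_left _ _) (by norm_num)
  · intro i
    exact lt_of_lt_of_le (by norm_num) (le_max_left _ _)

end psi

/-- open neighbourhoods inside unions of bands -/
theorem band_nest {H : ℝ} (hH : 0 < H) (hH8 : H ≤ 1 / 8) (D : ℤ → ℤ → ℤ) {U : Set ℂ} {r : ℤ}
    {l u : ℝ} (h0 : band H D r l u ⊆ U) (h1 : band H D (r - 1) l u ⊆ U)
    (h2 : band H D (r + 1) l u ⊆ U) {z : ℂ} (hz : z ∈ band H D r z.re z.re) (hl : l < z.re)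
    (hu : z.re < u) : z ∈ interior U := by
  have hopen : IsOpen {w : ℂ | (l < w.re ∧ w.re < u) ∧ (((r : ℝ) - 1 + prof H (D (r - 1)) w.re < w.im) ∧
      (w.im < (r : ℝ) + 2 + prof H (D (r + 2)) w.re))} := by
    have c1 := (cont_prof hH8 (D (r - 1))).comp Complex.continuous_re
    have c2 := (cont_prof hH8 (D (r + 2))).comp Complex.continuous_re
    exact ((isOpen_lt (f := fun _ : ℂ => l) (by fun_prop) (by fun_prop)).inter
      (isOpen_lt (f := fun z : ℂ => z.re) (by fun_prop) (by fun_prop))).inter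
      ((isOpen_lt (continuous_const.add c1) (by fun_prop)).inter
      (isOpen_lt (f := fun z : ℂ => z.im) (by fun_prop) (continuous_const.add c2)))
  obtain ⟨-, h3, h4⟩ := hz
  have hb0 := abs_le.1 (abs_prof_le hH (D r) z.re)
  have hb1 := abs_le.1 (abs_prof_le hH (D (r + 1)) z.re)
  have hb2 := abs_le.1 (abs_prof_le hH (D (r + 2)) z.re)
  have hb3 := abs_le.1 (abs_prof_le hH (D (r - 1)) z.re)
  refine interior_maximal ?_ hopen ⟨⟨hl, hu⟩, by linarith [hb3.2, hb0.1], by linarith [hb2.1, hb1.2]⟩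
  rintro w ⟨⟨w1, w2⟩, w3, w4⟩
  rcases le_or_gt w.im ((r : ℝ) + prof H (D r) w.re) with h5 | h5
  · apply h1
    refine ⟨⟨w1.le, w2.le⟩, ?_, ?_⟩
    · push_cast
      exact w3.le
    · push_cast
      rw [sub_add_cancel, sub_add_cancel]
      exact h5
  rcases le_or_gt w.im ((r : ℝ) + 1 + prof H (D (r + 1)) w.re) with h6 | h6
  · exact h0 ⟨⟨w1.le, w2.le⟩, h5.le, h6⟩
  · apply h2
    refine ⟨⟨w1.le, w2.le⟩, ?_, ?_⟩
    · push_cast
      exact h6.le
    · push_cast
      rw [show r + 1 + 1 = r + 2 by ring]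
      linarith

end Pool.Agent.H108R4.Br
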