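import Mathlib

/-!
Bodies that can be surrounded many times but do not tile: geometry of the pieces.
-/

set_option autoImplicit false

open Set

namespace Pool.Agent.H108R4

/-- The Euclidean plane. -/
abbrev Pl : Type := EuclideanSpace ℝ (Fin 2)

noncomputable def pt (u v : ℝ) : Pl := !₂[u, v]

@[simp] theorem pt_zero (u v : ℝ) : pt u v 0 = u := by simp [pt]
@[simp] theorem pt_one (u v : ℝ) : pt u v 1 = v := by simp [pt]

theorem ext2 {z w : Pl} (h0 : z 0 = w 0) (h1 : z 1 = w 1) : z = w := by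
  ext i
  fin_cases i
  · exact h0
  · exact h1

theorem dist_sq (z w : Pl) : dist z w ^ 2 = (z 0 - w 0) ^ 2 + (z 1 - w 1) ^ 2 := by
  rw [EuclideanSpace.dist_eq, Real.sq_sqrt (by positivity)]
  simp [Real.dist_eq]

theorem cont0 : Continuous fun z : Pl => z 0 := by fun_prop
theorem cont1 : Continuous fun z : Pl => z 1 := by fun_prop

/-- left strip of the frame with lower left corner `(s, t)` -/
def A1 (s t : ℝ) : Set Pl := {z | s ≤ z 0 ∧ z 0 ≤ s + 1 ∧ t ≤ z 1 ∧ z 1 ≤ t + 4}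
/-- lower strip of the frame -/
def A2 (s t : ℝ) : Set Pl := {z | s ≤ z 0 ∧ z 0 ≤ s + 4 ∧ t ≤ z 1 ∧ z 1 ≤ t + 1}
/-- upper right part of the frame -/
def A3 (s t : ℝ) : Set Pl :=
  {z | s ≤ z 0 ∧ z 0 ≤ s + 4 ∧ t ≤ z 1 ∧ z 1 ≤ t + 4 ∧ s + 2 * t + 5 ≤ z 0 + 2 * z 1}
/-- the triangle filling the hole of the frame -/
def A4 (s t : ℝ) : Set Pl := {z | s + 1 ≤ z 0 ∧ t + 1 ≤ z 1 ∧ z 0 + 2 * z 1 ≤ s + 2 * t + 5}

/-- a frame and the plug for the hole of the next frame -/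
def unit (s t : ℝ) : Set Pl := A1 s t ∪ A2 s t ∪ A3 s t ∪ A4 (s + 4) t

/-- the body: three frames with plugs -/
def body (m : ℕ) (s t : ℝ) : Set Pl := unit s t ∪ unit (s + 4 * m) t ∪ unit (s + 12 * m) t

theorem closed_A1 (s t : ℝ) : IsClosed (A1 s t) :=
  (isClosed_le continuous_const cont0).inter ((isClosed_le cont0 continuous_const).inter
    ((isClosed_le continuous_const cont1).inter (isClosed_le cont1 continuous_const)))

theorem closed_A2 (s t : ℝ) : IsClosed (A2 s t) :=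
  (isClosed_le continuous_const cont0).inter ((isClosed_le cont0 continuous_const).inter
    ((isClosed_le continuous_const cont1).inter (isClosed_le cont1 continuous_const)))

theorem cont2 : Continuous fun z : Pl => z 0 + 2 * z 1 := by fun_prop

theorem closed_A3 (s t : ℝ) : IsClosed (A3 s t) :=
  (isClosed_le continuous_const cont0).inter ((isClosed_le cont0 continuous_const).inter
    ((isClosed_le continuous_const cont1).inter ((isClosed_le cont1 continuous_const).inter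
      (isClosed_le continuous_const cont2))))

theorem closed_A4 (s t : ℝ) : IsClosed (A4 s t) :=
  (isClosed_le continuous_const cont0).inter ((isClosed_le continuous_const cont1).inter
    (isClosed_le cont2 continuous_const))

theorem convex_A1 (s t : ℝ) : Convex ℝ (A1 s t) := by
  rintro z ⟨h1, h2, h3, h4⟩ w ⟨k1, k2, k3, k4⟩ a b ha hb hab
  have hb' : b = 1 - a := by linarith
  subst hb'
  refine ⟨?_, ?_, ?_, ?_⟩ <;> simp <;> nlinarith

theorem convex_A2 (s t : ℝ) : Convex ℝ (A2 s t) := by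
  rintro z ⟨h1, h2, h3, h4⟩ w ⟨k1, k2, k3, k4⟩ a b ha hb hab
  have hb' : b = 1 - a := by linarith
  subst hb'
  refine ⟨?_, ?_, ?_, ?_⟩ <;> simp <;> nlinarith

theorem convex_A3 (s t : ℝ) : Convex ℝ (A3 s t) := by
  rintro z ⟨h1, h2, h3, h4, h5⟩ w ⟨k1, k2, k3, k4, k5⟩ a b ha hb hab
  have hb' : b = 1 - a := by linarith
  subst hb'
  refine ⟨?_, ?_, ?_, ?_, ?_⟩ <;> simp <;> nlinarith

theorem convex_A4 (s t : ℝ) : Convex ℝ (A4 s t) := by
  rintro z ⟨h1, h2, h3⟩ w ⟨k1, k2, k3⟩ a b ha hb hab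
  have hb' : b = 1 - a := by linarith
  subst hb'
  refine ⟨?_, ?_, ?_⟩ <;> simp <;> nlinarith

theorem isOpen_box (a b c d e : ℝ) :
    IsOpen {z : Pl | a < z 0 ∧ z 0 < b ∧ c < z 1 ∧ z 1 < d ∧ e < z 0 + 2 * z 1} :=
  (isOpen_lt continuous_const cont0).inter ((isOpen_lt cont0 continuous_const).inter
    ((isOpen_lt continuous_const cont1).inter ((isOpen_lt cont1 continuous_const).inter
      (isOpen_lt continuous_const cont2))))

theorem int_A1 (s t : ℝ) : (interior (A1 s t)).Nonempty := by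
  refine ⟨pt (s + 1 / 2) (t + 2), mem_interior.2 ⟨_, ?_, isOpen_box s (s + 1) t (t + 4)
    (s + 2 * t), ?_⟩⟩
  · rintro z ⟨h1, h2, h3, h4, h5⟩
    exact ⟨h1.le, h2.le, h3.le, h4.le⟩
  · refine ⟨?_, ?_, ?_, ?_, ?_⟩ <;> simp <;> linarith

theorem int_A2 (s t : ℝ) : (interior (A2 s t)).Nonempty := by
  refine ⟨pt (s + 2) (t + 1 / 2), mem_interior.2 ⟨_, ?_, isOpen_box s (s + 4) t (t + 1)
    (s + 2 * t), ?_⟩⟩
  · rintro z ⟨h1, h2, h3, h4, h5⟩
    exact ⟨h1.le, h2.le, h3.le, h4.le⟩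
  · refine ⟨?_, ?_, ?_, ?_, ?_⟩ <;> simp <;> linarith

theorem int_A3 (s t : ℝ) : (interior (A3 s t)).Nonempty := by
  refine ⟨pt (s + 3) (t + 3), mem_interior.2 ⟨_, ?_, isOpen_box s (s + 4) t (t + 4)
    (s + 2 * t + 5), ?_⟩⟩
  · rintro z ⟨h1, h2, h3, h4, h5⟩
    exact ⟨h1.le, h2.le, h3.le, h4.le, h5.le⟩
  · refine ⟨?_, ?_, ?_, ?_, ?_⟩ <;> simp <;> linarith

theorem int_A4 (s t : ℝ) : (interior (A4 s t)).Nonempty := by
  refine ⟨pt (s + 5 / 4) (t + 5 / 4), mem_interior.2 ⟨_, ?_, isOpen_box (s + 1) (s + 3 / 2)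
    (t + 1) (t + 3 / 2) (s + 2 * t), ?_⟩⟩
  · rintro z ⟨h1, h2, h3, h4, h5⟩
    exact ⟨h1.le, h3.le, by linarith⟩
  · refine ⟨?_, ?_, ?_, ?_, ?_⟩ <;> simp <;> linarith

theorem closed_unit (s t : ℝ) : IsClosed (unit s t) :=
  (((closed_A1 s t).union (closed_A2 s t)).union (closed_A3 s t)).union (closed_A4 (s + 4) t)

theorem closed_body (m : ℕ) (s t : ℝ) : IsClosed (body m s t) :=
  ((closed_unit _ _).union (closed_unit _ _)).union (closed_unit _ _)

theorem unit_bounds {s t : ℝ} {z : Pl} (h : z ∈ unit s t) :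
    s ≤ z 0 ∧ z 0 ≤ s + 8 ∧ t ≤ z 1 ∧ z 1 ≤ t + 4 := by
  rcases h with ((⟨h1, h2, h3, h4⟩ | ⟨h1, h2, h3, h4⟩) | ⟨h1, h2, h3, h4, h5⟩) | ⟨h1, h2, h3⟩ <;>
    refine ⟨?_, ?_, ?_, ?_⟩ <;> linarith

theorem body_bounds {m : ℕ} {s t : ℝ} {z : Pl} (h : z ∈ body m s t) :
    s ≤ z 0 ∧ z 0 ≤ s + 12 * m + 8 ∧ t ≤ z 1 ∧ z 1 ≤ t + 4 := by
  have hm : (0 : ℝ) ≤ m := Nat.cast_nonneg m
  rcases h with (h | h) | h <;> obtain ⟨h1, h2, h3, h4⟩ := unit_bounds h <;>
    refine ⟨?_, ?_, ?_, ?_⟩ <;> linarith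

theorem compact_body (m : ℕ) (s t : ℝ) : IsCompact (body m s t) := by
  apply Metric.isCompact_of_isClosed_isBounded (closed_body m s t)
  rw [Metric.isBounded_iff]
  refine ⟨(12 * m + 8) + 4, ?_⟩
  intro z hz w hw
  obtain ⟨h1, h2, h3, h4⟩ := body_bounds hz
  obtain ⟨k1, k2, k3, k4⟩ := body_bounds hw
  have hm : (0 : ℝ) ≤ m := Nat.cast_nonneg m
  apply abs_le_of_sq_le_sq' _ (by positivity) |>.2
  rw [dist_sq]
  have e1 : (z 0 - w 0) ^ 2 ≤ (12 * m + 8) ^ 2 := by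
    apply sq_le_sq'
    · linarith
    · linarith
  have e2 : (z 1 - w 1) ^ 2 ≤ 4 ^ 2 := by
    apply sq_le_sq'
    · linarith
    · linarith
  nlinarith

/-- Every point of the body lies in a closed convex piece with interior points, which is either
long or one of the three plugs. -/
theorem piece {m : ℕ} {z : Pl} (h : z ∈ body m 0 0) :
    ∃ S : Set Pl, S ⊆ body m 0 0 ∧ z ∈ S ∧ Convex ℝ S ∧ IsClosed S ∧ (interior S).Nonempty ∧
      ((∃ u ∈ S, ∃ v ∈ S, dist u v ^ 2 = 16) ∨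
        ∃ j : ℕ, (j = 0 ∨ j = m ∨ j = 3 * m) ∧ S = A4 (4 * j + 4) 0) := by
  have key : ∀ j : ℕ, (j = 0 ∨ j = m ∨ j = 3 * m) → unit (4 * j) 0 ⊆ body m 0 0 → z ∈ unit (4 * j) 0 →
      ∃ S : Set Pl, S ⊆ body m 0 0 ∧ z ∈ S ∧ Convex ℝ S ∧ IsClosed S ∧ (interior S).Nonempty ∧
      ((∃ u ∈ S, ∃ v ∈ S, dist u v ^ 2 = 16) ∨
        ∃ j : ℕ, (j = 0 ∨ j = m ∨ j = 3 * m) ∧ S = A4 (4 * j + 4) 0) := by
    intro j hj hsub hz
    rcases hz with ((hz | hz) | hz) | hz
    · refine ⟨A1 (4 * j) 0, fun w hw => hsub (Or.inl (Or.inl (Or.inl hw))), hz, convex_A1 _ _,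
        closed_A1 _ _, int_A1 _ _, Or.inl ⟨pt (4 * j) 0, ?_, pt (4 * j) 4, ?_, ?_⟩⟩
      · refine ⟨?_, ?_, ?_, ?_⟩ <;> simp
      · refine ⟨?_, ?_, ?_, ?_⟩ <;> simp
      · rw [dist_sq]; simp; norm_num
    · refine ⟨A2 (4 * j) 0, fun w hw => hsub (Or.inl (Or.inl (Or.inr hw))), hz, convex_A2 _ _,
        closed_A2 _ _, int_A2 _ _, Or.inl ⟨pt (4 * j) 0, ?_, pt (4 * j + 4) 0, ?_, ?_⟩⟩
      · refine ⟨?_, ?_, ?_, ?_⟩ <;> simp
      · refine ⟨?_, ?_, ?_, ?_⟩ <;> simp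
      · rw [dist_sq]; simp; norm_num
    · refine ⟨A3 (4 * j) 0, fun w hw => hsub (Or.inl (Or.inr hw)), hz, convex_A3 _ _,
        closed_A3 _ _, int_A3 _ _, Or.inl ⟨pt (4 * j) 4, ?_, pt (4 * j + 4) 4, ?_, ?_⟩⟩
      · refine ⟨?_, ?_, ?_, ?_, ?_⟩ <;> simp <;> norm_num
      · refine ⟨?_, ?_, ?_, ?_, ?_⟩ <;> simp <;> linarith
      · rw [dist_sq]; simp; norm_num
    · exact ⟨A4 (4 * j + 4) 0, fun w hw => hsub (Or.inr hw), hz, convex_A4 _ _,
        closed_A4 _ _, int_A4 _ _, Or.inr ⟨j, hj, rfl⟩⟩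
  rcases h with (h | h) | h
  · refine key 0 (Or.inl rfl) ?_ (by simpa using h)
    intro w hw
    exact Or.inl (Or.inl (by simpa using hw))
  · refine key m (Or.inr (Or.inl rfl)) ?_ (by simpa using h)
    intro w hw
    exact Or.inl (Or.inr (by simpa using hw))
  · have e : (0 : ℝ) + 12 * m = 4 * ((3 * m : ℕ) : ℝ) := by push_cast; ring
    rw [e] at h
    refine key (3 * m) (Or.inr (Or.inr rfl)) ?_ h
    intro w hw
    rw [← e] at hw
    exact Or.inr hw

theorem regular_body (m : ℕ) : body m 0 0 = closure (interior (body m 0 0)) := by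
  apply Subset.antisymm
  · intro z hz
    obtain ⟨S, hS, hzS, hc, hcl, hi, -⟩ := piece hz
    have h1 : closure (interior S) = S := by
      rw [hc.closure_interior_eq_closure_of_nonempty_interior hi, hcl.closure_eq]
    rw [← h1] at hzS
    exact closure_mono (interior_mono hS) hzS
  · exact (closure_mono interior_subset).trans (closed_body m 0 0).closure_eq.subset

/-! ### translations -/

noncomputable def tr (a b : ℝ) : Pl ≃ᵢ Pl := IsometryEquiv.addRight (pt a b)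

@[simp] theorem tr_zero (a b : ℝ) (z : Pl) : tr a b z 0 = z 0 + a := by
  simp [tr]
@[simp] theorem tr_one (a b : ℝ) (z : Pl) : tr a b z 1 = z 1 + b := by
  simp [tr]

theorem mem_tr_image (a b : ℝ) (S : Set Pl) (z : Pl) : z ∈ tr a b '' S ↔ tr (-a) (-b) z ∈ S := by
  constructor
  · rintro ⟨w, hw, rfl⟩
    have : tr (-a) (-b) (tr a b w) = w := by apply ext2 <;> simp
    rwa [this]
  · intro h
    refine ⟨_, h, ?_⟩
    apply ext2 <;> simp

theorem tr_A1 (a b s t : ℝ) : tr a b '' A1 s t = A1 (s + a) (t + b) := by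
  ext z
  rw [mem_tr_image]
  constructor
  · rintro ⟨h1, h2, h3, h4⟩
    simp only [tr_zero, tr_one] at h1 h2 h3 h4
    exact ⟨by linarith, by linarith, by linarith, by linarith⟩
  · rintro ⟨h1, h2, h3, h4⟩
    refine ⟨?_, ?_, ?_, ?_⟩ <;> simp only [tr_zero, tr_one] <;> linarith

theorem tr_A2 (a b s t : ℝ) : tr a b '' A2 s t = A2 (s + a) (t + b) := by
  ext z
  rw [mem_tr_image]
  constructor
  · rintro ⟨h1, h2, h3, h4⟩
    simp only [tr_zero, tr_one] at h1 h2 h3 h4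
    exact ⟨by linarith, by linarith, by linarith, by linarith⟩
  · rintro ⟨h1, h2, h3, h4⟩
    refine ⟨?_, ?_, ?_, ?_⟩ <;> simp only [tr_zero, tr_one] <;> linarith

theorem tr_A3 (a b s t : ℝ) : tr a b '' A3 s t = A3 (s + a) (t + b) := by
  ext z
  rw [mem_tr_image]
  constructor
  · rintro ⟨h1, h2, h3, h4, h5⟩
    simp only [tr_zero, tr_one] at h1 h2 h3 h4 h5
    exact ⟨by linarith, by linarith, by linarith, by linarith, by linarith⟩
  · rintro ⟨h1, h2, h3, h4, h5⟩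
    refine ⟨?_, ?_, ?_, ?_, ?_⟩ <;> simp only [tr_zero, tr_one] <;> linarith

theorem tr_A4 (a b s t : ℝ) : tr a b '' A4 s t = A4 (s + a) (t + b) := by
  ext z
  rw [mem_tr_image]
  constructor
  · rintro ⟨h1, h2, h3⟩
    simp only [tr_zero, tr_one] at h1 h2 h3
    exact ⟨by linarith, by linarith, by linarith⟩
  · rintro ⟨h1, h2, h3⟩
    refine ⟨?_, ?_, ?_⟩ <;> simp only [tr_zero, tr_one] <;> linarith

theorem tr_unit (a b s t : ℝ) : tr a b '' unit s t = unit (s + a) (t + b) := by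
  rw [unit, image_union, image_union, image_union, tr_A1, tr_A2, tr_A3, tr_A4, unit,
    show s + 4 + a = s + a + 4 by ring]

theorem tr_body (m : ℕ) (a b s t : ℝ) : tr a b '' body m s t = body m (s + a) (t + b) := by
  rw [body, image_union, image_union, tr_unit, tr_unit, tr_unit, body,
    show s + 4 * m + a = s + a + 4 * m by ring, show s + 12 * m + a = s + a + 12 * m by ring]

end Pool.Agent.H108R4
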