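import Pool.Agent.H108R4.BodyBase

set_option autoImplicit false

open Set

namespace Pool.Agent.H108R4

theorem mem_tri {z : Pl} : z ∈ A4 (-1) (-1) ↔ 0 ≤ z 0 ∧ 0 ≤ z 1 ∧ z 0 + 2 * z 1 ≤ 2 := by
  constructor
  · rintro ⟨h1, h2, h3⟩
    exact ⟨by linarith, by linarith, by linarith⟩
  · rintro ⟨h1, h2, h3⟩
    exact ⟨by linarith, by linarith, by linarith⟩

/-- squared distances in the triangle -/
theorem tri_diam {p q : Pl} (hp : p ∈ A4 (-1) (-1)) (hq : q ∈ A4 (-1) (-1)) :
    dist p q ^ 2 ≤ 5 := by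
  rw [mem_tri] at hp hq
  obtain ⟨h1, h2, h3⟩ := hp
  obtain ⟨k1, k2, k3⟩ := hq
  rw [dist_sq]
  have e1 : (p 0 - q 0) ^ 2 ≤ 2 ^ 2 := sq_le_sq' (by linarith) (by linarith)
  have e2 : (p 1 - q 1) ^ 2 ≤ 1 ^ 2 := sq_le_sq' (by linarith) (by linarith)
  linarith

theorem tri_far {p q : Pl} (hp : p ∈ A4 (-1) (-1)) (hq : q ∈ A4 (-1) (-1))
    (h : 5 ≤ dist p q ^ 2) :
    (p = pt 2 0 ∧ q = pt 0 1) ∨ (p = pt 0 1 ∧ q = pt 2 0) := by
  rw [mem_tri] at hp hq
  obtain ⟨h1, h2, h3⟩ := hp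
  obtain ⟨k1, k2, k3⟩ := hq
  rw [dist_sq] at h
  have e1 : (p 0 - q 0) ^ 2 ≤ 2 ^ 2 := sq_le_sq' (by linarith) (by linarith)
  have e2 : (p 1 - q 1) ^ 2 ≤ 1 ^ 2 := sq_le_sq' (by linarith) (by linarith)
  have f1 : (p 0 - q 0) ^ 2 = 2 ^ 2 := by linarith
  have f2 : (p 1 - q 1) ^ 2 = 1 ^ 2 := by linarith
  rcases sq_eq_sq_iff_eq_or_eq_neg.1 f1 with g | g
  · left
    have p0 : p 0 = 2 := by linarith
    have q0 : q 0 = 0 := by linarith
    have p1 : p 1 = 0 := by linarith
    have q1 : q 1 = 1 := by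
      rcases sq_eq_sq_iff_eq_or_eq_neg.1 f2 with g2 | g2 <;> linarith
    exact ⟨ext2 (by simpa using p0) (by simpa using p1), ext2 (by simpa using q0) (by simpa using q1)⟩
  · right
    have p0 : p 0 = 0 := by linarith
    have q0 : q 0 = 2 := by linarith
    have q1 : q 1 = 0 := by linarith
    have p1 : p 1 = 1 := by
      rcases sq_eq_sq_iff_eq_or_eq_neg.1 f2 with g2 | g2 <;> linarith
    exact ⟨ext2 (by simpa using p0) (by simpa using p1), ext2 (by simpa using q0) (by simpa using q1)⟩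

/-- An isometry mapping the scalene triangle into itself is the identity. -/
theorem tri_rigid (φ : Pl ≃ᵢ Pl) (h : ∀ z ∈ A4 (-1) (-1), φ z ∈ A4 (-1) (-1)) (z : Pl) :
    φ z = z := by
  have hO : pt 0 0 ∈ A4 (-1) (-1) := mem_tri.2 (by simp)
  have hA : pt 2 0 ∈ A4 (-1) (-1) := mem_tri.2 (by simp)
  have hB : pt 0 1 ∈ A4 (-1) (-1) := mem_tri.2 (by simp)
  have dAB : dist (pt 2 0) (pt 0 1) ^ 2 = 5 := by rw [dist_sq]; norm_num
  have dOA : dist (φ (pt 0 0)) (φ (pt 2 0)) ^ 2 = 4 := by rw [φ.dist_eq, dist_sq]; norm_num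
  have dOB : dist (φ (pt 0 0)) (φ (pt 0 1)) ^ 2 = 1 := by rw [φ.dist_eq, dist_sq]; norm_num
  have hfar := tri_far (h _ hA) (h _ hB) (by rw [φ.dist_eq, dAB])
  obtain ⟨o1, o2, o3⟩ := mem_tri.1 (h _ hO)
  rcases hfar with ⟨fA, fB⟩ | ⟨fA, fB⟩
  · rw [fA, dist_sq] at dOA
    rw [fB, dist_sq] at dOB
    simp only [pt_zero, pt_one] at dOA dOB
    set u := φ (pt 0 0) 0 with hu
    set v := φ (pt 0 0) 1 with hv
    have e1 : v = 2 * u := by nlinarith
    have e2 : u * (5 * u - 4) = 0 := by rw [e1] at dOB; nlinarith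
    have e3 : u = 0 := by
      rcases mul_eq_zero.1 e2 with g | g
      · exact g
      · exfalso
        have : u = 4 / 5 := by linarith
        rw [e1, this] at o3
        norm_num at o3
    have fO : φ (pt 0 0) = pt 0 0 := by
      apply ext2
      · rw [← hu, e3]; simp
      · rw [← hv, e1, e3]; simp
    have d1 : dist (φ z) (φ (pt 0 0)) ^ 2 = dist z (pt 0 0) ^ 2 := by rw [φ.dist_eq]
    have d2 : dist (φ z) (φ (pt 2 0)) ^ 2 = dist z (pt 2 0) ^ 2 := by rw [φ.dist_eq]
    have d3 : dist (φ z) (φ (pt 0 1)) ^ 2 = dist z (pt 0 1) ^ 2 := by rw [φ.dist_eq]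
    rw [fO, dist_sq, dist_sq] at d1
    rw [fA, dist_sq, dist_sq] at d2
    rw [fB, dist_sq, dist_sq] at d3
    simp only [pt_zero, pt_one] at d1 d2 d3
    apply ext2
    · linarith
    · linarith
  · exfalso
    rw [fA, dist_sq] at dOA
    rw [fB, dist_sq] at dOB
    simp only [pt_zero, pt_one] at dOA dOB
    set u := φ (pt 0 0) 0 with hu
    set v := φ (pt 0 0) 1 with hv
    have e1 : v = 2 * u - 3 := by nlinarith
    have e2 : u ≤ 8 / 5 := by linarith
    have e3 : 3 / 2 ≤ u := by linarith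
    rw [e1] at dOB
    nlinarith

/-- The function which is negative exactly on the open hole. -/
noncomputable def gf (s t : ℝ) (z : Pl) : ℝ :=
  max (max (s + 1 - z 0) (t + 1 - z 1)) (z 0 + 2 * z 1 - (s + 2 * t + 5))

theorem cont_gf (s t : ℝ) : Continuous (gf s t) := by
  unfold gf
  fun_prop

theorem gf_le {s t : ℝ} {z : Pl} : gf s t z ≤ 0 ↔ z ∈ A4 s t := by
  unfold gf
  rw [max_le_iff, max_le_iff]
  constructor
  · rintro ⟨⟨h1, h2⟩, h3⟩
    exact ⟨by linarith, by linarith, by linarith⟩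
  · rintro ⟨h1, h2, h3⟩
    exact ⟨⟨by linarith, by linarith⟩, by linarith⟩

/-- the frame without the plug -/
def fr (s t : ℝ) : Set Pl := A1 s t ∪ A2 s t ∪ A3 s t

theorem ring_sub {s t : ℝ} {z : Pl} (h0 : 0 < gf s t z) (h1 : gf s t z < 1 / 4) :
    z ∈ fr s t := by
  unfold gf at h0 h1
  rw [max_lt_iff, max_lt_iff] at h1
  obtain ⟨⟨a1, a2⟩, a3⟩ := h1
  rw [lt_max_iff, lt_max_iff] at h0
  rcases h0 with (h0 | h0) | h0
  · exact Or.inl (Or.inl ⟨by linarith, by linarith, by linarith, by linarith⟩)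
  · exact Or.inl (Or.inr ⟨by linarith, by linarith, by linarith, by linarith⟩)
  · exact Or.inr ⟨by linarith, by linarith, by linarith, by linarith, by linarith⟩

/-- A preconnected set disjoint from the interior of a set containing the frame, which meets the
open hole, lies in the closed hole. -/
theorem trapped {s t : ℝ} {C X : Set Pl} (hC : fr s t ⊆ C) (hX : IsPreconnected X)
    (hd : Disjoint X (interior C)) {w : Pl} (hw : w ∈ X) (hw0 : gf s t w < 0) : X ⊆ A4 s t := by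
  intro x hx
  rw [← gf_le]
  by_contra hcon
  rw [not_le] at hcon
  have hring : {z : Pl | 0 < gf s t z ∧ gf s t z < 1 / 4} ⊆ interior C := by
    apply interior_maximal
    · rintro z ⟨h0, h1⟩
      exact hC (ring_sub h0 h1)
    · exact (isOpen_lt continuous_const (cont_gf s t)).inter (isOpen_lt (cont_gf s t) continuous_const)
  have hx4 : 1 / 4 ≤ gf s t x := by
    by_contra hlt
    rw [not_le] at hlt
    exact Set.disjoint_left.1 hd hx (hring ⟨hcon, hlt⟩)
  have him := hX.image (gf s t) (cont_gf s t).continuousOn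
  have hmem : (1 / 8 : ℝ) ∈ gf s t '' X := by
    apply him.ordConnected.out ⟨w, hw, rfl⟩ ⟨x, hx, rfl⟩
    exact ⟨by linarith, by linarith⟩
  obtain ⟨y, hy, hy8⟩ := hmem
  exact Set.disjoint_left.1 hd hy (hring ⟨by rw [hy8]; norm_num, by rw [hy8]; norm_num⟩)

theorem fr_sub_unit (s t : ℝ) : fr s t ⊆ unit s t := fun _ h => Or.inl h

/-- If the open hole of a frame contained in `C` is met by a copy of the body whose interior is
disjoint from that of `C`, then the copy is a translate of the body, one plug of which fills the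
hole. -/
theorem fit {m : ℕ} {C : Set Pl} {n : ℤ} (hC : fr (4 * n) 0 ⊆ C) (g : Pl ≃ᵢ Pl)
    (hd : Disjoint (interior (g '' body m 0 0)) (interior C)) {z : Pl} (hz : z ∈ g '' body m 0 0)
    (hz0 : gf (4 * n) 0 z < 0) :
    ∃ j : ℕ, (j = 0 ∨ j = m ∨ j = 3 * m) ∧ g '' body m 0 0 = body m (4 * (n - j - 1 : ℤ)) 0 := by
  obtain ⟨y, hy, rfl⟩ := hz
  obtain ⟨S, hS, hyS, hc, hcl, hi, hor⟩ := piece hy
  have h1 : closure (interior S) = S := by
    rw [hc.closure_interior_eq_closure_of_nonempty_interior hi, hcl.closure_eq]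
  -- the image of the interior of the piece
  have hXpre : IsPreconnected (g '' interior S) :=
    hc.interior.isPreconnected.image _ g.continuous.continuousOn
  have hXsub : g '' interior S ⊆ interior (g '' body m 0 0) := by
    have : g '' interior (body m 0 0) = interior (g '' body m 0 0) :=
      g.toHomeomorph.image_interior _
    rw [← this]
    exact image_mono (interior_mono hS)
  -- it meets the open hole
  have hopen : IsOpen {w : Pl | gf (4 * n) 0 (g w) < 0} :=
    isOpen_lt ((cont_gf _ _).comp g.continuous) continuous_const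
  have hmeet : ∃ w ∈ interior S, gf (4 * n) 0 (g w) < 0 := by
    have hy' : y ∈ closure (interior S) := by rw [h1]; exact hyS
    obtain ⟨w, hw1, hw2⟩ := mem_closure_iff.1 hy' _ hopen hz0
    exact ⟨w, hw2, hw1⟩
  obtain ⟨w, hwS, hw0⟩ := hmeet
  have htrap := trapped hC hXpre (hd.mono_left hXsub) ⟨w, hwS, rfl⟩ hw0
  -- hence the image of the piece lies in the closed hole
  have hSub : ∀ u ∈ S, g u ∈ A4 (4 * n) 0 := by
    intro u hu
    rw [← h1] at hu
    have : closure (interior S) ⊆ g ⁻¹' A4 (4 * n) 0 := by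
      apply closure_minimal
      · intro v hv
        exact htrap ⟨v, hv, rfl⟩
      · exact (closed_A4 _ _).preimage g.continuous
    exact this hu
  have hnorm : ∀ u ∈ A4 (4 * n) 0, tr (-(4 * n + 1)) (-1) u ∈ A4 (-1) (-1) := by
    rintro u ⟨a1, a2, a3⟩
    rw [mem_tri]
    simp only [tr_zero, tr_one]
    exact ⟨by linarith, by linarith, by linarith⟩
  rcases hor with ⟨u, hu, v, hv, huv⟩ | ⟨j, hj, rfl⟩
  · exfalso
    have h5 := tri_diam (hnorm _ (hSub u hu)) (hnorm _ (hSub v hv))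
    rw [(tr _ _).dist_eq, g.dist_eq, huv] at h5
    norm_num at h5
  · refine ⟨j, hj, ?_⟩
    let φ : Pl ≃ᵢ Pl := ((tr (4 * j + 5) 1).trans g).trans (tr (-(4 * n + 1)) (-1))
    have hφ := tri_rigid φ (by
      intro u hu
      rw [mem_tri] at hu
      obtain ⟨a1, a2, a3⟩ := hu
      have hu' : tr (4 * (j : ℝ) + 5) 1 u ∈ A4 (4 * (j : ℝ) + 4) 0 := by
        refine ⟨?_, ?_, ?_⟩ <;> simp only [tr_zero, tr_one] <;> linarith
      exact hnorm _ (hSub _ hu'))
    have hg : g = tr (4 * (n - j - 1 : ℤ)) 0 := by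
      ext1 u
      have h2 := hφ (tr (-(4 * j + 5)) (-1) u)
      have h3 : tr (4 * (j : ℝ) + 5) 1 (tr (-(4 * j + 5)) (-1) u) = u := by
        apply ext2
        · simp only [tr_zero]; ring
        · simp only [tr_one]; ring
      have h4 : φ (tr (-(4 * j + 5)) (-1) u) = tr (-(4 * n + 1)) (-1) (g u) := by
        show tr (-(4 * n + 1)) (-1) (g (tr (4 * (j : ℝ) + 5) 1 (tr (-(4 * j + 5)) (-1) u))) = _
        rw [h3]
      rw [h4] at h2
      have a0 : (tr (-(4 * n + 1)) (-1) (g u)) 0 = (tr (-(4 * (j : ℝ) + 5)) (-1) u) 0 := by rw [h2]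
      have a1 : (tr (-(4 * n + 1)) (-1) (g u)) 1 = (tr (-(4 * (j : ℝ) + 5)) (-1) u) 1 := by rw [h2]
      simp only [tr_zero, tr_one] at a0 a1
      apply ext2
      · simp only [tr_zero]
        push_cast
        linarith
      · simp only [tr_one]
        linarith
    rw [hg, tr_body]
    simp

end Pool.Agent.H108R4
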