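import Pool.Agent.H108R4.BodyFit

set_option autoImplicit false

open Set

namespace Pool.Agent.H108R4

/-- the interior of the body contains a specific point of each frame -/
theorem center_mem (s t : ℝ) : pt (s + 1 / 2) (t + 2) ∈ interior (A1 s t) := by
  refine mem_interior.2 ⟨_, ?_, isOpen_box s (s + 1) t (t + 4) (s + 2 * t), ?_⟩
  · rintro z ⟨h1, h2, h3, h4, h5⟩
    exact ⟨h1.le, h2.le, h3.le, h4.le⟩
  · refine ⟨?_, ?_, ?_, ?_, ?_⟩ <;> simp <;> linarith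

theorem A1_sub_body {m : ℕ} {j : ℕ} (hj : j = 0 ∨ j = m ∨ j = 3 * m) (s t : ℝ) :
    A1 (s + 4 * j) t ⊆ body m s t := by
  rcases hj with rfl | rfl | rfl
  · intro z hz
    exact Or.inl (Or.inl (Or.inl (Or.inl (Or.inl (by simpa using hz)))))
  · intro z hz
    exact Or.inl (Or.inr (Or.inl (Or.inl (Or.inl hz))))
  · intro z hz
    have e : s + 4 * ((3 * m : ℕ) : ℝ) = s + 12 * m := by push_cast; ring
    rw [e] at hz
    exact Or.inr (Or.inl (Or.inl (Or.inl hz)))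

theorem fr_sub_body {m : ℕ} {j : ℕ} (hj : j = 0 ∨ j = m ∨ j = 3 * m) (s t : ℝ) :
    fr (s + 4 * j) t ⊆ body m s t := by
  rcases hj with rfl | rfl | rfl
  · intro z hz
    exact Or.inl (Or.inl (fr_sub_unit _ _ (by simpa using hz)))
  · intro z hz
    exact Or.inl (Or.inr (fr_sub_unit _ _ hz))
  · intro z hz
    have e : s + 4 * ((3 * m : ℕ) : ℝ) = s + 12 * m := by push_cast; ring
    rw [e] at hz
    exact Or.inr (fr_sub_unit _ _ hz)

/-- the centre of a hole of the body is not in the body -/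
theorem hole_notMem {m : ℕ} (hm : 2 ≤ m) {a : ℤ} {j : ℕ} (hj : j = 0 ∨ j = m ∨ j = 3 * m) :
    pt (4 * (a + j : ℤ) + 3 / 2) (5 / 4) ∉ body m (4 * a) 0 := by
  have hfr : ∀ b : ℤ, b = a + j ∨ b < a + j ∨ a + j < b →
      pt (4 * (a + j : ℤ) + 3 / 2) (5 / 4) ∉ fr (4 * (b : ℝ)) 0 := by
    rintro b hb ((⟨h1, h2, h3, h4⟩ | ⟨h1, h2, h3, h4⟩) | ⟨h1, h2, h3, h4, h5⟩)
    · simp only [pt_zero, pt_one] at h1 h2 h3 h4
      rcases hb with rfl | hb | hb
      · push_cast at h1 h2; linarith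
      · have : (b : ℝ) + 1 ≤ (a + j : ℤ) := by exact_mod_cast hb
        push_cast at *; linarith
      · have : ((a + j : ℤ) : ℝ) + 1 ≤ b := by exact_mod_cast hb
        push_cast at *; linarith
    · simp only [pt_zero, pt_one] at h1 h2 h3 h4
      linarith
    · simp only [pt_zero, pt_one] at h1 h2 h3 h4 h5
      rcases hb with rfl | hb | hb
      · push_cast at *; linarith
      · have : (b : ℝ) + 1 ≤ (a + j : ℤ) := by exact_mod_cast hb
        push_cast at *; linarith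
      · have : ((a + j : ℤ) : ℝ) + 1 ≤ b := by exact_mod_cast hb
        push_cast at *; linarith
  have hpl : ∀ b : ℤ, b ≠ a + j → pt (4 * (a + j : ℤ) + 3 / 2) (5 / 4) ∉ A4 (4 * (b : ℝ)) 0 := by
    rintro b hb ⟨h1, h2, h3⟩
    simp only [pt_zero, pt_one] at h1 h2 h3
    rcases lt_or_gt_of_ne hb with hb | hb
    · have : (b : ℝ) + 1 ≤ (a + j : ℤ) := by exact_mod_cast hb
      push_cast at *; linarith
    · have : ((a + j : ℤ) : ℝ) + 1 ≤ b := by exact_mod_cast hb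
      push_cast at *; linarith
  have hun : ∀ i : ℕ, (i = 0 ∨ i = m ∨ i = 3 * m) →
      pt (4 * (a + j : ℤ) + 3 / 2) (5 / 4) ∉ unit (4 * (a : ℝ) + 4 * i) 0 := by
    rintro i hi (h | h)
    · refine hfr (a + i) ?_ ?_
      · omega
      · have e : (4 * ((a + i : ℤ) : ℝ)) = 4 * (a : ℝ) + 4 * i := by push_cast; ring
        rw [e]; exact h
    · refine hpl (a + i + 1) ?_ ?_
      · omega
      · have e : (4 * ((a + i + 1 : ℤ) : ℝ)) = 4 * (a : ℝ) + 4 * i + 4 := by push_cast; ring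
        rw [e]; exact h
  rintro ((h | h) | h)
  · exact hun 0 (Or.inl rfl) (by simpa using h)
  · exact hun m (Or.inr (Or.inl rfl)) h
  · refine hun (3 * m) (Or.inr (Or.inr rfl)) ?_
    have e : 4 * (a : ℝ) + 4 * ((3 * m : ℕ) : ℝ) = 4 * (a : ℝ) + 12 * m := by push_cast; ring
    rw [e]; exact h

theorem hole_neg (n : ℤ) : gf (4 * n) 0 (pt (4 * n + 3 / 2) (5 / 4)) < 0 := by
  unfold gf
  rw [max_lt_iff, max_lt_iff]
  simp only [pt_zero, pt_one]
  refine ⟨⟨?_, ?_⟩, ?_⟩ <;> linarith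

/-- Chain step. -/
theorem chain {m : ℕ} (hm : 2 ≤ m) {F : Set (Set Pl)} (hcopy : ∀ T ∈ F, ∃ g : Pl ≃ᵢ Pl, T = g '' body m 0 0)
    (hdis : ∀ T ∈ F, ∀ T' ∈ F, T ≠ T' → Disjoint (interior T) (interior T'))
    (hcov : ⋃₀ F = univ) {a : ℤ} (ha : body m (4 * a) 0 ∈ F) {j : ℕ}
    (hj : j = 0 ∨ j = m ∨ j = 3 * m) :
    ∃ (b : ℤ) (i : ℕ), (i = 0 ∨ i = m ∨ i = 3 * m) ∧ body m (4 * b) 0 ∈ F ∧ b + i = a + j - 1 := by
  have hz : pt (4 * (a + j : ℤ) + 3 / 2) (5 / 4) ∈ ⋃₀ F := by rw [hcov]; trivial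
  obtain ⟨T, hT, hzT⟩ := hz
  have hne : T ≠ body m (4 * a) 0 := by
    rintro rfl
    exact hole_notMem hm hj hzT
  obtain ⟨g, rfl⟩ := hcopy T hT
  have hfr : fr (4 * ((a + j : ℤ) : ℝ)) 0 ⊆ body m (4 * a) 0 := by
    have e : (4 * ((a + j : ℤ) : ℝ)) = 4 * (a : ℝ) + 4 * j := by push_cast; ring
    rw [e]
    exact fr_sub_body hj _ _
  obtain ⟨i, hi, hi'⟩ := fit hfr g (hdis _ hT _ ha hne) hzT (hole_neg _)
  refine ⟨a + j - i - 1, i, hi, ?_, by ring⟩
  rw [← hi']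
  exact hT

theorem occ {m : ℕ} (hm : 2 ≤ m) {F : Set (Set Pl)} (hcopy : ∀ T ∈ F, ∃ g : Pl ≃ᵢ Pl, T = g '' body m 0 0)
    (hdis : ∀ T ∈ F, ∀ T' ∈ F, T ≠ T' → Disjoint (interior T) (interior T'))
    (hcov : ⋃₀ F = univ) (h0 : body m 0 0 ∈ F) (k : ℕ) :
    ∃ (b : ℤ) (i : ℕ), (i = 0 ∨ i = m ∨ i = 3 * m) ∧ body m (4 * b) 0 ∈ F ∧ b + i = 3 * m - k := by
  induction k with
  | zero => exact ⟨0, 3 * m, Or.inr (Or.inr rfl), by simpa using h0, by push_cast; ring⟩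
  | succ k ih =>
    obtain ⟨b, i, hi, hb, hbi⟩ := ih
    obtain ⟨b', i', hi', hb', h⟩ := chain hm hcopy hdis hcov hb hi
    exact ⟨b', i', hi', hb', by rw [h, hbi]; push_cast; ring⟩

theorem overlap {m : ℕ} {b : ℤ} {i j : ℕ} (hi : i = 0 ∨ i = m ∨ i = 3 * m)
    (hj : j = 0 ∨ j = m ∨ j = 3 * m) (h : b + i = j) :
    ¬ Disjoint (interior (body m (4 * b) 0)) (interior (body m 0 0)) := by
  intro hd
  have e : 4 * (b : ℝ) + 4 * i = 0 + 4 * j := by
    have : ((b + i : ℤ) : ℝ) = j := by rw [h]; simp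
    push_cast at this
    linarith
  have h1 := interior_mono (A1_sub_body hi (4 * (b : ℝ)) 0) (center_mem _ _)
  have h2 := interior_mono (A1_sub_body hj 0 0) (center_mem _ _)
  rw [e] at h1
  exact Set.disjoint_left.1 hd h1 h2

theorem body_ne {m : ℕ} {b : ℤ} (hb : b ≠ 0) : body m (4 * b) 0 ≠ body m 0 0 := by
  intro h
  have h1 : pt (4 * b) 0 ∈ body m (4 * b) 0 :=
    Or.inl (Or.inl (Or.inl (Or.inl (Or.inl ⟨by simp, by simp, by simp, by simp⟩))))
  have h2 : pt 0 0 ∈ body m 0 0 :=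
    Or.inl (Or.inl (Or.inl (Or.inl (Or.inl ⟨by simp, by simp, by simp, by simp⟩))))
  rw [h] at h1
  rw [← h] at h2
  have k1 := (body_bounds h1).1
  have k2 := (body_bounds h2).1
  simp only [pt_zero] at k1 k2
  rcases lt_or_gt_of_ne hb with hb | hb
  · have : (b : ℝ) < 0 := by exact_mod_cast hb
    linarith
  · have : (0 : ℝ) < b := by exact_mod_cast hb
    linarith

/-- The body does not tile the plane: a family containing the body itself. -/
theorem no_tiling0 {m : ℕ} (hm : 2 ≤ m) {F : Set (Set Pl)}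
    (hcopy : ∀ T ∈ F, ∃ g : Pl ≃ᵢ Pl, T = g '' body m 0 0)
    (hdis : ∀ T ∈ F, ∀ T' ∈ F, T ≠ T' → Disjoint (interior T) (interior T'))
    (hcov : ⋃₀ F = univ) (h0 : body m 0 0 ∈ F) : False := by
  obtain ⟨b, i, hi, hb, hbi⟩ := occ hm hcopy hdis hcov h0 m
  have hbi' : b + i = 2 * m := by rw [hbi]; ring
  have hb0 : b ≠ 0 := by
    intro hb0
    rcases hi with h | h | h <;> omega
  have key : ∃ i' j' : ℕ, (i' = 0 ∨ i' = m ∨ i' = 3 * m) ∧ (j' = 0 ∨ j' = m ∨ j' = 3 * m) ∧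
      b + i' = j' := by
    rcases hi with h | h | h
    · exact ⟨m, 3 * m, Or.inr (Or.inl rfl), Or.inr (Or.inr rfl), by push_cast; omega⟩
    · exact ⟨0, m, Or.inl rfl, Or.inr (Or.inl rfl), by push_cast; omega⟩
    · exact ⟨m, 0, Or.inr (Or.inl rfl), Or.inl rfl, by push_cast; omega⟩
  obtain ⟨i', j', hi', hj', h⟩ := key
  exact overlap hi' hj' h (hdis _ hb _ h0 (body_ne hb0))

/-- The body does not tile the plane. -/
theorem no_tiling {m : ℕ} (hm : 2 ≤ m) {F : Set (Set Pl)}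
    (hcopy : ∀ T ∈ F, ∃ g : Pl ≃ᵢ Pl, T = g '' body m 0 0)
    (hdis : ∀ T ∈ F, ∀ T' ∈ F, T ≠ T' → Disjoint (interior T) (interior T'))
    (hcov : ⋃₀ F = univ) : False := by
  have hz : pt 0 0 ∈ ⋃₀ F := by rw [hcov]; trivial
  obtain ⟨T, hT, -⟩ := hz
  obtain ⟨g, hg⟩ := hcopy T hT
  have hinj : Function.Injective fun A : Set Pl => g.symm '' A := by
    intro A B h
    simp only at h
    have h2 : g '' (g.symm '' A) = g '' (g.symm '' B) := by rw [h]
    rw [image_image, image_image] at h2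
    simpa using h2
  refine no_tiling0 hm (F := (fun A => g.symm '' A) '' F) ?_ ?_ ?_ ?_
  · rintro _ ⟨A, hA, rfl⟩
    obtain ⟨h, rfl⟩ := hcopy A hA
    exact ⟨h.trans g.symm, by
      show g.symm '' (h '' body m 0 0) = _
      rw [image_image]; rfl⟩
  · rintro _ ⟨A, hA, rfl⟩ _ ⟨B, hB, rfl⟩ hne
    have hAB : A ≠ B := fun h => hne (by rw [h])
    have e : ∀ S : Set Pl, interior (g.symm '' S) = g.symm '' interior S := fun S =>
      (g.symm.toHomeomorph.image_interior S).symm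
    simp only [e]
    exact (Set.disjoint_image_iff g.symm.injective).2 (hdis _ hA _ hB hAB)
  · rw [eq_univ_iff_forall]
    intro x
    have : g x ∈ ⋃₀ F := by rw [hcov]; trivial
    obtain ⟨A, hA, hx⟩ := this
    exact ⟨g.symm '' A, ⟨A, hA, rfl⟩, g x, hx, by simp⟩
  · refine ⟨T, hT, ?_⟩
    simp only
    rw [hg, image_image]
    simp

end Pool.Agent.H108R4
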