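import Mathlib

/-!
Areas of thin cones, invariance under isometries.
-/

set_option autoImplicit false

open Set MeasureTheory Metric
open scoped Pointwise

namespace Pool.Agent.H108R4.Br

/-- isometries of the plane preserve area -/
theorem mp (Φ : ℂ ≃ᵢ ℂ) : MeasurePreserving (Φ : ℂ → ℂ) volume volume := by
  have h : (Φ : ℂ → ℂ) = fun x => Φ 0 + Φ.toRealAffineIsometryEquiv.linearIsometryEquiv x := by
    funext x
    have h := Φ.toRealAffineIsometryEquiv.map_vadd (0 : ℂ) x
    simp only [vadd_eq_add, add_zero] at h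
    have e : ∀ y, Φ.toRealAffineIsometryEquiv y = Φ y := fun y => by simp
    rw [e, e] at h
    rw [h, add_comm]
  rw [h]
  exact (measurePreserving_add_left volume (Φ 0)).comp
    (Φ.toRealAffineIsometryEquiv.linearIsometryEquiv).measurePreserving

theorem vol_image (Φ : ℂ ≃ᵢ ℂ) (A : Set ℂ) : volume (Φ '' A) = volume A := by
  have h3 : Φ '' A = Φ.symm ⁻¹' A := by
    ext x
    constructor
    · rintro ⟨y, hy, rfl⟩
      simpa using hy
    · intro hx
      exact ⟨Φ.symm x, hx, by simp⟩
  rw [h3]
  exact (mp Φ.symm).measure_preimage_emb Φ.symm.toHomeomorph.measurableEmbedding A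

/-- closed cone -/
def cone (t : ℝ) : Set ℂ := {z | |z.re| ≤ t * z.im}
/-- open cone -/
def ocone (t : ℝ) : Set ℂ := {z | |z.re| < t * z.im}

theorem convex_cone (t : ℝ) : Convex ℝ (cone t) := by
  intro z hz w hw a b ha hb hab
  have hz' : |z.re| ≤ t * z.im := hz
  have hw' : |w.re| ≤ t * w.im := hw
  show |(a • z + b • w).re| ≤ t * (a • z + b • w).im
  simp only [Complex.add_re, Complex.add_im, Complex.real_smul, Complex.mul_re, Complex.ofReal_re,
    Complex.ofReal_im, zero_mul, sub_zero, Complex.mul_im, add_zero]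
  calc |a * z.re + b * w.re| ≤ |a * z.re| + |b * w.re| := abs_add_le _ _
    _ = a * |z.re| + b * |w.re| := by rw [abs_mul, abs_mul, abs_of_nonneg ha, abs_of_nonneg hb]
    _ ≤ a * (t * z.im) + b * (t * w.im) := by
        gcongr
    _ = _ := by ring

theorem isClosed_cone (t : ℝ) : IsClosed (cone t) :=
  isClosed_le (by fun_prop) (by fun_prop)

theorem isOpen_ocone (t : ℝ) : IsOpen (ocone t) :=
  isOpen_lt (by fun_prop) (by fun_prop)

/-- area of the unit sector -/
noncomputable def kap (t : ℝ) : ENNReal := volume (cone t ∩ ball 0 1)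

theorem smul_sector {t r : ℝ} (hr : 0 < r) : cone t ∩ ball 0 r = r • (cone t ∩ ball 0 1) := by
  ext z
  rw [Set.mem_smul_set_iff_inv_smul_mem₀ hr.ne']
  simp only [mem_inter_iff, mem_ball_zero_iff]
  have h1 : (r⁻¹ • z).re = r⁻¹ * z.re := by simp
  have h2 : (r⁻¹ • z).im = r⁻¹ * z.im := by simp
  have h3 : ‖r⁻¹ • z‖ = r⁻¹ * ‖z‖ := by
    rw [norm_smul, Real.norm_eq_abs, abs_of_pos (inv_pos.2 hr)]
  constructor
  · rintro ⟨h, h'⟩
    refine ⟨?_, ?_⟩
    · show |(r⁻¹ • z).re| ≤ t * (r⁻¹ • z).im
      have : |z.re| ≤ t * z.im := h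
      rw [h1, h2, abs_mul, abs_of_pos (inv_pos.2 hr)]
      calc r⁻¹ * |z.re| ≤ r⁻¹ * (t * z.im) := by gcongr
        _ = _ := by ring
    · rw [h3]
      rw [inv_mul_lt_iff₀ hr]
      linarith
  · rintro ⟨h, h'⟩
    refine ⟨?_, ?_⟩
    · have h : |(r⁻¹ • z).re| ≤ t * (r⁻¹ • z).im := h
      show |z.re| ≤ t * z.im
      rw [h1, h2, abs_mul, abs_of_pos (inv_pos.2 hr)] at h
      have := mul_le_mul_of_nonneg_left h hr.le
      calc |z.re| = r * (r⁻¹ * |z.re|) := by field_simp
        _ ≤ r * (t * (r⁻¹ * z.im)) := this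
        _ = t * z.im := by field_simp
    · rw [h3, inv_mul_lt_iff₀ hr] at h'
      linarith

theorem vol_sector {t r : ℝ} (hr : 0 < r) :
    volume (cone t ∩ ball 0 r) = ENNReal.ofReal (r ^ 2) * kap t := by
  rw [smul_sector hr, Measure.addHaar_smul, Complex.finrank_real_complex, kap,
    abs_of_pos (by positivity)]

theorem kap_lt_top (t : ℝ) : kap t < ⊤ :=
  lt_of_le_of_lt (measure_mono inter_subset_right) measure_ball_lt_top

/-- the open cone has the same area -/
theorem vol_osector {t r : ℝ} (hr : 0 < r) :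
    volume (ocone t ∩ ball 0 r) = ENNReal.ofReal (r ^ 2) * kap t := by
  rw [← vol_sector hr]
  apply le_antisymm
  · exact measure_mono (inter_subset_inter_left _ fun z (hz : |z.re| < t * z.im) =>
      (show |z.re| ≤ t * z.im from le_of_lt hz))
  · have h : cone t ∩ ball 0 r ⊆ (ocone t ∩ ball 0 r) ∪ frontier (cone t) := by
      rintro z ⟨hz, hzr⟩
      by_cases hz' : |z.re| < t * z.im
      · exact Or.inl ⟨hz', hzr⟩
      · right
        rw [(isClosed_cone t).frontier_eq]
        refine ⟨hz, fun hint => hz' ?_⟩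
        -- an interior point satisfies the strict inequality
        rw [mem_interior_iff_mem_nhds, Metric.mem_nhds_iff] at hint
        obtain ⟨ε, hε, hball⟩ := hint
        by_cases hre : 0 ≤ z.re
        · have : (z + ((ε / 2 : ℝ) : ℂ)) ∈ ball z ε := by
            rw [mem_ball, dist_eq_norm]
            simp [abs_of_pos hε]
            linarith
          have h2 : |(z + ((ε / 2 : ℝ) : ℂ)).re| ≤ t * (z + ((ε / 2 : ℝ) : ℂ)).im := hball this
          simp only [Complex.add_re, Complex.ofReal_re, Complex.add_im, Complex.ofReal_im,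
            add_zero] at h2
          rw [abs_of_nonneg (by linarith)] at h2
          rw [abs_of_nonneg hre]
          linarith
        · push Not at hre
          have : (z - ((ε / 2 : ℝ) : ℂ)) ∈ ball z ε := by
            rw [mem_ball, dist_eq_norm]
            simp [abs_of_pos hε]
            linarith
          have h2 : |(z - ((ε / 2 : ℝ) : ℂ)).re| ≤ t * (z - ((ε / 2 : ℝ) : ℂ)).im := hball this
          simp only [Complex.sub_re, Complex.ofReal_re, Complex.sub_im, Complex.ofReal_im,
            sub_zero] at h2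
          rw [abs_of_neg (by linarith)] at h2
          rw [abs_of_neg hre]
          linarith
    calc volume (cone t ∩ ball 0 r) ≤ volume ((ocone t ∩ ball 0 r) ∪ frontier (cone t)) :=
          measure_mono h
      _ ≤ volume (ocone t ∩ ball 0 r) + volume (frontier (cone t)) := measure_union_le _ _
      _ = volume (ocone t ∩ ball 0 r) := by
          rw [(convex_cone t).addHaar_frontier volume, add_zero]

/-- strict monotonicity -/
theorem kap_lt {s t : ℝ} (hs : 0 < s) (hst : s < t) : kap s < kap t := by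
  -- an open set in the larger cone outside the smaller one
  let U : Set ℂ := (ocone t ∩ {z | s * z.im < z.re}) ∩ ball 0 1
  have hU : IsOpen U := ((isOpen_ocone t).inter (isOpen_lt (by fun_prop) (by fun_prop))).inter isOpen_ball
  have hne : U.Nonempty := by
    have ht : 0 < t := hs.trans hst
    set c : ℝ := 1 / (2 * (1 + t)) with hc
    have hc0 : 0 < c := by positivity
    refine ⟨⟨(s + t) / 2 * c, c⟩, ⟨?_, ?_⟩, ?_⟩
    · show |(s + t) / 2 * c| < t * c
      rw [abs_of_pos (by positivity)]
      apply mul_lt_mul_of_pos_right _ hc0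
      linarith
    · show s * c < (s + t) / 2 * c
      apply mul_lt_mul_of_pos_right _ hc0
      linarith
    · rw [mem_ball_zero_iff]
      calc ‖(⟨(s + t) / 2 * c, c⟩ : ℂ)‖ ≤ |(s + t) / 2 * c| + |c| := Complex.norm_le_abs_re_add_abs_im _
        _ = ((s + t) / 2 + 1) * c := by
            rw [abs_of_pos (by positivity), abs_of_pos hc0]; ring
        _ < (1 + t) * c := by
            apply mul_lt_mul_of_pos_right _ hc0
            linarith
        _ = 1 / 2 := by rw [hc]; field_simp
        _ < 1 := by norm_num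
  have hpos : 0 < volume U := hU.measure_pos volume hne
  have hdisj : Disjoint (cone s ∩ ball 0 1) U := by
    rw [Set.disjoint_left]
    rintro z ⟨hz, -⟩ ⟨⟨-, h2⟩, -⟩
    have hz' : |z.re| ≤ s * z.im := hz
    have h2' : s * z.im < z.re := h2
    have := le_abs_self z.re
    linarith
  have hsub : (cone s ∩ ball 0 1) ∪ U ⊆ cone t ∩ ball 0 1 := by
    rintro z (⟨hz, hb⟩ | ⟨⟨h1, -⟩, hb⟩)
    · refine ⟨?_, hb⟩
      have hz' : |z.re| ≤ s * z.im := hz
      have him : 0 ≤ z.im := by
        by_contra hneg
        push Not at hneg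
        have := abs_nonneg z.re
        nlinarith
      show |z.re| ≤ t * z.im
      nlinarith
    · have h1' : |z.re| < t * z.im := h1
      exact ⟨(show |z.re| ≤ t * z.im from le_of_lt h1'), hb⟩
  calc kap s < volume (cone s ∩ ball 0 1) + volume U := by
        exact ENNReal.lt_add_right (kap_lt_top s).ne hpos.ne'
    _ = volume ((cone s ∩ ball 0 1) ∪ U) := (measure_union hdisj hU.measurableSet).symm
    _ ≤ kap t := measure_mono hsub

theorem kap_pos {t : ℝ} (ht : 0 < t) : 0 < kap t :=
  lt_of_le_of_lt bot_le (kap_lt (s := t / 2) (t := t) (by positivity) (by linarith))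

end Pool.Agent.H108R4.Br
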