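import Pool.Agent.H108R4.Cone

set_option autoImplicit false

open Set MeasureTheory Metric
open scoped Pointwise

namespace Pool.Agent.H108R4.Br

/-- multiplication by a complex number of norm one -/
noncomputable def rot (v : ℂ) (hv : ‖v‖ = 1) : ℂ ≃ᵢ ℂ :=
  (rotation ⟨v, mem_sphere_zero_iff_norm.2 hv⟩).toIsometryEquiv

theorem rot_apply (v : ℂ) (hv : ‖v‖ = 1) (z : ℂ) : rot v hv z = v * z := by
  exact rotation_apply _ _

/-- open quadrant -/
def quad (σ τ : ℝ) : Set ℂ := {z | 0 < σ * z.re ∧ 0 < τ * z.im}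

/-- area of the quarter disk -/
noncomputable def qq : ENNReal := volume (quad 1 1 ∩ ball 0 1)

theorem kap_one_le : kap 1 ≤ qq := by
  have hv : ‖((1 - Complex.I) / ((√2 : ℝ) : ℂ))‖ = 1 := by
    rw [norm_div, Complex.norm_real, Real.norm_eq_abs, abs_of_pos (by positivity)]
    have : ‖(1 - Complex.I : ℂ)‖ = √2 := by
      rw [Complex.norm_eq_sqrt_sq_add_sq]
      norm_num
    rw [this, div_self (by positivity)]
  have h1 := vol_osector (t := 1) (r := 1) one_pos
  simp only [one_pow, ENNReal.ofReal_one, one_mul] at h1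
  rw [← h1, ← vol_image (rot _ hv)]
  apply measure_mono
  rintro _ ⟨z, ⟨hz, hb⟩, rfl⟩
  have hz' : |z.re| < 1 * z.im := hz
  rw [one_mul, abs_lt] at hz'
  have h2 : (0 : ℝ) < √2 := by positivity
  have e : rot _ hv z = ⟨(z.re + z.im) / √2, (z.im - z.re) / √2⟩ := by
    rw [rot_apply]
    have hne : ((√2 : ℝ) : ℂ) ≠ 0 := by exact_mod_cast h2.ne'
    rw [div_mul_eq_mul_div, div_eq_iff hne]
    apply Complex.ext
    · simp [Complex.mul_re]
      try field_simp
      try ring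
    · simp [Complex.mul_im]
      try field_simp
      try ring
  refine ⟨⟨?_, ?_⟩, ?_⟩
  · rw [e]
    show 0 < 1 * ((z.re + z.im) / √2)
    rw [one_mul]
    apply div_pos _ h2
    linarith
  · rw [e]
    show 0 < 1 * ((z.im - z.re) / √2)
    rw [one_mul]
    apply div_pos _ h2
    linarith
  · rw [mem_ball_zero_iff] at hb ⊢
    rw [rot_apply, norm_mul, hv, one_mul]
    exact hb

theorem kap_one_le_two : kap 1 ≤ 2 * kap (8 / 15) := by
  have hv : ‖(⟨15 / 17, 8 / 17⟩ : ℂ)‖ = 1 := by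
    rw [Complex.norm_eq_sqrt_sq_add_sq]
    norm_num
  have hv' : ‖(⟨15 / 17, -8 / 17⟩ : ℂ)‖ = 1 := by
    rw [Complex.norm_eq_sqrt_sq_add_sq]
    norm_num
  have hsub : cone 1 ∩ ball 0 1 ⊆
      rot _ hv '' (cone (8 / 15) ∩ ball 0 1) ∪ rot _ hv' '' (cone (8 / 15) ∩ ball 0 1) := by
    rintro z ⟨hz, hb⟩
    have hz' : |z.re| ≤ 1 * z.im := hz
    rw [one_mul, abs_le] at hz'
    rcases le_total z.re 0 with h | h
    · left
      refine ⟨⟨(15 * z.re + 8 * z.im) / 17, (15 * z.im - 8 * z.re) / 17⟩, ⟨?_, ?_⟩, ?_⟩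
      · show |(15 * z.re + 8 * z.im) / 17| ≤ 8 / 15 * ((15 * z.im - 8 * z.re) / 17)
        rw [abs_le]
        constructor <;> linarith
      · have : (⟨(15 * z.re + 8 * z.im) / 17, (15 * z.im - 8 * z.re) / 17⟩ : ℂ) =
            rot _ hv' z := by
          rw [rot_apply]
          apply Complex.ext
          · simp [Complex.mul_re]; ring
          · simp [Complex.mul_im]; ring
        rw [this, mem_ball_zero_iff, rot_apply, norm_mul, hv', one_mul]
        exact mem_ball_zero_iff.1 hb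
      · rw [rot_apply]
        apply Complex.ext
        · simp [Complex.mul_re]; ring
        · simp [Complex.mul_im]; ring
    · right
      refine ⟨⟨(15 * z.re - 8 * z.im) / 17, (15 * z.im + 8 * z.re) / 17⟩, ⟨?_, ?_⟩, ?_⟩
      · show |(15 * z.re - 8 * z.im) / 17| ≤ 8 / 15 * ((15 * z.im + 8 * z.re) / 17)
        rw [abs_le]
        constructor <;> linarith
      · have : (⟨(15 * z.re - 8 * z.im) / 17, (15 * z.im + 8 * z.re) / 17⟩ : ℂ) =
            rot _ hv z := by
          rw [rot_apply]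
          apply Complex.ext
          · simp [Complex.mul_re]; ring
          · simp [Complex.mul_im]; ring
        rw [this, mem_ball_zero_iff, rot_apply, norm_mul, hv, one_mul]
        exact mem_ball_zero_iff.1 hb
      · rw [rot_apply]
        apply Complex.ext
        · simp [Complex.mul_re]; ring
        · simp [Complex.mul_im]; ring
  calc kap 1 ≤ volume (rot _ hv '' (cone (8 / 15) ∩ ball 0 1) ∪
          rot _ hv' '' (cone (8 / 15) ∩ ball 0 1)) := measure_mono hsub
    _ ≤ _ := measure_union_le _ _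
    _ = 2 * kap (8 / 15) := by rw [vol_image, vol_image, two_mul]; rfl

/-- area of a quarter disk of radius `r` -/
theorem vol_quad {r : ℝ} (hr : 0 < r) {σ τ : ℝ} (hσ : σ = 1 ∨ σ = -1) (hτ : τ = 1 ∨ τ = -1) :
    volume (quad σ τ ∩ ball 0 r) = ENNReal.ofReal (r ^ 2) * qq := by
  have h1 : volume (quad 1 1 ∩ ball 0 r) = ENNReal.ofReal (r ^ 2) * qq := by
    have : quad 1 1 ∩ ball 0 r = r • (quad 1 1 ∩ ball 0 1) := by
      ext z
      rw [Set.mem_smul_set_iff_inv_smul_mem₀ hr.ne']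
      simp only [mem_inter_iff, mem_ball_zero_iff, quad, Set.mem_ofPred_eq, one_mul]
      have h1 : (r⁻¹ • z).re = r⁻¹ * z.re := by simp
      have h2 : (r⁻¹ • z).im = r⁻¹ * z.im := by simp
      have h3 : ‖r⁻¹ • z‖ = r⁻¹ * ‖z‖ := by
        rw [norm_smul, Real.norm_eq_abs, abs_of_pos (inv_pos.2 hr)]
      rw [h1, h2, h3, inv_mul_lt_iff₀ hr, mul_one]
      have hr' := inv_pos.2 hr
      constructor
      · rintro ⟨⟨a, b⟩, c⟩
        exact ⟨⟨mul_pos hr' a, mul_pos hr' b⟩, c⟩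
      · rintro ⟨⟨a, b⟩, c⟩
        exact ⟨⟨(mul_pos_iff_of_pos_left hr').1 a, (mul_pos_iff_of_pos_left hr').1 b⟩, c⟩
    rw [this, Measure.addHaar_smul, Complex.finrank_real_complex, qq, abs_of_pos (by positivity)]
  rw [← h1]
  -- reduce to the first quadrant by isometries
  have key : ∀ (Φ : ℂ ≃ᵢ ℂ), (∀ z, z ∈ quad 1 1 ∩ ball 0 r → Φ z ∈ quad σ τ ∩ ball 0 r) →
      (∀ z, z ∈ quad σ τ ∩ ball 0 r → Φ.symm z ∈ quad 1 1 ∩ ball 0 r) →
      volume (quad σ τ ∩ ball 0 r) = volume (quad 1 1 ∩ ball 0 r) := by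
    intro Φ a b
    rw [← vol_image Φ (quad 1 1 ∩ ball 0 r)]
    congr 1
    ext z
    constructor
    · intro hz
      exact ⟨_, b z hz, by simp⟩
    · rintro ⟨w, hw, rfl⟩
      exact a w hw
  have hc : ∀ z : ℂ, Complex.conjLIE.toIsometryEquiv z = (starRingEnd ℂ) z := fun z => rfl
  have hcs : ∀ z : ℂ, Complex.conjLIE.toIsometryEquiv.symm z = (starRingEnd ℂ) z := fun z => rfl
  have hn : ∀ z : ℂ, (LinearIsometryEquiv.neg ℝ (E := ℂ)).toIsometryEquiv z = -z := fun z => rfl
  have hns : ∀ z : ℂ, (LinearIsometryEquiv.neg ℝ (E := ℂ)).toIsometryEquiv.symm z = -z := fun z => rfl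
  have hr1 : ∀ z : ℂ, (Complex.conjLIE.toIsometryEquiv.trans
      (LinearIsometryEquiv.neg ℝ (E := ℂ)).toIsometryEquiv) z = -(starRingEnd ℂ) z := fun z => rfl
  have hr2 : ∀ z : ℂ, (Complex.conjLIE.toIsometryEquiv.trans
      (LinearIsometryEquiv.neg ℝ (E := ℂ)).toIsometryEquiv).symm z = (starRingEnd ℂ) (-z) := fun z => rfl
  rcases hσ with rfl | rfl <;> rcases hτ with rfl | rfl
  · rfl
  · apply key Complex.conjLIE.toIsometryEquiv
    · rintro z ⟨⟨a, b⟩, c⟩
      rw [hc]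
      refine ⟨⟨?_, ?_⟩, ?_⟩
      · simpa using a
      · simpa using b
      · simpa using c
    · rintro z ⟨⟨a, b⟩, c⟩
      rw [hcs]
      refine ⟨⟨?_, ?_⟩, ?_⟩
      · simpa using a
      · simpa using b
      · simpa using c
  · apply key (Complex.conjLIE.toIsometryEquiv.trans
      (LinearIsometryEquiv.neg ℝ (E := ℂ)).toIsometryEquiv)
    · rintro z ⟨⟨a, b⟩, c⟩
      rw [hr1]
      refine ⟨⟨?_, ?_⟩, ?_⟩
      · simpa using a
      · simpa using b
      · simpa using c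
    · rintro z ⟨⟨a, b⟩, c⟩
      rw [hr2]
      refine ⟨⟨?_, ?_⟩, ?_⟩
      · simpa using a
      · simpa using b
      · simpa using c
  · apply key (LinearIsometryEquiv.neg ℝ (E := ℂ)).toIsometryEquiv
    · rintro z ⟨⟨a, b⟩, c⟩
      rw [hn]
      refine ⟨⟨?_, ?_⟩, ?_⟩
      · simpa using a
      · simpa using b
      · simpa using c
    · rintro z ⟨⟨a, b⟩, c⟩
      rw [hns]
      refine ⟨⟨?_, ?_⟩, ?_⟩
      · simpa using a
      · simpa using b
      · simpa using c

end Pool.Agent.H108R4.Br
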