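import Pool.Agent.H108R4.Local

/-!
A positive imbalance of notches excludes tilings.
-/

set_option autoImplicit false

open Set MeasureTheory Metric

namespace Pool.Agent.H108R4.Br

/-- a tiling by copies of the prototiles -/
structure Tiling {ι : Type} (P : ι → Proto) (H : ℝ) (F : Set (Set ℂ)) where
  idx : Set ℂ → ι
  iso : Set ℂ → ℂ ≃ᵢ ℂ
  eq : ∀ T ∈ F, T = iso T '' (P (idx T)).shape H
  disj : F.PairwiseDisjoint interior
  cover : ⋃₀ F = univ

section tiling

variable {ι : Type} {P : ι → Proto} {H : ℝ} {F : Set (Set ℂ)} (hH : 0 < H) (hH8 : H ≤ 1 / 8)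
  (hP : ∀ i, (P i).Good) (τ : Tiling P H F)

include hH hH8 hP τ

theorem closed_tile {T : Set ℂ} (hT : T ∈ F) : IsClosed T := by
  rw [τ.eq T hT]
  exact (τ.iso T).toHomeomorph.isClosedMap _ (shape_closed hH hH8 (hP _))

theorem area_tile' {T : Set ℂ} (hT : T ∈ F) : volume box ≤ volume (interior T) := by
  rw [τ.eq T hT]
  exact area_tile hH hH8 (hP _) _

theorem card_le (A : Finset (Set ℂ)) (hA : ∀ T ∈ A, T ∈ F) {z : ℂ} {R : ℝ}
    (hR : ∀ T ∈ A, T ⊆ ball z R) : (A.card : ENNReal) * volume box ≤ volume (ball z R) := by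
  calc (A.card : ENNReal) * volume box = ∑ T ∈ A, volume box := by
        rw [Finset.sum_const, nsmul_eq_mul]
    _ ≤ ∑ T ∈ A, volume (interior T) := Finset.sum_le_sum fun T hT =>
        area_tile' hH hH8 hP τ (hA T hT)
    _ = volume (⋃ T ∈ A, interior T) := by
        symm
        apply measure_biUnion_finset
        · intro T hT T' hT' hne
          exact τ.disj (hA T hT) (hA T' hT') hne
        · intro T _
          exact isOpen_interior.measurableSet
    _ ≤ volume (ball z R) := by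
        apply measure_mono
        intro x hx
        simp only [mem_iUnion] at hx
        obtain ⟨T, hT, hx⟩ := hx
        exact hR T hT (interior_subset hx)

theorem finite_in (z : ℂ) (R : ℝ) : {T | T ∈ F ∧ T ⊆ ball z R}.Finite := by
  by_contra hinf
  have hb := box_pos
  have hfin : volume (ball z R) < ⊤ := measure_ball_lt_top
  obtain ⟨n, hn⟩ := ENNReal.exists_nat_mul_gt hb.ne' hfin.ne
  obtain ⟨A, hA1, hA2⟩ := Set.Infinite.exists_subset_card_eq hinf n
  have := card_le hH hH8 hP τ A (fun T hT => (hA1 hT).1) (z := z) (R := R) (fun T hT => (hA1 hT).2)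
  rw [hA2] at this
  exact absurd hn (not_lt.2 this)

theorem diam_tile {L : ℝ} (hL : ∀ i, ((P i).ℓ : ℝ) ≤ L) {T : Set ℂ} (hT : T ∈ F) {x y : ℂ}
    (hx : x ∈ T) (hy : y ∈ T) : dist x y ≤ 2 * (L + 2) := by
  rw [τ.eq T hT] at hx hy
  obtain ⟨a, ha, rfl⟩ := hx
  obtain ⟨b, hb, rfl⟩ := hy
  rw [(τ.iso T).dist_eq, dist_eq_norm]
  have h1 := shape_norm hH hH8 (hP _) ha
  have h2 := shape_norm hH hH8 (hP _) hb
  have h3 := hL (τ.idx T)
  linarith [norm_sub_le a b]

/-- near every point only the tiles through that point matter -/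
theorem local_fin {L : ℝ} (hL : ∀ i, ((P i).ℓ : ℝ) ≤ L) (z : ℂ) :
    ∃ ρ > 0, ∀ T ∈ F, ∀ x ∈ T, x ∈ ball z ρ → z ∈ T := by
  set N := {T | T ∈ F ∧ T ⊆ ball z (1 + 2 * (L + 2) + 1)} with hN
  have hfin := finite_in hH hH8 hP τ z (1 + 2 * (L + 2) + 1)
  have hfin' : {T | T ∈ N ∧ z ∉ T}.Finite := hfin.subset fun T hT => hT.1
  have hcl : IsClosed (⋃ T ∈ {T | T ∈ N ∧ z ∉ T}, T) :=
    hfin'.isClosed_biUnion fun T hT => closed_tile hH hH8 hP τ hT.1.1
  have hz : z ∈ (⋃ T ∈ {T | T ∈ N ∧ z ∉ T}, T)ᶜ := by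
    intro h
    simp only [mem_iUnion] at h
    obtain ⟨T, hT, h⟩ := h
    exact hT.2 h
  obtain ⟨ρ, hρ, hball⟩ := Metric.isOpen_iff.1 hcl.isOpen_compl z hz
  refine ⟨min ρ 1, lt_min hρ one_pos, fun T hT x hxT hx => ?_⟩
  by_contra hzT
  have hx1 : x ∈ ball z ρ := ball_subset_ball (min_le_left _ _) hx
  have hx2 : x ∈ ball z 1 := ball_subset_ball (min_le_right _ _) hx
  apply hball hx1
  simp only [mem_iUnion]
  refine ⟨T, ⟨⟨hT, ?_⟩, hzT⟩, hxT⟩
  intro y hy
  have := diam_tile hH hH8 hP τ hL hT hy hxT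
  rw [mem_ball] at hx2 ⊢
  linarith [dist_triangle y x z]

theorem kap_le_of {e : ℤ} : kap (tt e) ≤ kap (5 / 6) := by
  rcases (tt_le e).lt_or_eq with h | h
  · exact (kap_lt (tt_pos e) h).le
  · rw [h]

theorem kap_ge_of {e : ℤ} (he : e ≠ 0) : kap (8 / 15) ≤ kap (tt e) := by
  have h : 8 / 15 ≤ tt e := by
    unfold tt
    have : (1 : ℝ) ≤ ((min |e| 7 : ℤ) : ℝ) := by
      exact_mod_cast le_min (Int.one_le_abs he) (by norm_num)
    linarith
  rcases h.lt_or_eq with h | h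
  · exact (kap_lt (by norm_num) h).le
  · rw [h]

theorem kap_inj {e e' : ℤ} (he : |e| ≤ 7) (he' : |e'| ≤ 7) (h : kap (tt e) = kap (tt e')) :
    |e| = |e'| := by
  have ht : tt e = tt e' := by
    rcases lt_trichotomy (tt e) (tt e') with h1 | h1 | h1
    · exact absurd h (kap_lt (tt_pos e) h1).ne
    · exact h1
    · exact absurd h (kap_lt (tt_pos e') h1).ne'
  unfold tt at ht
  rw [min_eq_left he, min_eq_left he'] at ht
  have : ((|e| : ℤ) : ℝ) = ((|e'| : ℤ) : ℝ) := by linarith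
  exact_mod_cast this

/-- each notch is filled by exactly one tooth, of the same type -/
theorem fill {L : ℝ} (hL : ∀ i, ((P i).ℓ : ℝ) ≤ L) {T : Set ℂ} (hT : T ∈ F) {s : ℕ × Bool}
    (hs : s ∈ (P (τ.idx T)).sites) (hc : 0 < (P (τ.idx T)).c s) :
    (∀ T' ∈ F, T' ≠ T → τ.iso T ((P (τ.idx T)).pos H s) ∈ T' →
      ∃ s' ∈ (P (τ.idx T')).sites, (P (τ.idx T')).c s' < 0 ∧
        τ.iso T ((P (τ.idx T)).pos H s) = τ.iso T' ((P (τ.idx T')).pos H s')) ∧
    ∃ T' ∈ F, ∃ s' ∈ (P (τ.idx T')).sites, (P (τ.idx T')).c s' < 0 ∧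
      τ.iso T ((P (τ.idx T)).pos H s) = τ.iso T' ((P (τ.idx T')).pos H s') ∧
      |(P (τ.idx T')).c s'| = |(P (τ.idx T)).c s| := by
  set p := P (τ.idx T) with hp
  set z := τ.iso T (p.pos H s) with hz
  have hgood : p.Good := hP _
  have hnotch : ∀ r, 0 < r → r ≤ H → volume ((interior T)ᶜ ∩ ball z r) ≤
      ENNReal.ofReal (r ^ 2) * kap (tt (p.c s)) ∧ ∃ G : Set ℂ, G ⊆ ball z r ∧ Disjoint G T ∧
      ENNReal.ofReal (r ^ 2) * kap (tt (p.c s)) ≤ volume G := by
    intro r hr hrH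
    have := dens_notch hH hH8 hgood (τ.iso T) hs hc hr hrH
    rw [← τ.eq T hT] at this
    exact this
  have hk1 : kap (tt (p.c s)) < kap 1 := lt_of_le_of_lt (kap_le_of hH hH8 hP τ)
    (kap_lt (by norm_num) (by norm_num))
  have hsub : ∀ T' ∈ F, T' ≠ T → ∀ r, interior T' ∩ ball z r ⊆ (interior T)ᶜ ∩ ball z r := by
    intro T' hT' hne r
    apply inter_subset_inter_left
    intro x hx hx'
    exact (Set.disjoint_left.1 (τ.disj hT' hT hne) hx) hx'
  -- part (a)
  have ha : ∀ T' ∈ F, T' ≠ T → z ∈ T' →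
      ∃ s' ∈ (P (τ.idx T')).sites, (P (τ.idx T')).c s' < 0 ∧
        z = τ.iso T' ((P (τ.idx T')).pos H s') := by
    intro T' hT' hne hzT'
    by_contra hcon
    push Not at hcon
    rw [τ.eq T' hT'] at hzT'
    obtain ⟨v, hv, hvz⟩ := hzT'
    obtain ⟨r0, hr0, hd⟩ := dens_quad hH hH8 (hP (τ.idx T')) (τ.iso T') hv (by
      intro s' hs' hc' hvs
      apply hcon s' hs' hc'
      rw [← hvz, hvs])
    have h1 := hd (min r0 H) (lt_min hr0 hH) (min_le_left _ _)
    rw [← τ.eq T' hT', hvz] at h1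
    have h2 := (hnotch (min r0 H) (lt_min hr0 hH) (min_le_right _ _)).1
    have h3 := cancel (lt_min hr0 hH) ((h1.trans (measure_mono (hsub T' hT' hne _))).trans h2)
    exact absurd (kap_one_le.trans h3) (not_le.2 hk1)
  refine ⟨ha, ?_⟩
  -- density of teeth
  have htooth : ∀ T' ∈ F, ∀ s' ∈ (P (τ.idx T')).sites, (P (τ.idx T')).c s' < 0 →
      z = τ.iso T' ((P (τ.idx T')).pos H s') → ∀ r, 0 < r → r ≤ H →
      ENNReal.ofReal (r ^ 2) * kap (tt ((P (τ.idx T')).c s')) ≤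
        volume (interior T' ∩ ball z r) ∧
      volume (T' ∩ ball z r) ≤ ENNReal.ofReal (r ^ 2) * kap (tt ((P (τ.idx T')).c s')) := by
    intro T' hT' s' hs' hc' hzs r hr hrH
    have := dens_tooth hH hH8 (hP (τ.idx T')) (τ.iso T') hs' hc' hr hrH
    rw [← τ.eq T' hT', ← hzs] at this
    exact this
  -- uniqueness
  have huniq : ∀ T' ∈ F, ∀ T'' ∈ F, T' ≠ T → T'' ≠ T → z ∈ T' → z ∈ T'' → T' = T'' := by
    intro T' hT' T'' hT'' hne' hne'' hz' hz''
    by_contra hne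
    obtain ⟨s', hs', hc', hzs'⟩ := ha T' hT' hne' hz'
    obtain ⟨s'', hs'', hc'', hzs''⟩ := ha T'' hT'' hne'' hz''
    have h1 := (htooth T' hT' s' hs' hc' hzs' H hH le_rfl).1
    have h2 := (htooth T'' hT'' s'' hs'' hc'' hzs'' H hH le_rfl).1
    have h3 := (hnotch H hH le_rfl).1
    have hdisj : Disjoint (interior T' ∩ ball z H) (interior T'' ∩ ball z H) :=
      (τ.disj hT' hT'' hne).mono inter_subset_left inter_subset_left
    have h4 : volume (interior T' ∩ ball z H) + volume (interior T'' ∩ ball z H) ≤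
        volume ((interior T)ᶜ ∩ ball z H) := by
      rw [← measure_union hdisj (isOpen_interior.inter isOpen_ball).measurableSet]
      exact measure_mono (union_subset (hsub T' hT' hne' H) (hsub T'' hT'' hne'' H))
    have h5 : ENNReal.ofReal (H ^ 2) * (kap (8 / 15) + kap (8 / 15)) ≤
        ENNReal.ofReal (H ^ 2) * kap (tt (p.c s)) := by
      refine le_trans ?_ h3
      refine le_trans ?_ h4
      refine le_trans ?_ (add_le_add h1 h2)
      rw [mul_add]
      exact add_le_add (mul_le_mul_right (kap_ge_of hH hH8 hP τ hc'.ne) _)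
        (mul_le_mul_right (kap_ge_of hH hH8 hP τ hc''.ne) _)
    have h6 := cancel hH h5
    rw [← two_mul] at h6
    exact absurd (kap_one_le_two.trans h6) (not_le.2 hk1)
  -- existence
  obtain ⟨ρ, hρ, hloc⟩ := local_fin hH hH8 hP τ hL z
  have hm : 0 < min ρ H := lt_min hρ hH
  obtain ⟨hn1, G, hG1, hG2, hG3⟩ := hnotch (min ρ H) hm (min_le_right _ _)
  have hGpos : 0 < volume G := by
    refine lt_of_lt_of_le ?_ hG3
    apply ENNReal.mul_pos
    · rw [Ne, ENNReal.ofReal_eq_zero]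
      push Not
      positivity
    · exact (kap_pos (tt_pos _)).ne'
  obtain ⟨g, hg⟩ : G.Nonempty := by
    by_contra hemp
    rw [Set.not_nonempty_iff_eq_empty] at hemp
    rw [hemp, measure_empty] at hGpos
    exact lt_irrefl _ hGpos
  have hcov : ∀ x ∈ G, ∃ T' ∈ F, T' ≠ T ∧ z ∈ T' ∧ x ∈ T' := by
    intro x hx
    have : x ∈ ⋃₀ F := by rw [τ.cover]; trivial
    obtain ⟨T', hT', hxT'⟩ := this
    refine ⟨T', hT', ?_, hloc T' hT' x hxT' (ball_subset_ball (min_le_left _ _) (hG1 hx)), hxT'⟩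
    rintro rfl
    exact Set.disjoint_left.1 hG2 hx hxT'
  obtain ⟨T', hT', hne', hz', hg'⟩ := hcov g hg
  obtain ⟨s', hs', hc', hzs'⟩ := ha T' hT' hne' hz'
  refine ⟨T', hT', s', hs', hc', hzs', ?_⟩
  have hGT' : G ⊆ T' ∩ ball z (min ρ H) := by
    intro x hx
    obtain ⟨T'', hT'', hne'', hz'', hx''⟩ := hcov x hx
    rw [huniq T' hT' T'' hT'' hne' hne'' hz' hz'']
    exact ⟨hx'', hG1 hx⟩
  have ht := htooth T' hT' s' hs' hc' hzs' (min ρ H) hm (min_le_right _ _)
  have h1 := cancel hm ((ht.1.trans (measure_mono (hsub T' hT' hne' _))).trans hn1)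
  have h2 := cancel hm ((hG3.trans (measure_mono hGT')).trans ht.2)
  exact kap_inj hH hH8 hP τ (c_le hH hH8 (hP _)) (c_le hH hH8 (hP _)) (le_antisymm h1 h2)

end tiling

end Pool.Agent.H108R4.Br
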