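import Pool.Agent.H108R4.Count

/-!
Growth of the number of tiles: no tiling.
-/

set_option autoImplicit false

open Set MeasureTheory Metric

namespace Pool.Agent.H108R4.Br

/-- numbers growing geometrically cannot be bounded by a square -/
theorem no_growth {a : ℕ → ℝ} {r C : ℝ} (hr : 1 < r) (h0 : 1 ≤ a 0)
    (h1 : ∀ n, r * a n ≤ a (n + 1)) (h2 : ∀ n : ℕ, a n ≤ C * ((n : ℝ) + 1) ^ 2) : False := by
  have hge : ∀ n, r ^ n ≤ a n := by
    intro n
    induction n with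
    | zero => simpa using h0
    | succ n ih =>
      calc r ^ (n + 1) = r * r ^ n := by ring
        _ ≤ r * a n := by gcongr
        _ ≤ _ := h1 n
  have hC : 0 < C := by
    have := h2 0
    simp at this
    linarith
  have hlim := tendsto_pow_const_div_const_pow_of_one_lt 2 hr
  have hev : ∀ᶠ n : ℕ in Filter.atTop, (n : ℝ) ^ 2 / r ^ n < 1 / (C * r) := by
    apply hlim.eventually_lt_const
    positivity
  obtain ⟨n, hn, hn1⟩ := (hev.and (Filter.eventually_ge_atTop 1)).exists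
  obtain ⟨m, rfl⟩ : ∃ m, n = m + 1 := ⟨n - 1, by omega⟩
  have h3 := (hge m).trans (h2 m)
  rw [div_lt_div_iff₀ (by positivity) (by positivity)] at hn
  push_cast at hn
  have h4 : r ^ (m + 1) ≤ C * ((m : ℝ) + 1) ^ 2 * r := by
    rw [pow_succ]
    gcongr
  nlinarith

/-- total weight of the notches -/
def Proto.notW (p : Proto) (W : ℕ → ℕ) : ℕ := ∑ s ∈ p.sites.filter (fun s => 0 < p.c s), W (p.c s).natAbs
/-- total weight of the teeth -/
def Proto.tooW (p : Proto) (W : ℕ → ℕ) : ℕ := ∑ s ∈ p.sites.filter (fun s => p.c s < 0), W (p.c s).natAbs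

theorem notW_eq {p : Proto} {W : ℕ → ℕ}
    (h : ∑ s ∈ p.sites, (p.c s).sign * (W (p.c s).natAbs : ℤ) = 1) :
    p.notW W = p.tooW W + 1 := by
  have h1 : ∀ s, (p.c s).sign * (W (p.c s).natAbs : ℤ) =
      (if 0 < p.c s then (W (p.c s).natAbs : ℤ) else 0) -
      (if p.c s < 0 then (W (p.c s).natAbs : ℤ) else 0) := by
    intro s
    rcases lt_trichotomy (p.c s) 0 with hs | hs | hs
    · rw [Int.sign_eq_neg_one_of_neg hs, if_neg (by omega), if_pos hs]; ring
    · rw [hs]; simp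
    · rw [Int.sign_eq_one_of_pos hs, if_pos hs, if_neg (by omega)]; ring
  simp_rw [h1] at h
  rw [Finset.sum_sub_distrib, ← Finset.sum_filter, ← Finset.sum_filter] at h
  unfold Proto.notW Proto.tooW
  zify
  linarith

section tiling

variable {ι : Type} {P : ι → Proto} {H : ℝ} {F : Set (Set ℂ)} (hH : 0 < H) (hH8 : H ≤ 1 / 8)
  (hP : ∀ i, (P i).Good) (τ : Tiling P H F) {L : ℝ} (hL : ∀ i, ((P i).ℓ : ℝ) ≤ L)

include hH hH8 hP τ hL

/-- notches are injected into teeth -/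
theorem notch_le_tooth (W : ℕ → ℕ) (A B : Finset (Set ℂ)) (hA : ∀ T ∈ A, T ∈ F)
    (hB : ∀ T ∈ A, ∀ T' ∈ F, (T ∩ T').Nonempty → T' ∈ B) :
    ∑ T ∈ A, (P (τ.idx T)).notW W ≤ ∑ T ∈ B, (P (τ.idx T)).tooW W := by
  classical
  have hex : ∀ x : (Σ _ : Set ℂ, ℕ × Bool), (x.1 ∈ F ∧ x.2 ∈ (P (τ.idx x.1)).sites ∧
      0 < (P (τ.idx x.1)).c x.2) → ∃ y : (Σ _ : Set ℂ, ℕ × Bool), y.1 ∈ F ∧
      y.2 ∈ (P (τ.idx y.1)).sites ∧ (P (τ.idx y.1)).c y.2 < 0 ∧
      τ.iso x.1 ((P (τ.idx x.1)).pos H x.2) = τ.iso y.1 ((P (τ.idx y.1)).pos H y.2) ∧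
      |(P (τ.idx y.1)).c y.2| = |(P (τ.idx x.1)).c x.2| := by
    rintro ⟨T, s⟩ ⟨h1, h2, h3⟩
    obtain ⟨T', hT', s', hs', hc', hz, hcc⟩ := (fill hH hH8 hP τ hL h1 h2 h3).2
    exact ⟨⟨T', s'⟩, hT', hs', hc', hz, hcc⟩
  choose! m hm using hex
  let NN : Finset (Σ _ : Set ℂ, ℕ × Bool) :=
    A.sigma (fun T => (P (τ.idx T)).sites.filter (fun s => 0 < (P (τ.idx T)).c s))
  let TT : Finset (Σ _ : Set ℂ, ℕ × Bool) :=
    B.sigma (fun T => (P (τ.idx T)).sites.filter (fun s => (P (τ.idx T)).c s < 0))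
  have hNN : ∀ x ∈ NN, x.1 ∈ F ∧ x.2 ∈ (P (τ.idx x.1)).sites ∧ 0 < (P (τ.idx x.1)).c x.2 := by
    intro x hx
    rw [Finset.mem_sigma, Finset.mem_filter] at hx
    exact ⟨hA _ hx.1, hx.2.1, hx.2.2⟩
  have e1 : ∑ T ∈ A, (P (τ.idx T)).notW W =
      ∑ x ∈ NN, W ((P (τ.idx x.1)).c x.2).natAbs := by
    rw [Finset.sum_sigma]
    rfl
  have e2 : ∑ T ∈ B, (P (τ.idx T)).tooW W =
      ∑ x ∈ TT, W ((P (τ.idx x.1)).c x.2).natAbs := by
    rw [Finset.sum_sigma]
    rfl
  have hinj : Set.InjOn m (NN : Set (Σ _ : Set ℂ, ℕ × Bool)) := by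
    intro x hx y hy hxy
    have hx' := hNN x hx
    have hy' := hNN y hy
    obtain ⟨a1, a2, a3, a4, a5⟩ := hm x hx'
    obtain ⟨b1, b2, b3, b4, b5⟩ := hm y hy'
    have hz : τ.iso x.1 ((P (τ.idx x.1)).pos H x.2) = τ.iso y.1 ((P (τ.idx y.1)).pos H y.2) := by
      rw [a4, b4, hxy]
    obtain ⟨T, s⟩ := x
    obtain ⟨T', s'⟩ := y
    simp only at hz hx' hy'
    by_cases hTT : T = T'
    · subst hTT
      have h1 := (τ.iso T).injective hz
      have h2 := pos_inj hH hH8 hx'.2.2.ne' hy'.2.2.ne' h1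
      rw [h2]
    · exfalso
      have hmem : τ.iso T ((P (τ.idx T)).pos H s) ∈ T' := by
        rw [hz, τ.eq T' hy'.1, ← τ.eq T' hy'.1]
        have h := notch_mem hH hH8 (hP _) hy'.2.1 hy'.2.2
        have h' : τ.iso T' ((P (τ.idx T')).pos H s') ∈ τ.iso T' '' (P (τ.idx T')).shape H :=
          ⟨_, h, rfl⟩
        rwa [← τ.eq T' hy'.1] at h'
      obtain ⟨s'', hs'', hc'', hz''⟩ := (fill hH hH8 hP τ hL hx'.1 hx'.2.1 hx'.2.2).1 T' hy'.1
        (Ne.symm hTT) hmem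
      rw [hz] at hz''
      have h1 := (τ.iso T').injective hz''
      have h2 := pos_inj hH hH8 hy'.2.2.ne' hc''.ne h1
      rw [← h2] at hc''
      have := hy'.2.2
      omega
  have himg : NN.image m ⊆ TT := by
    intro y hy
    rw [Finset.mem_image] at hy
    obtain ⟨x, hx, rfl⟩ := hy
    have hx' := hNN x hx
    obtain ⟨a1, a2, a3, a4, a5⟩ := hm x hx'
    rw [Finset.mem_sigma] at hx
    rw [Finset.mem_sigma, Finset.mem_filter]
    refine ⟨hB x.1 hx.1 _ a1 ⟨τ.iso x.1 ((P (τ.idx x.1)).pos H x.2), ?_, ?_⟩, a2, a3⟩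
    · have h := notch_mem hH hH8 (hP _) hx'.2.1 hx'.2.2
      have h' : τ.iso x.1 ((P (τ.idx x.1)).pos H x.2) ∈ τ.iso x.1 '' (P (τ.idx x.1)).shape H :=
        ⟨_, h, rfl⟩
      rwa [← τ.eq x.1 hx'.1] at h'
    · rw [a4]
      have h := tooth_mem hH hH8 (hP _) a2 a3
      have h' : τ.iso (m x).1 ((P (τ.idx (m x).1)).pos H (m x).2) ∈
          τ.iso (m x).1 '' (P (τ.idx (m x).1)).shape H := ⟨_, h, rfl⟩
      rwa [← τ.eq (m x).1 a1] at h'
  rw [e1, e2]
  calc ∑ x ∈ NN, W ((P (τ.idx x.1)).c x.2).natAbs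
      = ∑ x ∈ NN, W ((P (τ.idx (m x).1)).c (m x).2).natAbs := by
        apply Finset.sum_congr rfl
        intro x hx
        have := (hm x (hNN x hx)).2.2.2.2
        rw [← Int.natAbs_abs ((P (τ.idx x.1)).c x.2), ← this, Int.natAbs_abs]
    _ = ∑ y ∈ NN.image m, W ((P (τ.idx y.1)).c y.2).natAbs := by
        rw [Finset.sum_image hinj]
    _ ≤ ∑ y ∈ TT, W ((P (τ.idx y.1)).c y.2).natAbs :=
        Finset.sum_le_sum_of_subset himg

theorem growth_step {W : ℕ → ℕ} {K : ℕ} (hK : ∀ i, (P i).tooW W ≤ K)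
    (hI : ∀ i, (P i).notW W = (P i).tooW W + 1) (A B : Finset (Set ℂ)) (hA : ∀ T ∈ A, T ∈ F)
    (hB : ∀ T ∈ A, ∀ T' ∈ F, (T ∩ T').Nonempty → T' ∈ B) (hAB : A ⊆ B) :
    (K + 1) * A.card ≤ K * B.card := by
  classical
  have h := notch_le_tooth hH hH8 hP τ hL W A B hA hB
  simp_rw [hI] at h
  rw [Finset.sum_add_distrib, Finset.sum_const, smul_eq_mul, mul_one,
    ← Finset.sum_sdiff hAB] at h
  have h2 : ∑ T ∈ B \ A, (P (τ.idx T)).tooW W ≤ K * (B \ A).card := by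
    calc ∑ T ∈ B \ A, (P (τ.idx T)).tooW W ≤ ∑ T ∈ B \ A, K := Finset.sum_le_sum fun T _ => hK _
      _ = K * (B \ A).card := by rw [Finset.sum_const, smul_eq_mul, mul_comm]
  have h3 : (B \ A).card + A.card = B.card := Finset.card_sdiff_add_card_eq_card hAB
  have h4 : K * B.card = K * (B \ A).card + K * A.card := by rw [← h3]; ring
  rw [h4, add_mul, one_mul]
  omega

/-- there is no tiling -/
theorem tiling_false {W : ℕ → ℕ} {K : ℕ} (hK : ∀ i, (P i).tooW W ≤ K)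
    (hI : ∀ i, (P i).notW W = (P i).tooW W + 1) : False := by
  classical
  obtain ⟨T0, hT0, h0⟩ : (0 : ℂ) ∈ ⋃₀ F := by rw [τ.cover]; trivial
  have hL0 : 0 ≤ L := le_trans (by positivity) (hL (τ.idx T0))
  set D := 2 * (L + 2) + 1 with hD
  have hD0 : 0 < D := by linarith
  have hdist : ∀ T ∈ F, ∀ x ∈ T, ∀ y ∈ T, dist x y < D := by
    intro T hT x hx y hy
    have := diam_tile hH hH8 hP τ hL hT hx hy
    linarith
  let near : ℕ → Finset (Set ℂ) := fun n => (finite_in hH hH8 hP τ 0 (((n : ℝ) + 1) * D)).toFinset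
  have hnear : ∀ n T, T ∈ near n ↔ T ∈ F ∧ T ⊆ ball 0 (((n : ℝ) + 1) * D) := by
    intro n T
    simp [near]
  have hstep : ∀ n, (K + 1) * (near n).card ≤ K * (near (n + 1)).card := by
    intro n
    apply growth_step hH hH8 hP τ hL hK hI
    · intro T hT
      exact ((hnear n T).1 hT).1
    · rintro T hT T' hT' ⟨x, hx, hx'⟩
      rw [hnear]
      refine ⟨hT', fun y hy => ?_⟩
      have h1 := ((hnear n T).1 hT).2 hx
      have h2 := hdist T' hT' y hy x hx'
      rw [mem_ball] at h1 ⊢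
      push_cast
      linarith [dist_triangle y x 0]
    · intro T hT
      rw [hnear] at hT ⊢
      refine ⟨hT.1, hT.2.trans (ball_subset_ball ?_)⟩
      push_cast
      nlinarith
  have hone : 1 ≤ (near 0).card := by
    apply Finset.card_pos.2
    refine ⟨T0, ?_⟩
    rw [hnear]
    refine ⟨hT0, fun y hy => ?_⟩
    rw [mem_ball]
    have := hdist T0 hT0 y hy 0 h0
    simpa using this
  have hK1 : 1 ≤ K := by
    by_contra hK0
    have hK0' : K = 0 := by omega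
    have := hstep 0
    rw [hK0'] at this
    simp at this
    rw [this] at hone
    simp at hone
  have hK1' : (1 : ℝ) ≤ K := by exact_mod_cast hK1
  set V : ℝ := (volume box).toReal with hV
  have hboxfin : volume box ≠ ⊤ := by
    have hsub : box ⊆ ball 0 2 := by
      rintro z ⟨⟨h1, h2⟩, h3, h4⟩
      rw [mem_ball_zero_iff]
      have h5 := Complex.norm_le_abs_re_add_abs_im z
      rw [abs_of_pos h1, abs_of_pos (by linarith)] at h5
      linarith
    exact (lt_of_le_of_lt (measure_mono hsub) measure_ball_lt_top).ne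
  have hVpos : 0 < V := ENNReal.toReal_pos box_pos.ne' hboxfin
  apply no_growth (a := fun n => ((near n).card : ℝ)) (r := ((K : ℝ) + 1) / K)
    (C := D ^ 2 * Real.pi / V)
  · rw [lt_div_iff₀ (by linarith)]
    linarith
  · exact_mod_cast hone
  · intro n
    have := hstep n
    have h' : ((K : ℝ) + 1) * ((near n).card : ℝ) ≤ K * ((near (n + 1)).card : ℝ) := by
      exact_mod_cast this
    rw [div_mul_eq_mul_div, div_le_iff₀ (by linarith)]
    linarith
  · intro n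
    have h1 := card_le hH hH8 hP τ (near n) (fun T hT => ((hnear n T).1 hT).1)
      (z := 0) (R := ((n : ℝ) + 1) * D) (fun T hT => ((hnear n T).1 hT).2)
    rw [Complex.volume_ball] at h1
    have h2 := ENNReal.toReal_mono (by finiteness) h1
    rw [ENNReal.toReal_mul, ENNReal.toReal_mul, ENNReal.toReal_pow,
      ENNReal.toReal_ofReal (by positivity)] at h2
    simp only [ENNReal.toReal_natCast, ENNReal.coe_toReal, NNReal.coe_real_pi] at h2
    show ((near n).card : ℝ) ≤ D ^ 2 * Real.pi / V * ((n : ℝ) + 1) ^ 2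
    rw [div_mul_eq_mul_div, le_div_iff₀ hVpos]
    calc ((near n).card : ℝ) * V ≤ (((n : ℝ) + 1) * D) ^ 2 * Real.pi := h2
      _ = _ := by ring

end tiling

end Pool.Agent.H108R4.Br
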