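import Pool.Agent.H108R4.Shape

/-!
Local densities of tiles, and the filling of notches.
-/

set_option autoImplicit false

open Set MeasureTheory Metric

namespace Pool.Agent.H108R4.Br

theorem cancel {r : ℝ} (hr : 0 < r) {a b : ENNReal}
    (h : ENNReal.ofReal (r ^ 2) * a ≤ ENNReal.ofReal (r ^ 2) * b) : a ≤ b := by
  have h1 : ENNReal.ofReal (r ^ 2) ≠ 0 := by
    rw [Ne, ENNReal.ofReal_eq_zero]
    push Not
    positivity
  exact (ENNReal.mul_le_mul_iff_right h1 ENNReal.ofReal_ne_top).1 h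

theorem interior_image (Θ : ℂ ≃ᵢ ℂ) (A : Set ℂ) : interior (Θ '' A) = Θ '' interior A :=
  (Θ.toHomeomorph.image_interior A).symm

/-- lower bound for the inner area -/
theorem area_ge {Θ : ℂ ≃ᵢ ℂ} {T G : Set ℂ} {r : ℝ} (hG : IsOpen G) (hGr : G ⊆ ball 0 r)
    (h : ∀ w ∈ G, Θ w ∈ T) : volume G ≤ volume (interior T ∩ ball (Θ 0) r) := by
  rw [← vol_image Θ G]
  apply measure_mono
  rw [subset_inter_iff]
  constructor
  · apply interior_maximal
    · rintro _ ⟨w, hw, rfl⟩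
      exact h w hw
    · exact Θ.toHomeomorph.isOpenMap G hG
  · rw [← Θ.image_ball]
    exact image_mono hGr

/-- upper bound for areas -/
theorem area_le {Θ : ℂ ≃ᵢ ℂ} {T K : Set ℂ} {r : ℝ}
    (h : ∀ w ∈ ball (0 : ℂ) r, Θ w ∈ T → w ∈ K) :
    volume (T ∩ ball (Θ 0) r) ≤ volume (K ∩ ball 0 r) := by
  rw [← vol_image Θ (K ∩ ball 0 r)]
  apply measure_mono
  rintro z ⟨hz, hzr⟩
  rw [← Θ.image_ball] at hzr
  obtain ⟨w, hw, rfl⟩ := hzr
  exact ⟨w, ⟨h w hw hz, hw⟩, rfl⟩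

/-- cones pointing up or down -/
def tcone (τ t : ℝ) : Set ℂ := {w | |w.re| ≤ t * (τ * w.im)}
def tocone (τ t : ℝ) : Set ℂ := {w | |w.re| < t * (τ * w.im)}

theorem isOpen_tocone (τ t : ℝ) : IsOpen (tocone τ t) :=
  isOpen_lt (f := fun w : ℂ => |w.re|) (by fun_prop) (by fun_prop)

theorem conj_image {A B : Set ℂ} (h : ∀ z, z ∈ A ↔ (starRingEnd ℂ) z ∈ B) :
    volume A = volume B := by
  have hc : ∀ z : ℂ, Complex.conjLIE.toIsometryEquiv z = (starRingEnd ℂ) z := fun z => rfl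
  rw [← vol_image Complex.conjLIE.toIsometryEquiv A]
  congr 1
  ext z
  constructor
  · rintro ⟨w, hw, rfl⟩
    rw [hc]
    exact (h w).1 hw
  · intro hz
    refine ⟨(starRingEnd ℂ) z, (h _).2 (by simpa using hz), ?_⟩
    rw [hc]
    simp

theorem vol_tcone {τ t r : ℝ} (hτ : τ = 1 ∨ τ = -1) (hr : 0 < r) :
    volume (tcone τ t ∩ ball 0 r) = ENNReal.ofReal (r ^ 2) * kap t := by
  rw [← vol_sector hr]
  rcases hτ with rfl | rfl
  · congr 1
    ext z
    simp [tcone, cone]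
  · apply conj_image
    intro z
    simp [tcone, cone]

theorem vol_tocone {τ t r : ℝ} (hτ : τ = 1 ∨ τ = -1) (hr : 0 < r) :
    volume (tocone τ t ∩ ball 0 r) = ENNReal.ofReal (r ^ 2) * kap t := by
  rw [← vol_osector hr]
  rcases hτ with rfl | rfl
  · congr 1
    ext z
    simp [tocone, ocone]
  · apply conj_image
    intro z
    simp [tocone, ocone]

theorem tau_pm (s : ℕ × Bool) : tau s = 1 ∨ tau s = -1 := by
  unfold tau
  split_ifs
  · exact Or.inr rfl
  · exact Or.inl rfl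

theorem tau_npm (s : ℕ × Bool) : -tau s = 1 ∨ -tau s = -1 := by
  rcases tau_pm s with h | h <;> rw [h] <;> norm_num

/-- the isometry recentred at `v` -/
noncomputable def recen (Φ : ℂ ≃ᵢ ℂ) (v : ℂ) : ℂ ≃ᵢ ℂ := (IsometryEquiv.addLeft v).trans Φ

theorem recen_apply (Φ : ℂ ≃ᵢ ℂ) (v w : ℂ) : recen Φ v w = Φ (v + w) := rfl
theorem recen_zero (Φ : ℂ ≃ᵢ ℂ) (v : ℂ) : recen Φ v 0 = Φ v := by rw [recen_apply, add_zero]

theorem mem_img {Φ : ℂ ≃ᵢ ℂ} {A : Set ℂ} {z : ℂ} : Φ z ∈ Φ '' A ↔ z ∈ A :=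
  Φ.injective.mem_set_image

section loc

variable {H : ℝ} (hH : 0 < H) (hH8 : H ≤ 1 / 8) {p : Proto} (hp : p.Good) (Φ : ℂ ≃ᵢ ℂ)

include hH hH8 hp

theorem tooth_mem {s : ℕ × Bool} (hs : s ∈ p.sites) (hc : p.c s < 0) : p.pos H s ∈ p.shape H := by
  have := (local_tooth hH hH8 hp hs hc 0 (mem_ball_self hH)).2 (by simp)
  rwa [add_zero] at this

theorem notch_mem {s : ℕ × Bool} (hs : s ∈ p.sites) (hc : 0 < p.c s) : p.pos H s ∈ p.shape H := by
  have := (local_notch hH hH8 hp hs hc 0 (mem_ball_self hH)).2 (by simp)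
  rwa [add_zero] at this

/-- points that are not tips of teeth have a quadrant inside the tile -/
theorem dens_quad {v : ℂ} (hv : v ∈ p.shape H) (hnt : ∀ s ∈ p.sites, p.c s < 0 → v ≠ p.pos H s) :
    ∃ r0 > 0, ∀ r, 0 < r → r ≤ r0 →
      ENNReal.ofReal (r ^ 2) * qq ≤ volume (interior (Φ '' p.shape H) ∩ ball (Φ v) r) := by
  obtain ⟨σ, τ, hσ, hτ, r0, hr0, h⟩ := local_quad hH hH8 hp hv hnt
  refine ⟨r0, hr0, fun r hr hrr => ?_⟩
  rw [← vol_quad hr hσ hτ, ← recen_zero]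
  apply area_ge
  · apply IsOpen.inter _ isOpen_ball
    unfold quad
    exact (isOpen_lt (f := fun _ : ℂ => (0 : ℝ)) (by fun_prop) (by fun_prop)).inter
      (isOpen_lt (f := fun _ : ℂ => (0 : ℝ)) (by fun_prop) (by fun_prop))
  · exact inter_subset_right
  · rintro w ⟨hw1, hw2⟩
    rw [recen_apply, mem_img]
    exact h w ⟨hw1, ball_subset_ball hrr hw2⟩

/-- density at the tip of a tooth -/
theorem dens_tooth {s : ℕ × Bool} (hs : s ∈ p.sites) (hc : p.c s < 0) {r : ℝ} (hr : 0 < r)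
    (hrH : r ≤ H) :
    ENNReal.ofReal (r ^ 2) * kap (tt (p.c s)) ≤
      volume (interior (Φ '' p.shape H) ∩ ball (Φ (p.pos H s)) r) ∧
    volume ((Φ '' p.shape H) ∩ ball (Φ (p.pos H s)) r) ≤
      ENNReal.ofReal (r ^ 2) * kap (tt (p.c s)) := by
  have hloc := local_tooth hH hH8 hp hs hc
  constructor
  · rw [← vol_tocone (tau_pm s) hr, ← recen_zero]
    apply area_ge
    · exact (isOpen_tocone _ _).inter isOpen_ball
    · exact inter_subset_right
    · rintro w ⟨hw1, hw2⟩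
      rw [recen_apply, mem_img, hloc w (ball_subset_ball hrH hw2)]
      exact le_of_lt hw1
  · rw [← vol_tcone (tau_pm s) hr, ← recen_zero]
    apply area_le
    intro w hw hw'
    rw [recen_apply, mem_img, hloc w (ball_subset_ball hrH hw)] at hw'
    exact hw'

/-- density at the tip of a notch -/
theorem dens_notch {s : ℕ × Bool} (hs : s ∈ p.sites) (hc : 0 < p.c s) {r : ℝ} (hr : 0 < r)
    (hrH : r ≤ H) :
    volume ((interior (Φ '' p.shape H))ᶜ ∩ ball (Φ (p.pos H s)) r) ≤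
      ENNReal.ofReal (r ^ 2) * kap (tt (p.c s)) ∧
    ∃ G : Set ℂ, G ⊆ ball (Φ (p.pos H s)) r ∧ Disjoint G (Φ '' p.shape H) ∧
      ENNReal.ofReal (r ^ 2) * kap (tt (p.c s)) ≤ volume G := by
  have hloc := local_notch hH hH8 hp hs hc
  constructor
  · rw [← vol_tcone (tau_npm s) hr, ← recen_zero]
    apply area_le
    intro w hw hw'
    by_contra hcon
    apply hw'
    rw [recen_apply, interior_image, mem_img]
    -- the complement of the closed cone is open
    have hopen : IsOpen (ball (0 : ℂ) r ∩ (tcone (-tau s) (tt (p.c s)))ᶜ) := by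
      apply isOpen_ball.inter
      rw [isOpen_compl_iff]
      exact isClosed_le (f := fun w : ℂ => |w.re|) (by fun_prop) (by fun_prop)
    have hsub : (fun w => p.pos H s + w) '' (ball (0 : ℂ) r ∩ (tcone (-tau s) (tt (p.c s)))ᶜ) ⊆
        p.shape H := by
      rintro _ ⟨w', ⟨hw1, hw2⟩, rfl⟩
      show p.pos H s + w' ∈ p.shape H
      rw [hloc w' (ball_subset_ball hrH hw1)]
      intro hlt
      apply hw2
      show |w'.re| ≤ _ * (-tau s * w'.im)
      rw [neg_mul]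
      exact hlt.le
    exact interior_maximal hsub ((Homeomorph.addLeft (p.pos H s)).isOpenMap _ hopen)
      ⟨w, ⟨hw, hcon⟩, rfl⟩
  · refine ⟨recen Φ (p.pos H s) '' (tocone (-tau s) (tt (p.c s)) ∩ ball 0 r), ?_, ?_, ?_⟩
    · rw [← recen_zero, ← (recen Φ (p.pos H s)).image_ball]
      exact image_mono inter_subset_right
    · rw [Set.disjoint_left]
      rintro _ ⟨w, ⟨hw1, hw2⟩, rfl⟩ hw3
      rw [recen_apply, mem_img, hloc w (ball_subset_ball hrH hw2)] at hw3
      apply hw3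
      have : |w.re| < _ * (-tau s * w.im) := hw1
      rw [neg_mul] at this
      exact this
    · rw [vol_image, vol_tocone (tau_npm s) hr]

theorem c_le {s : ℕ × Bool} : |p.c s| ≤ 7 := by
  unfold Proto.c
  split_ifs
  · rw [abs_neg]; exact hp.tb _
  · exact hp.bb _

theorem shape_closed : IsClosed (p.shape H) := by
  unfold Proto.shape
  have h1 := (cont_prof hH8 p.b).comp Complex.continuous_re
  have h2 := (cont_prof hH8 p.t).comp Complex.continuous_re
  exact (isClosed_le (f := fun _ : ℂ => (0 : ℝ)) (by fun_prop) (by fun_prop)).inter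
    ((isClosed_le (f := fun z : ℂ => z.re) (by fun_prop) (by fun_prop)).inter
    ((isClosed_le h1 (by fun_prop)).inter
      (isClosed_le (f := fun z : ℂ => z.im) (by fun_prop) (continuous_const.add h2))))

theorem shape_norm {z : ℂ} (hz : z ∈ p.shape H) : ‖z‖ ≤ p.ℓ + 2 := by
  obtain ⟨h1, h2, h3, h4⟩ := hz
  have h5 := abs_le.1 (abs_prof_le hH p.b z.re)
  have h6 := abs_le.1 (abs_prof_le hH p.t z.re)
  have h7 : |z.im| ≤ 2 := by
    rw [abs_le]
    constructor <;> linarith [h5.1, h6.2]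
  have h8 : |z.re| ≤ p.ℓ := by
    rw [abs_le]
    constructor <;> linarith
  linarith [Complex.norm_le_abs_re_add_abs_im z]

end loc

/-- box inside every shape -/
def box : Set ℂ := {z | (0 < z.re ∧ z.re < 1) ∧ (1 / 4 < z.im ∧ z.im < 3 / 4)}

theorem box_open : IsOpen box := by
  unfold box
  exact ((isOpen_lt (f := fun _ : ℂ => (0 : ℝ)) (by fun_prop) (by fun_prop)).inter
    (isOpen_lt (f := fun z : ℂ => z.re) (by fun_prop) (by fun_prop))).inter
    ((isOpen_lt (f := fun _ : ℂ => (1 / 4 : ℝ)) (by fun_prop) (by fun_prop)).inter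
    (isOpen_lt (f := fun z : ℂ => z.im) (by fun_prop) (by fun_prop)))

theorem box_pos : 0 < volume box :=
  box_open.measure_pos volume ⟨⟨1 / 2, 1 / 2⟩, by norm_num [box]⟩

theorem box_sub {H : ℝ} (hH : 0 < H) (hH8 : H ≤ 1 / 8) {p : Proto} (hp : p.Good) :
    box ⊆ p.shape H := by
  rintro z ⟨⟨h1, h2⟩, h3, h4⟩
  have h5 := abs_le.1 (abs_prof_le hH p.b z.re)
  have h6 := abs_le.1 (abs_prof_le hH p.t z.re)
  have h7 : (1 : ℝ) ≤ p.ℓ := by exact_mod_cast hp.one
  exact ⟨h1.le, by linarith, by linarith [h5.2], by linarith [h6.1]⟩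

theorem area_tile {H : ℝ} (hH : 0 < H) (hH8 : H ≤ 1 / 8) {p : Proto} (hp : p.Good) (Φ : ℂ ≃ᵢ ℂ) :
    volume box ≤ volume (interior (Φ '' p.shape H)) := by
  rw [interior_image, vol_image]
  exact measure_mono (interior_maximal (box_sub hH hH8 hp) box_open)

end Pool.Agent.H108R4.Br
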