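import Pool.Agent.H108R4.Band

/-!
The tiles of the arrangement and the growing patches.
-/

set_option autoImplicit false

open Set MeasureTheory Metric

namespace Pool.Agent.H108R4.Br

/-- tile at the place `(r, i)` -/
noncomputable def tl (H : ℝ) (h : ℕ) (r i : ℤ) : Set ℂ :=
  band H (DD h) r ((bp h r i : ℝ) / 4) ((bp h r (i + 1) : ℝ) / 4)

theorem tl_eq {H : ℝ} {h : ℕ} (hh : 1 ≤ h) {r i : ℤ} (hv : valid h r i) :
    tl H h r i = IsometryEquiv.addLeft (⟨(bp h r i : ℝ) / 4, r⟩ : ℂ) '' (pr h (ix h r i)).shape H := by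
  have hs := bp_succ h r i
  have hs' : ((bp h r (i + 1) : ℤ) : ℝ) = bp h r i + 4 * (pr h (ix h r i)).ℓ := by exact_mod_cast hs
  have hb := match_b hh hv
  have ht := match_t (r := r) (i := i) hh
  have key : ∀ x : ℝ, 0 ≤ x → x ≤ (pr h (ix h r i)).ℓ →
      prof H (DD h r) ((bp h r i : ℝ) / 4 + x) = prof H (pr h (ix h r i)).b x ∧
      prof H (DD h (r + 1)) ((bp h r i : ℝ) / 4 + x) = prof H (pr h (ix h r i)).t x := by
    intro x h0 h1
    rw [add_comm, prof_shift, prof_shift]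
    exact ⟨prof_congr (ℓ := (pr h (ix h r i)).ℓ) hb h0 (by exact_mod_cast h1),
      prof_congr (ℓ := (pr h (ix h r i)).ℓ) ht h0 (by exact_mod_cast h1)⟩
  ext z
  constructor
  · rintro ⟨⟨h1, h2⟩, h3, h4⟩
    have e : z.re = (bp h r i : ℝ) / 4 + (z.re - (bp h r i : ℝ) / 4) := by ring
    rw [e, (key _ (by linarith) (by linarith)).1] at h3
    rw [e, (key _ (by linarith) (by linarith)).2] at h4
    refine ⟨z - ⟨(bp h r i : ℝ) / 4, r⟩, ⟨?_, ?_, ?_, ?_⟩, ?_⟩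
    · simp only [Complex.sub_re]; linarith
    · simp only [Complex.sub_re]; linarith
    · simp only [Complex.sub_re, Complex.sub_im]; linarith
    · simp only [Complex.sub_re, Complex.sub_im]; linarith
    · rw [IsometryEquiv.addLeft_apply]
      simp
  · rintro ⟨w, ⟨h1, h2, h3, h4⟩, rfl⟩
    rw [IsometryEquiv.addLeft_apply]
    obtain ⟨k1, k2⟩ := key _ h1 h2
    refine ⟨⟨?_, ?_⟩, ?_, ?_⟩
    · simp only [vadd_eq_add, Complex.add_re]; linarith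
    · simp only [vadd_eq_add, Complex.add_re]; linarith
    · simp only [vadd_eq_add, Complex.add_re, Complex.add_im]
      rw [k1]; linarith
    · simp only [vadd_eq_add, Complex.add_re, Complex.add_im]
      rw [k2]; linarith

/-- interior points of bands -/
theorem int_band {H : ℝ} {D : ℤ → ℤ → ℤ} {r : ℤ} {l u : ℝ} {z : ℂ}
    (hz : z ∈ interior (band H D r l u)) :
    (l < z.re ∧ z.re < u) ∧ r + prof H (D r) z.re < z.im ∧ z.im < r + 1 + prof H (D (r + 1)) z.re := by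
  rw [mem_interior_iff_mem_nhds, Metric.mem_nhds_iff] at hz
  obtain ⟨ε, hε, hball⟩ := hz
  have h1 : z + ((ε / 2 : ℝ) : ℂ) ∈ band H D r l u := hball (by
    rw [mem_ball, dist_eq_norm]
    simp [abs_of_pos hε]
    linarith)
  have h2 : z - ((ε / 2 : ℝ) : ℂ) ∈ band H D r l u := hball (by
    rw [mem_ball, dist_eq_norm]
    simp [abs_of_pos hε]
    linarith)
  have h3 : z + ((ε / 2 : ℝ) : ℂ) * Complex.I ∈ band H D r l u := hball (by
    rw [mem_ball, dist_eq_norm]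
    simp [abs_of_pos hε]
    linarith)
  have h4 : z - ((ε / 2 : ℝ) : ℂ) * Complex.I ∈ band H D r l u := hball (by
    rw [mem_ball, dist_eq_norm]
    simp [abs_of_pos hε]
    linarith)
  obtain ⟨⟨-, a1⟩, -⟩ := h1
  obtain ⟨⟨a2, -⟩, -⟩ := h2
  obtain ⟨-, -, a3⟩ := h3
  obtain ⟨-, a4, -⟩ := h4
  simp only [Complex.add_re, Complex.ofReal_re, Complex.sub_re, Complex.add_im, Complex.sub_im,
    Complex.mul_re, Complex.mul_im, Complex.I_re, Complex.I_im, mul_zero, mul_one, Complex.ofReal_im,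
    sub_zero, add_zero, zero_add] at a1 a2 a3 a4
  exact ⟨⟨by linarith, by linarith⟩, by linarith, by linarith⟩

theorem al_pos {h : ℕ} (hh : 1 ≤ h) (r : ℤ) : 0 < al h r := by
  unfold al
  split_ifs <;> omega

theorem bp_mono {h : ℕ} (hh : 1 ≤ h) (r : ℤ) {i j : ℤ} (hij : i ≤ j) : bp h r i ≤ bp h r j := by
  unfold bp
  have := al_pos hh r
  nlinarith

theorem tl_disj_aux {H : ℝ} (hH : 0 < H) (hH8 : H ≤ 1 / 8) {h : ℕ} (hh : 1 ≤ h) {r i r' i' : ℤ}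
    (hlt : r < r' ∨ (r = r' ∧ i < i')) : Disjoint (interior (tl H h r i)) (interior (tl H h r' i')) := by
  rw [Set.disjoint_left]
  intro z hz hz'
  obtain ⟨⟨h1, h2⟩, h3, h4⟩ := int_band hz
  obtain ⟨⟨k1, k2⟩, k3, k4⟩ := int_band hz'
  rcases hlt with hlt | ⟨rfl, hlt⟩
  · rcases (Int.add_one_le_iff.2 hlt).eq_or_lt with he | he
    · subst he
      push_cast at k3
      linarith
    · have he' : r + 2 ≤ r' := by omega
      have : (r : ℝ) + 2 ≤ r' := by exact_mod_cast he'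
      have b1 := abs_le.1 (abs_prof_le hH (DD h (r + 1)) z.re)
      have b2 := abs_le.1 (abs_prof_le hH (DD h r') z.re)
      linarith [b1.2, b2.1]
  · have hm : bp h r (i + 1) ≤ bp h r i' := bp_mono hh r (by omega)
    have : ((bp h r (i + 1) : ℤ) : ℝ) ≤ bp h r i' := by exact_mod_cast hm
    linarith

theorem tl_disj {H : ℝ} (hH : 0 < H) (hH8 : H ≤ 1 / 8) {h : ℕ} (hh : 1 ≤ h) {r i r' i' : ℤ}
    (hne : ¬ (r = r' ∧ i = i')) : Disjoint (interior (tl H h r i)) (interior (tl H h r' i')) := by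
  rcases lt_trichotomy r r' with h1 | h1 | h1
  · exact tl_disj_aux hH hH8 hh (Or.inl h1)
  · rcases lt_trichotomy i i' with h2 | h2 | h2
    · exact tl_disj_aux hH hH8 hh (Or.inr ⟨h1, h2⟩)
    · exact absurd ⟨h1, h2⟩ hne
    · exact (tl_disj_aux hH hH8 hh (Or.inr ⟨h1.symm, h2⟩)).symm
  · exact (tl_disj_aux hH hH8 hh (Or.inl h1)).symm

/-- half width of the rows -/
def Mx (m : ℕ) (r : ℤ) : ℤ := 9 + 6 * m - 3 * |r|
/-- half number of tiles in the rows -/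
def Nx (h m : ℕ) (r : ℤ) : ℤ := if r % 4 = 0 ∨ r % 4 = 3 then Mx m r else 2 * h * Mx m r

noncomputable def lx (h m : ℕ) (r : ℤ) : ℝ := (bp h r (-Nx h m r) : ℝ) / 4
noncomputable def ux (h m : ℕ) (r : ℤ) : ℝ := (bp h r (Nx h m r) : ℝ) / 4

open Classical in
/-- the patches -/
noncomputable def PT (H : ℝ) (h m : ℕ) : Finset (Set ℂ) :=
  (Finset.Icc (-((2 * m + 2 : ℕ) : ℤ)) ((2 * m + 2 : ℕ) : ℤ)).biUnion fun r =>
    (Finset.Ico (-Nx h m r) (Nx h m r)).image fun i => tl H h r i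

theorem mem_PT {H : ℝ} {h m : ℕ} {T : Set ℂ} : T ∈ PT H h m ↔ ∃ r i : ℤ,
    (-((2 * m + 2 : ℕ) : ℤ) ≤ r ∧ r ≤ ((2 * m + 2 : ℕ) : ℤ)) ∧
    (-Nx h m r ≤ i ∧ i < Nx h m r) ∧ tl H h r i = T := by
  simp only [PT, Finset.mem_biUnion, Finset.mem_Icc, Finset.mem_image, Finset.mem_Ico]
  constructor
  · rintro ⟨r, hr, i, hi, rfl⟩
    exact ⟨r, i, hr, hi, rfl⟩
  · rintro ⟨r, i, hr, hi, rfl⟩
    exact ⟨r, hr, i, hi, rfl⟩

theorem Mx_ge {m : ℕ} {r : ℤ} (hr : -((2 * m + 2 : ℕ) : ℤ) ≤ r ∧ r ≤ ((2 * m + 2 : ℕ) : ℤ)) :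
    3 ≤ Mx m r := by
  unfold Mx
  have : |r| ≤ 2 * m + 2 := by
    rw [abs_le]
    push_cast at hr
    exact ⟨by linarith [hr.1], hr.2⟩
  linarith

theorem Mx_le {h m : ℕ} (hm : 9 + 6 * m ≤ h) (r : ℤ) : Mx m r ≤ h := by
  unfold Mx
  have := abs_nonneg r
  have : ((9 + 6 * m : ℕ) : ℤ) ≤ h := by exact_mod_cast hm
  push_cast at this
  linarith

/-- bounds for the extents -/
theorem ext_bd {h m : ℕ} (hm : 9 + 6 * m ≤ h) {r : ℤ}
    (hr : -((2 * m + 2 : ℕ) : ℤ) ≤ r ∧ r ≤ ((2 * m + 2 : ℕ) : ℤ)) :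
    (-(2 * h * (Mx m r : ℝ)) ≤ lx h m r ∧ lx h m r ≤ -(2 * h * (Mx m r : ℝ)) + 2 * h) ∧
    (2 * h * (Mx m r : ℝ) ≤ ux h m r ∧ ux h m r ≤ 2 * h * (Mx m r : ℝ) + 2 * h + 1 / 2) := by
  have h1 := Mx_ge hr
  have h2 := Mx_le hm r
  have h1' : (3 : ℝ) ≤ Mx m r := by exact_mod_cast h1
  have h2' : (Mx m r : ℝ) ≤ h := by exact_mod_cast h2
  have hh : (1 : ℝ) ≤ h := by linarith
  have h4 : r % 4 = 0 ∨ r % 4 = 1 ∨ r % 4 = 2 ∨ r % 4 = 3 := by omega
  unfold lx ux bp al be Nx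
  rcases h4 with e | e | e | e
  · simp only [e]
    norm_num
    push_cast
    and_intros <;> nlinarith
  · simp only [e]
    norm_num
    and_intros <;> nlinarith
  · simp only [e]
    norm_num
    and_intros <;> nlinarith
  · simp only [e]
    norm_num
    and_intros <;> nlinarith

/-- a row is the union of its tiles -/
theorem row_union {H : ℝ} {h : ℕ} (hh : 1 ≤ h) {r N : ℤ} (hN : 1 ≤ N) {z : ℂ} :
    z ∈ band H (DD h) r ((bp h r (-N) : ℝ) / 4) ((bp h r N : ℝ) / 4) ↔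
      ∃ i, (-N ≤ i ∧ i < N) ∧ z ∈ tl H h r i := by
  have hal := al_pos hh r
  constructor
  · rintro ⟨⟨h1, h2⟩, h3⟩
    have hal' : (0 : ℝ) < al h r := by exact_mod_cast hal
    have hfl : ∃ i : ℤ, (-N ≤ i ∧ i < N) ∧ ((bp h r i : ℝ) / 4 ≤ z.re ∧
        z.re ≤ (bp h r (i + 1) : ℝ) / 4) := by
      unfold bp at h1 h2
      push_cast at h1 h2
      rcases h2.lt_or_eq with h2 | h2
      · set q : ℝ := (4 * z.re - be h r) / al h r with hq
        have hq' : al h r * q = 4 * z.re - be h r := by rw [hq]; field_simp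
        refine ⟨⌊q⌋, ⟨?_, ?_⟩, ?_, ?_⟩
        · rw [Int.le_floor]
          push_cast
          nlinarith
        · rw [Int.floor_lt]
          nlinarith
        · unfold bp
          push_cast
          have := Int.floor_le q
          nlinarith
        · unfold bp
          push_cast
          have := (Int.lt_floor_add_one q).le
          nlinarith
      · refine ⟨N - 1, ⟨by omega, by omega⟩, ?_, ?_⟩
        · unfold bp
          push_cast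
          nlinarith
        · unfold bp
          push_cast
          nlinarith
    obtain ⟨i, hi, h4, h5⟩ := hfl
    exact ⟨i, hi, ⟨h4, h5⟩, h3⟩
  · rintro ⟨i, ⟨hi1, hi2⟩, ⟨h4, h5⟩, h3⟩
    have m1 : ((bp h r (-N) : ℤ) : ℝ) ≤ bp h r i := by exact_mod_cast bp_mono hh r hi1
    have m2 : ((bp h r (i + 1) : ℤ) : ℝ) ≤ bp h r N := by
      exact_mod_cast bp_mono hh r (by omega)
    exact ⟨⟨by linarith, by linarith⟩, h3⟩

theorem Nx_pos {h m : ℕ} (hh : 1 ≤ h) {r : ℤ}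
    (hr : -((2 * m + 2 : ℕ) : ℤ) ≤ r ∧ r ≤ ((2 * m + 2 : ℕ) : ℤ)) : 1 ≤ Nx h m r := by
  have h1 := Mx_ge hr
  have h2 : (1 : ℤ) ≤ h := by exact_mod_cast hh
  unfold Nx
  split_ifs
  · omega
  · nlinarith

theorem union_PT (H : ℝ) {h m : ℕ} (hh : 1 ≤ h) : (⋃ T ∈ PT H h m, T) =
    ⋃ r ∈ Icc (-((2 * m + 2 : ℕ) : ℤ)) ((2 * m + 2 : ℕ) : ℤ), band H (DD h) r (lx h m r) (ux h m r) := by
  ext z
  simp only [mem_iUnion, exists_prop]
  constructor
  · rintro ⟨T, hT, hz⟩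
    obtain ⟨r, i, hr, hi, rfl⟩ := mem_PT.1 hT
    exact ⟨r, hr, (row_union hh (Nx_pos hh hr)).2 ⟨i, hi, hz⟩⟩
  · rintro ⟨r, hr, hz⟩
    obtain ⟨i, hi, hz⟩ := (row_union hh (Nx_pos hh hr)).1 hz
    exact ⟨_, mem_PT.2 ⟨r, i, hr, hi, rfl⟩, hz⟩

theorem valid_PT {h m : ℕ} (hm : 9 + 6 * m ≤ h) {r i : ℤ} (hi : -Nx h m r ≤ i ∧ i < Nx h m r) :
    valid h r i := by
  have h2 := Mx_le hm r
  have hh : (0 : ℤ) < h := by
    have : ((9 + 6 * m : ℕ) : ℤ) ≤ h := by exact_mod_cast hm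
    push_cast at this
    linarith
  constructor
  · intro e
    unfold Nx at hi
    simp only [e] at hi
    norm_num at hi
    constructor
    · rw [Int.le_ediv_iff_mul_le (by omega)]
      nlinarith [hi.1]
    · rw [Int.ediv_lt_iff_lt_mul (by omega)]
      nlinarith [hi.2]
  · intro e
    unfold Nx at hi
    simp only [e] at hi
    norm_num at hi
    constructor
    · linarith [hi.1]
    · linarith [hi.2]

theorem ext_mono {h m : ℕ} (hm : 9 + 6 * m ≤ h) {r s : ℤ}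
    (hr : -((2 * m + 2 : ℕ) : ℤ) ≤ r ∧ r ≤ ((2 * m + 2 : ℕ) : ℤ))
    (hs : (0 ≤ s ∧ s ≤ r) ∨ (r ≤ s ∧ s ≤ 0)) : lx h m s ≤ lx h m r ∧ ux h m r ≤ ux h m s := by
  by_cases he : s = r
  · subst he
    exact ⟨le_rfl, le_rfl⟩
  have hs' : -((2 * m + 2 : ℕ) : ℤ) ≤ s ∧ s ≤ ((2 * m + 2 : ℕ) : ℤ) := by omega
  obtain ⟨⟨a1, a2⟩, a3, a4⟩ := ext_bd hm hr
  obtain ⟨⟨b1, b2⟩, b3, b4⟩ := ext_bd hm hs'
  have habs : |s| + 1 ≤ |r| := by
    rcases hs with ⟨h1, h2⟩ | ⟨h1, h2⟩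
    · rw [abs_of_nonneg h1, abs_of_nonneg (h1.trans h2)]
      omega
    · rw [abs_of_nonpos h2, abs_of_nonpos (h1.trans h2)]
      omega
  have hM : Mx m r + 3 ≤ Mx m s := by
    unfold Mx
    linarith
  have hM' : (Mx m r : ℝ) + 3 ≤ Mx m s := by exact_mod_cast hM
  have hh : (9 : ℝ) ≤ h := by
    have : ((9 + 6 * m : ℕ) : ℝ) ≤ h := by exact_mod_cast hm
    push_cast at this
    have : (0 : ℝ) ≤ m := by positivity
    linarith
  constructor <;> nlinarith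

theorem PT_disk {H : ℝ} (hH : 0 < H) (hH8 : H ≤ 1 / 8) {h m : ℕ} (hm : 9 + 6 * m ≤ h)
    (hR : (2 * ((2 * m + 2 : ℕ) : ℝ) + 2) * H < 1) : IsDisk (⋃ T ∈ PT H h m, T) := by
  have hh : (9 : ℝ) ≤ h := by
    have : ((9 + 6 * m : ℕ) : ℝ) ≤ h := by exact_mod_cast hm
    push_cast at this
    have : (0 : ℝ) ≤ m := by positivity
    linarith
  rw [union_PT H (by omega)]
  apply bands_disk (DD h) (2 * m + 2) hH hH8 hR (lx h m) (ux h m) (x := 0)
  · intro r h1 h2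
    obtain ⟨⟨a1, a2⟩, a3, a4⟩ := ext_bd hm ⟨h1, h2⟩
    have h3 : (3 : ℝ) ≤ Mx m r := by exact_mod_cast Mx_ge ⟨h1, h2⟩
    nlinarith
  · intro r h1 h2
    obtain ⟨⟨a1, a2⟩, a3, a4⟩ := ext_bd hm ⟨h1, h2⟩
    have h3 : (3 : ℝ) ≤ Mx m r := by exact_mod_cast Mx_ge ⟨h1, h2⟩
    nlinarith
  · intro r s h1 h2 h3
    exact ext_mono hm ⟨h1, h2⟩ h3

theorem band_sub {H : ℝ} {D : ℤ → ℤ → ℤ} {r : ℤ} {l u l' u' : ℝ} (h1 : l' ≤ l) (h2 : u ≤ u') :
    band H D r l u ⊆ band H D r l' u' := by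
  rintro z ⟨⟨h3, h4⟩, h5⟩
  exact ⟨⟨h1.trans h3, h4.trans h2⟩, h5⟩

theorem PT_nest {H : ℝ} (hH : 0 < H) (hH8 : H ≤ 1 / 8) {h m : ℕ} (hm : 9 + 6 * (m + 1) ≤ h) :
    (⋃ T ∈ PT H h m, T) ⊆ interior (⋃ T ∈ PT H h (m + 1), T) := by
  have hh : (9 : ℝ) ≤ h := by
    have : ((9 + 6 * (m + 1) : ℕ) : ℝ) ≤ h := by exact_mod_cast hm
    push_cast at this
    have : (0 : ℝ) ≤ m := by positivity
    linarith
  rw [union_PT H (by omega), union_PT H (by omega)]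
  intro z hz
  simp only [mem_iUnion, exists_prop] at hz
  obtain ⟨r, hr, ⟨h1, h2⟩, h3⟩ := hz
  obtain ⟨⟨a1, a2⟩, a3, a4⟩ := ext_bd (by omega : 9 + 6 * m ≤ h) hr
  have h3M : (3 : ℝ) ≤ Mx m r := by exact_mod_cast Mx_ge hr
  have hr1 := hr.1
  have hr2 := hr.2
  have key : ∀ s : ℤ, |s| ≤ |r| + 1 → (-((2 * (m + 1) + 2 : ℕ) : ℤ) ≤ s ∧ s ≤ ((2 * (m + 1) + 2 : ℕ) : ℤ)) →
      band H (DD h) s (-(2 * h * ((Mx m r : ℝ) + 3)) + 2 * h) (2 * h * ((Mx m r : ℝ) + 3)) ⊆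
      ⋃ r ∈ Icc (-((2 * (m + 1) + 2 : ℕ) : ℤ)) ((2 * (m + 1) + 2 : ℕ) : ℤ),
        band H (DD h) r (lx h (m + 1) r) (ux h (m + 1) r) := by
    intro s hs hs'
    obtain ⟨⟨b1, b2⟩, b3, b4⟩ := ext_bd hm hs'
    have hM : Mx m r + 3 ≤ Mx (m + 1) s := by
      unfold Mx
      push_cast
      linarith
    have hM' : (Mx m r : ℝ) + 3 ≤ Mx (m + 1) s := by exact_mod_cast hM
    refine (band_sub ?_ ?_).trans (subset_biUnion_of_mem (u := fun r =>
      band H (DD h) r (lx h (m + 1) r) (ux h (m + 1) r)) hs')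
    · nlinarith
    · nlinarith
  apply band_nest hH hH8 (DD h) (r := r) (l := -(2 * h * ((Mx m r : ℝ) + 3)) + 2 * h)
    (u := 2 * h * ((Mx m r : ℝ) + 3))
  · exact key r (by omega) (by omega)
  · apply key (r - 1) _ (by omega)
    calc |r - 1| ≤ |r| + |1| := abs_sub _ _
      _ = |r| + 1 := by simp
  · apply key (r + 1) _ (by omega)
    calc |r + 1| ≤ |r| + |1| := abs_add_le _ _
      _ = |r| + 1 := by simp
  · exact ⟨⟨le_rfl, le_rfl⟩, h3⟩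
  · nlinarith
  · nlinarith

theorem PT_sub (H : ℝ) {h m : ℕ} : PT H h m ⊆ PT H h (m + 1) := by
  intro T hT
  obtain ⟨r, i, hr, hi, rfl⟩ := mem_PT.1 hT
  have hM : Mx m r ≤ Mx (m + 1) r := by
    unfold Mx
    push_cast
    linarith
  have hN : Nx h m r ≤ Nx h (m + 1) r := by
    unfold Nx
    split_ifs
    · exact hM
    · have : (0 : ℤ) ≤ h := by positivity
      nlinarith
  exact mem_PT.2 ⟨r, i, by omega, by omega, rfl⟩

/-- a central tile is surrounded by the first patch -/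
theorem tile_nest {H : ℝ} (hH : 0 < H) (hH8 : H ≤ 1 / 8) {h : ℕ} (hm : 15 ≤ h) {r i : ℤ}
    (hr : 0 ≤ r ∧ r ≤ 3) (hi : 0 ≤ bp h r i) (hi' : bp h r (i + 1) ≤ 16 * h) :
    tl H h r i ⊆ interior (⋃ T ∈ PT H h 1, T) := by
  have hh : (15 : ℝ) ≤ h := by exact_mod_cast hm
  rw [union_PT H (by omega)]
  rintro z ⟨⟨h1, h2⟩, h3⟩
  have hi0 : (0 : ℝ) ≤ bp h r i := by exact_mod_cast hi
  have hi1 : ((bp h r (i + 1) : ℤ) : ℝ) ≤ 16 * h := by exact_mod_cast hi'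
  have key : ∀ s : ℤ, -1 ≤ s → s ≤ 4 →
      band H (DD h) s (-1) (4 * h + 1) ⊆
      ⋃ r ∈ Icc (-((2 * 1 + 2 : ℕ) : ℤ)) ((2 * 1 + 2 : ℕ) : ℤ),
        band H (DD h) r (lx h 1 r) (ux h 1 r) := by
    intro s hs1 hs2
    have hs' : (-((2 * 1 + 2 : ℕ) : ℤ) ≤ s ∧ s ≤ ((2 * 1 + 2 : ℕ) : ℤ)) := by omega
    obtain ⟨⟨b1, b2⟩, b3, b4⟩ := ext_bd (h := h) (m := 1) (by omega) hs'
    have hM' : (3 : ℝ) ≤ Mx 1 s := by exact_mod_cast Mx_ge hs'
    refine (band_sub ?_ ?_).trans (subset_biUnion_of_mem (u := fun r =>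
      band H (DD h) r (lx h 1 r) (ux h 1 r)) hs')
    · nlinarith
    · nlinarith
  apply band_nest hH hH8 (DD h) (r := r) (l := -1) (u := 4 * h + 1)
  · exact key r (by omega) (by omega)
  · exact key (r - 1) (by omega) (by omega)
  · exact key (r + 1) (by omega) (by omega)
  · exact ⟨⟨le_rfl, le_rfl⟩, h3⟩
  · linarith
  · linarith

theorem tl_disk {H : ℝ} (hH : 0 < H) (hH8 : H ≤ 1 / 8) (hR : 8 * H < 1) {h : ℕ} (hh : 1 ≤ h)
    {r i : ℤ} (hr : 0 ≤ r ∧ r ≤ 3) : IsDisk (tl H h r i) := by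
  apply band_disk (DD h) 3 hH hH8 (by push_cast; linarith) (by push_cast; omega)
    (by push_cast; omega)
  have : bp h r i < bp h r (i + 1) := by
    unfold bp
    have := al_pos hh r
    nlinarith
  have : ((bp h r i : ℤ) : ℝ) < bp h r (i + 1) := by exact_mod_cast this
  linarith

end Pool.Agent.H108R4.Br
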