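import Pool.Agent.H108R4.Cone2

set_option autoImplicit false

open Set MeasureTheory Metric

namespace Pool.Agent.H108R4.Br

/-- half the ratio width/height of a tooth of type `e` -/
noncomputable def tt (e : ℤ) : ℝ := (29 + 3 * ((min |e| 7 : ℤ) : ℝ)) / 60

theorem tt_ge (e : ℤ) : 29 / 60 ≤ tt e := by
  unfold tt
  have : (0 : ℝ) ≤ ((min |e| 7 : ℤ) : ℝ) := by
    exact_mod_cast le_min (abs_nonneg e) (by norm_num)
  linarith

theorem tt_le (e : ℤ) : tt e ≤ 5 / 6 := by
  unfold tt
  have : ((min |e| 7 : ℤ) : ℝ) ≤ 7 := by exact_mod_cast min_le_right _ _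
  linarith

theorem tt_pos (e : ℤ) : 0 < tt e := lt_of_lt_of_le (by norm_num) (tt_ge e)

/-- a tooth -/
noncomputable def E (H : ℝ) (e : ℤ) (u : ℝ) : ℝ := (Int.sign e : ℝ) * max 0 (H - |u| / tt e)

theorem E_far {H : ℝ} (hH8 : H ≤ 1 / 8) {e : ℤ} {u : ℝ} (hu : 5 / 48 ≤ |u|) : E H e u = 0 := by
  have h1 := tt_le e
  have h2 := tt_pos e
  have h3 : H ≤ |u| / tt e := by
    rw [le_div_iff₀ h2]
    nlinarith
  rw [E, max_eq_left (by linarith), mul_zero]

theorem abs_E_le {H : ℝ} (hH : 0 < H) (e : ℤ) (u : ℝ) : |E H e u| ≤ H := by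
  rw [E, abs_mul]
  have h1 : |(Int.sign e : ℝ)| ≤ 1 := by
    rcases lt_trichotomy e 0 with h | h | h
    · rw [Int.sign_eq_neg_one_of_neg h]; simp
    · rw [h]; simp
    · rw [Int.sign_eq_one_of_pos h]; simp
  have h2 : 0 ≤ max 0 (H - |u| / tt e) := le_max_left _ _
  have h3 : max 0 (H - |u| / tt e) ≤ H := by
    apply max_le hH.le
    have : 0 ≤ |u| / tt e := div_nonneg (abs_nonneg _) (tt_pos e).le
    linarith
  rw [abs_of_nonneg h2]
  calc |(Int.sign e : ℝ)| * max 0 (H - |u| / tt e) ≤ 1 * H := by gcongr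
    _ = H := one_mul H

theorem cont_E (H : ℝ) (e : ℤ) : Continuous (E H e) := by
  unfold E
  exact continuous_const.mul (continuous_const.max (continuous_const.sub (continuous_abs.div_const _)))

/-- profile with the tooth `d n` at `n / 4` -/
noncomputable def prof (H : ℝ) (d : ℤ → ℤ) (x : ℝ) : ℝ :=
  E H (d (round (4 * x))) (x - (round (4 * x) : ℤ) / 4)

theorem round_close (x : ℝ) : |x - ((round (4 * x) : ℤ) : ℝ) / 4| ≤ 1 / 8 := by
  have h := abs_sub_round (4 * x)
  rw [abs_le] at h ⊢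
  constructor <;> linarith [h.1, h.2]

theorem prof_eq {H : ℝ} (hH8 : H ≤ 1 / 8) (d : ℤ → ℤ) {x : ℝ} {n : ℤ} (h : |x - n / 4| ≤ 1 / 8) :
    prof H d x = E H (d n) (x - n / 4) := by
  by_cases hn : round (4 * x) = n
  · rw [prof, hn]
  · have h1 := round_close x
    have h2 : (1 : ℝ) ≤ |((round (4 * x) : ℤ) : ℝ) - n| := by
      have : (1 : ℤ) ≤ |round (4 * x) - n| := Int.one_le_abs (sub_ne_zero.2 hn)
      exact_mod_cast this
    have h3 : |((round (4 * x) : ℤ) : ℝ) - n| ≤ 4 * |x - n / 4| + 4 * |x - ((round (4 * x) : ℤ) : ℝ) / 4| := by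
      have e : ((round (4 * x) : ℤ) : ℝ) - n = 4 * (x - n / 4) - 4 * (x - ((round (4 * x) : ℤ) : ℝ) / 4) := by
        ring
      rw [e]
      calc |4 * (x - n / 4) - 4 * (x - ((round (4 * x) : ℤ) : ℝ) / 4)| ≤
          |4 * (x - n / 4)| + |4 * (x - ((round (4 * x) : ℤ) : ℝ) / 4)| := abs_sub _ _
        _ = _ := by rw [abs_mul, abs_mul, abs_of_pos (by norm_num : (0 : ℝ) < 4)]
    rw [prof, E_far hH8 (by linarith), E_far hH8 (by linarith)]

theorem prof_zero {H : ℝ} (hH8 : H ≤ 1 / 8) (d : ℤ → ℤ) {x : ℝ}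
    (h : ∀ m : ℤ, 5 / 48 ≤ |x - m / 4|) : prof H d x = 0 := E_far hH8 (h _)

theorem abs_prof_le {H : ℝ} (hH : 0 < H) (d : ℤ → ℤ) (x : ℝ) : |prof H d x| ≤ H := abs_E_le hH _ _

theorem far_right {x y : ℝ} {n : ℤ} (h1 : 5 / 48 ≤ x - n / 4) (h2 : x - n / 4 ≤ 1 / 8)
    (hy1 : x ≤ y) (hy2 : y ≤ x + 1 / 48) (m : ℤ) : 5 / 48 ≤ |y - m / 4| := by
  rcases le_or_gt m n with h | h
  · have : (m : ℝ) ≤ n := by exact_mod_cast h
    rw [abs_of_nonneg (by linarith)]
    linarith
  · have : (n : ℝ) + 1 ≤ m := by exact_mod_cast h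
    rw [abs_of_nonpos (by linarith)]
    linarith

theorem far_left {x y : ℝ} {n : ℤ} (h1 : 5 / 48 ≤ n / 4 - x) (h2 : n / 4 - x ≤ 1 / 8)
    (hy1 : y ≤ x) (hy2 : x - 1 / 48 ≤ y) (m : ℤ) : 5 / 48 ≤ |y - m / 4| := by
  rcases le_or_gt n m with h | h
  · have : (n : ℝ) ≤ m := by exact_mod_cast h
    rw [abs_of_nonpos (by linarith)]
    linarith
  · have : (m : ℝ) + 1 ≤ n := by exact_mod_cast h
    rw [abs_of_nonneg (by linarith)]
    linarith

theorem cont_prof {H : ℝ} (hH8 : H ≤ 1 / 8) (d : ℤ → ℤ) : Continuous (prof H d) := by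
  rw [continuous_iff_continuousAt]
  intro x
  set n := round (4 * x) with hn
  have hx := round_close x
  rw [← hn] at hx
  rcases lt_or_ge |x - n / 4| (1 / 8) with h | h
  · have h1 : ∀ᶠ y : ℝ in nhds x, |y - n / 4| < 1 / 8 :=
      (isOpen_lt (f := fun y : ℝ => |y - n / 4|) (by fun_prop) continuous_const).mem_nhds h
    have h2 : (fun y => E H (d n) (y - n / 4)) =ᶠ[nhds x] prof H d := by
      filter_upwards [h1] with y hy
      exact (prof_eq hH8 d hy.le).symm
    exact ContinuousAt.congr (((cont_E H (d n)).comp (continuous_id.sub continuous_const)).continuousAt) h2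
  · have h1 : ∀ᶠ y : ℝ in nhds x, |y - x| < 1 / 48 :=
      (isOpen_lt (f := fun y : ℝ => |y - x|) (by fun_prop) continuous_const).mem_nhds (by
        show |x - x| < 1 / 48
        norm_num)
    have h2 : (fun _ => (0 : ℝ)) =ᶠ[nhds x] prof H d := by
      filter_upwards [h1] with y hy
      symm
      apply prof_zero hH8
      intro m
      rw [abs_lt] at hy
      rw [abs_le] at hx
      rw [le_abs] at h
      rcases h with h | h
      · rcases le_total x y with hxy | hxy
        · exact far_right (n := n) (by linarith) (by linarith) hxy (by linarith) m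
        · have e : |y - m / 4| = |y - m / 4| := rfl
          rcases le_or_gt m n with hmn | hmn
          · have : (m : ℝ) ≤ n := by exact_mod_cast hmn
            rw [abs_of_nonneg (by linarith)]
            linarith
          · have : (n : ℝ) + 1 ≤ m := by exact_mod_cast hmn
            rw [abs_of_nonpos (by linarith)]
            linarith
      · rcases le_total x y with hxy | hxy
        · rcases le_or_gt n m with hmn | hmn
          · have : (n : ℝ) ≤ m := by exact_mod_cast hmn
            rw [abs_of_nonpos (by linarith)]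
            linarith
          · have : (m : ℝ) + 1 ≤ n := by exact_mod_cast hmn
            rw [abs_of_nonneg (by linarith)]
            linarith
        · exact far_left (n := n) (by linarith) (by linarith) hxy (by linarith) m
    exact ContinuousAt.congr continuousAt_const h2

theorem prof_neg (H : ℝ) (d : ℤ → ℤ) (x : ℝ) : prof H (fun n => -d n) x = -prof H d x := by
  simp only [prof, E, Int.sign_neg, tt, abs_neg]
  push_cast
  ring

theorem prof_shift (H : ℝ) (d : ℤ → ℤ) (s : ℤ) (x : ℝ) :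
    prof H d (x + s / 4) = prof H (fun n => d (n + s)) x := by
  have h : round (4 * (x + s / 4)) = round (4 * x) + s := by
    rw [show 4 * (x + (s : ℝ) / 4) = 4 * x + s by ring, round_add_intCast]
  rw [prof, prof, h]
  congr 1
  push_cast
  ring

theorem prof_congr {H : ℝ} {d d' : ℤ → ℤ} {ℓ : ℤ} (h : ∀ n, 0 ≤ n → n ≤ 4 * ℓ → d n = d' n)
    {x : ℝ} (h0 : 0 ≤ x) (h1 : x ≤ ℓ) : prof H d x = prof H d' x := by
  have hr0 : 0 ≤ round (4 * x) := by
    rw [round_eq]
    apply Int.floor_nonneg.2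
    linarith
  have hr1 : round (4 * x) ≤ 4 * ℓ := by
    rw [round_eq]
    have : ⌊4 * x + 1 / 2⌋ < 4 * ℓ + 1 := by
      rw [Int.floor_lt]
      push_cast
      linarith
    omega
  rw [prof, prof, h _ hr0 hr1]

/-- Away from the downward teeth, the profile does not increase on one side. -/
theorem side {H : ℝ} (hH8 : H ≤ 1 / 8) (d : ℤ → ℤ) (x : ℝ)
    (h : ∀ n : ℤ, x = n / 4 → 0 ≤ d n) :
    ∃ δ > 0, (∀ y, x - δ ≤ y → y ≤ x → prof H d y ≤ prof H d x) ∨
      (∀ y, x ≤ y → y ≤ x + δ → prof H d y ≤ prof H d x) := by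
  set n := round (4 * x) with hn
  have hx := round_close x
  rw [← hn] at hx
  have hpx : prof H d x = E H (d n) (x - n / 4) := prof_eq hH8 d hx
  rw [abs_le] at hx
  rcases le_or_gt (5 / 48) (x - n / 4) with h1 | h1
  · refine ⟨1 / 48, by norm_num, Or.inr fun y hy1 hy2 => ?_⟩
    rw [prof_zero hH8 d (far_right (n := n) h1 hx.2 hy1 hy2),
      prof_zero hH8 d (far_right (n := n) h1 hx.2 le_rfl (by linarith))]
  rcases le_or_gt (5 / 48) (n / 4 - x) with h2 | h2
  · refine ⟨1 / 48, by norm_num, Or.inl fun y hy1 hy2 => ?_⟩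
    rw [prof_zero hH8 d (far_left (n := n) h2 (by linarith) hy2 hy1),
      prof_zero hH8 d (far_left (n := n) h2 (by linarith) le_rfl (by linarith))]
  have hmono : ∀ u v : ℝ, |u| ≤ |v| → max 0 (H - |v| / tt (d n)) ≤ max 0 (H - |u| / tt (d n)) := by
    intro u v huv
    have := div_le_div_of_nonneg_right huv (tt_pos (d n)).le
    exact max_le_max le_rfl (by linarith)
  rcases le_or_gt 0 (d n) with hd | hd
  · have hs : (0 : ℝ) ≤ (Int.sign (d n) : ℝ) := by exact_mod_cast Int.sign_nonneg_iff.2 hd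
    rcases le_total 0 (x - n / 4) with h3 | h3
    · refine ⟨1 / 48, by norm_num, Or.inr fun y hy1 hy2 => ?_⟩
      rw [hpx, prof_eq hH8 d (n := n) (x := y) (by rw [abs_le]; constructor <;> linarith)]
      apply mul_le_mul_of_nonneg_left _ hs
      apply hmono
      rw [abs_of_nonneg h3, abs_of_nonneg (by linarith)]
      linarith
    · refine ⟨1 / 48, by norm_num, Or.inl fun y hy1 hy2 => ?_⟩
      rw [hpx, prof_eq hH8 d (n := n) (x := y) (by rw [abs_le]; constructor <;> linarith)]
      apply mul_le_mul_of_nonneg_left _ hs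
      apply hmono
      rw [abs_of_nonpos h3, abs_of_nonpos (by linarith)]
      linarith
  · have hs : (Int.sign (d n) : ℝ) ≤ 0 := by
      rw [Int.sign_eq_neg_one_of_neg hd]; norm_num
    have hne : x - n / 4 ≠ 0 := by
      intro h0
      have := h n (by linarith)
      omega
    rcases lt_or_gt_of_ne hne with h3 | h3
    · refine ⟨-(x - n / 4), by linarith, Or.inr fun y hy1 hy2 => ?_⟩
      rw [hpx, prof_eq hH8 d (n := n) (x := y) (by rw [abs_le]; constructor <;> linarith)]
      apply mul_le_mul_of_nonpos_left _ hs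
      apply hmono
      rw [abs_of_nonpos (by linarith), abs_of_nonpos h3.le]
      linarith
    · refine ⟨x - n / 4, by linarith, Or.inl fun y hy1 hy2 => ?_⟩
      rw [hpx, prof_eq hH8 d (n := n) (x := y) (by rw [abs_le]; constructor <;> linarith)]
      apply mul_le_mul_of_nonpos_left _ hs
      apply hmono
      rw [abs_of_nonneg (by linarith), abs_of_nonneg h3.le]
      linarith

end Pool.Agent.H108R4.Br
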