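import Pool.Agent.H108R4.Prof

/-!
The shapes bounded by two profiles, and what they look like near their points.
-/

set_option autoImplicit false

open Set MeasureTheory Metric

namespace Pool.Agent.H108R4.Br

/-- integer data of a prototile: length, slots of the bottom, slots of the top -/
structure Proto where
  ℓ : ℕ
  b : ℤ → ℤ
  t : ℤ → ℤ

/-- the prototile -/
def Proto.shape (p : Proto) (H : ℝ) : Set ℂ :=
  {z | 0 ≤ z.re ∧ z.re ≤ p.ℓ ∧ prof H p.b z.re ≤ z.im ∧ z.im ≤ 1 + prof H p.t z.re}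

/-- corners are free of teeth -/
structure Proto.Good (p : Proto) : Prop where
  one : 1 ≤ p.ℓ
  b0 : p.b 0 = 0
  b4 : p.b (4 * p.ℓ) = 0
  t0 : p.t 0 = 0
  t4 : p.t (4 * p.ℓ) = 0
  bb : ∀ n, |p.b n| ≤ 7
  tb : ∀ n, |p.t n| ≤ 7

/-- signed type of the site: positive for notches, negative for teeth -/
def Proto.c (p : Proto) (s : ℕ × Bool) : ℤ := if s.2 then -p.t s.1 else p.b s.1

/-- inward direction -/
def tau (s : ℕ × Bool) : ℝ := if s.2 then -1 else 1

/-- tip of the site -/
noncomputable def Proto.pos (p : Proto) (H : ℝ) (s : ℕ × Bool) : ℂ :=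
  ⟨(s.1 : ℝ) / 4, (if s.2 then 1 else 0) + tau s * (Int.sign (p.c s) : ℝ) * H⟩

/-- all sites -/
def Proto.sites (p : Proto) : Finset (ℕ × Bool) := Finset.range (4 * p.ℓ) ×ˢ Finset.univ

theorem E_zero (H u : ℝ) : E H 0 u = 0 := by simp [E]

theorem tt_neg (e : ℤ) : tt (-e) = tt e := by simp [tt]

theorem up_side {H : ℝ} (hH8 : H ≤ 1 / 8) (d : ℤ → ℤ) {ℓ : ℕ} (hℓ : 1 ≤ ℓ) (h0 : d 0 = 0)
    (h4 : d (4 * ℓ) = 0) {x y : ℝ} (hx0 : 0 ≤ x) (hx1 : x ≤ ℓ) (hy : prof H d x ≤ y)
    (hn : ∀ n : ℤ, x = n / 4 → y = prof H d x → 0 ≤ d n) :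
    ∃ σ : ℝ, (σ = 1 ∨ σ = -1) ∧ ∃ δ > 0, ∀ x', 0 < σ * (x' - x) → σ * (x' - x) < δ →
      0 ≤ x' ∧ x' ≤ ℓ ∧ prof H d x' ≤ y := by
  have hℓ' : (1 : ℝ) ≤ ℓ := by exact_mod_cast hℓ
  rcases lt_or_ge x (1 / 8) with h1 | h1
  · refine ⟨1, Or.inl rfl, 1 / 8 - x, by linarith, fun x' ha hb => ⟨by linarith, by linarith, ?_⟩⟩
    have e1 : prof H d x = 0 := by
      rw [prof_eq hH8 d (n := 0) (by push_cast; rw [abs_le]; constructor <;> linarith), h0, E_zero]
    have e2 : prof H d x' = 0 := by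
      rw [prof_eq hH8 d (n := 0) (by push_cast; rw [abs_le]; constructor <;> linarith), h0, E_zero]
    rw [e2, ← e1]
    exact hy
  rcases lt_or_ge ((ℓ : ℝ) - 1 / 8) x with h2 | h2
  · refine ⟨-1, Or.inr rfl, x - (ℓ - 1 / 8), by linarith,
      fun x' ha hb => ⟨by linarith, by linarith, ?_⟩⟩
    have e1 : prof H d x = 0 := by
      rw [prof_eq hH8 d (n := 4 * ℓ) (by push_cast; rw [abs_le]; constructor <;> linarith), h4, E_zero]
    have e2 : prof H d x' = 0 := by
      rw [prof_eq hH8 d (n := 4 * ℓ) (by push_cast; rw [abs_le]; constructor <;> linarith), h4, E_zero]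
    rw [e2, ← e1]
    exact hy
  rcases hy.lt_or_eq with h3 | h3
  · have hc : ∀ᶠ x' in nhds x, prof H d x' < y := (cont_prof hH8 d).continuousAt.eventually_lt_const h3
    obtain ⟨δ, hδ, hball⟩ := Metric.eventually_nhds_iff.1 hc
    refine ⟨1, Or.inl rfl, min δ (1 / 8), lt_min hδ (by norm_num), fun x' ha hb => ?_⟩
    have hb1 := lt_of_lt_of_le hb (min_le_left _ _)
    have hb2 := lt_of_lt_of_le hb (min_le_right _ _)
    refine ⟨by linarith, by linarith, (hball ?_).le⟩
    rw [Real.dist_eq, abs_of_pos (by linarith)]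
    linarith
  · obtain ⟨δ, hδ, hl | hr⟩ := side hH8 d x (fun n hn' => hn n hn' h3.symm)
    · refine ⟨-1, Or.inr rfl, min δ (1 / 8), lt_min hδ (by norm_num), fun x' ha hb => ?_⟩
      have hb1 := lt_of_lt_of_le hb (min_le_left _ _)
      have hb2 := lt_of_lt_of_le hb (min_le_right _ _)
      refine ⟨by linarith, by linarith, ?_⟩
      rw [← h3]
      exact hl x' (by linarith) (by linarith)
    · refine ⟨1, Or.inl rfl, min δ (1 / 8), lt_min hδ (by norm_num), fun x' ha hb => ?_⟩
      have hb1 := lt_of_lt_of_le hb (min_le_left _ _)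
      have hb2 := lt_of_lt_of_le hb (min_le_right _ _)
      refine ⟨by linarith, by linarith, ?_⟩
      rw [← h3]
      exact hr x' (by linarith) (by linarith)

theorem prof_slot {H : ℝ} (hH : 0 < H) (hH8 : H ≤ 1 / 8) (d : ℤ → ℤ) (n : ℤ) :
    prof H d (n / 4) = Int.sign (d n) * H := by
  rw [prof_eq hH8 d (n := n) (by simp), sub_self, E]
  simp [hH.le]

theorem re_le_norm (w : ℂ) : |w.re| ≤ ‖w‖ := Complex.abs_re_le_norm w
theorem im_le_norm (w : ℂ) : |w.im| ≤ ‖w‖ := Complex.abs_im_le_norm w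

theorem local_quad {H : ℝ} (hH : 0 < H) (hH8 : H ≤ 1 / 8) {p : Proto} (hp : p.Good) {v : ℂ}
    (hv : v ∈ p.shape H) (hnt : ∀ s ∈ p.sites, p.c s < 0 → v ≠ p.pos H s) :
    ∃ σ τ : ℝ, (σ = 1 ∨ σ = -1) ∧ (τ = 1 ∨ τ = -1) ∧ ∃ r > 0, ∀ w ∈ quad σ τ ∩ ball 0 r,
      v + w ∈ p.shape H := by
  obtain ⟨hx0, hx1, hy0, hy1⟩ := hv
  have hnn : ∀ n : ℤ, v.re = n / 4 → ∃ m : ℕ, n = m ∧ m ≤ 4 * p.ℓ := by
    intro n hn
    have h0 : 0 ≤ n := by
      have : (0 : ℝ) ≤ n := by linarith
      exact_mod_cast this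
    obtain ⟨m, rfl⟩ := Int.eq_ofNat_of_zero_le h0
    refine ⟨m, rfl, ?_⟩
    have : ((m : ℤ) : ℝ) ≤ 4 * p.ℓ := by linarith
    exact_mod_cast this
  rcases le_or_gt v.im (1 / 2) with hh | hh
  · obtain ⟨σ, hσ, δ, hδ, hs⟩ := up_side hH8 p.b hp.one hp.b0 hp.b4 hx0 hx1 hy0 (by
      intro n hn hyn
      by_contra hneg
      push Not at hneg
      obtain ⟨m, rfl, hm⟩ := hnn n hn
      have hm' : m < 4 * p.ℓ := by
        rcases hm.lt_or_eq with h | h
        · exact h
        · exfalso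
          rw [h] at hneg
          push_cast at hneg
          rw [hp.b4] at hneg
          omega
      apply hnt (m, false) (by simp [Proto.sites, hm']) (by simpa [Proto.c] using hneg)
      rw [hn, prof_slot hH hH8] at hyn
      apply Complex.ext
      · rw [hn]; simp [Proto.pos]
      · rw [hyn]; simp [Proto.pos, tau, Proto.c])
    refine ⟨σ, 1, hσ, Or.inl rfl, min δ (1 / 4), lt_min hδ (by norm_num), ?_⟩
    rintro w ⟨⟨hw1, hw2⟩, hw3⟩
    rw [mem_ball_zero_iff] at hw3
    have h1 := re_le_norm w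
    have h2 := im_le_norm w
    have h3 := lt_of_lt_of_le hw3 (min_le_left _ _)
    have h4 := lt_of_lt_of_le hw3 (min_le_right _ _)
    have hσw : σ * w.re ≤ |w.re| := by
      rcases hσ with rfl | rfl
      · rw [one_mul]; exact le_abs_self _
      · rw [neg_one_mul]; exact neg_le_abs _
    obtain ⟨a, b, c⟩ := hs (v.re + w.re) (by rwa [add_sub_cancel_left])
      (by rw [add_sub_cancel_left]; linarith)
    refine ⟨by simpa using a, by simpa using b, ?_, ?_⟩
    · rw [Complex.add_re, Complex.add_im]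
      linarith
    · rw [Complex.add_re, Complex.add_im]
      have := abs_prof_le hH p.t (v.re + w.re)
      have := (abs_le.1 this).1
      have := le_abs_self w.im
      linarith
  · obtain ⟨σ, hσ, δ, hδ, hs⟩ := up_side hH8 (fun n => -p.t n) hp.one (by simp [hp.t0])
      (by simp [hp.t4]) hx0 hx1 (y := 1 - v.im) (by rw [prof_neg]; linarith) (by
      intro n hn hyn
      by_contra hneg
      push Not at hneg
      obtain ⟨m, rfl, hm⟩ := hnn n hn
      have hm' : m < 4 * p.ℓ := by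
        rcases hm.lt_or_eq with h | h
        · exact h
        · exfalso
          rw [h] at hneg
          push_cast at hneg
          rw [hp.t4] at hneg
          omega
      apply hnt (m, true) (by simp [Proto.sites, hm']) (by simpa [Proto.c] using hneg)
      rw [prof_neg, hn, prof_slot hH hH8] at hyn
      apply Complex.ext
      · rw [hn]; simp [Proto.pos]
      · have : v.im = 1 + Int.sign (p.t m) * H := by linarith
        rw [this]; simp [Proto.pos, tau, Proto.c])
    refine ⟨σ, -1, hσ, Or.inr rfl, min δ (1 / 4), lt_min hδ (by norm_num), ?_⟩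
    rintro w ⟨⟨hw1, hw2⟩, hw3⟩
    rw [mem_ball_zero_iff] at hw3
    have h1 := re_le_norm w
    have h2 := im_le_norm w
    have h3 := lt_of_lt_of_le hw3 (min_le_left _ _)
    have h4 := lt_of_lt_of_le hw3 (min_le_right _ _)
    have hσw : σ * w.re ≤ |w.re| := by
      rcases hσ with rfl | rfl
      · rw [one_mul]; exact le_abs_self _
      · rw [neg_one_mul]; exact neg_le_abs _
    obtain ⟨a, b, c⟩ := hs (v.re + w.re) (by rwa [add_sub_cancel_left])
      (by rw [add_sub_cancel_left]; linarith)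
    rw [prof_neg] at c
    refine ⟨by simpa using a, by simpa using b, ?_, ?_⟩
    · rw [Complex.add_re, Complex.add_im]
      have := abs_prof_le hH p.b (v.re + w.re)
      have := (abs_le.1 this).2
      have := neg_le_abs w.im
      linarith
    · rw [Complex.add_re, Complex.add_im]
      linarith

theorem tooth_iff {H t a u : ℝ} (ht : 0 < t) (hu : u < H) :
    (-max 0 (H - |a| / t) ≤ -H + u) ↔ |a| ≤ t * u := by
  rw [mul_comm t u, ← div_le_iff₀ ht]
  constructor
  · intro h
    rcases max_cases 0 (H - |a| / t) with ⟨h1, h2⟩ | ⟨h1, h2⟩ <;> rw [h1] at h <;> linarith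
  · intro h
    have := le_max_right 0 (H - |a| / t)
    linarith

theorem notch_iff {H t a u : ℝ} (ht : 0 < t) (hu : -H < u) :
    (max 0 (H - |a| / t) ≤ H + u) ↔ ¬ (|a| < t * (-u)) := by
  rw [mul_comm t (-u), ← div_lt_iff₀ ht, not_lt]
  constructor
  · intro h
    have := le_max_right 0 (H - |a| / t)
    linarith
  · intro h
    apply max_le <;> linarith

theorem site_int {p : Proto} (hp : p.Good) {s : ℕ × Bool} (hs : s ∈ p.sites) (hc : p.c s ≠ 0) :
    1 ≤ s.1 ∧ s.1 + 1 ≤ 4 * p.ℓ := by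
  simp only [Proto.sites, Finset.mem_product, Finset.mem_range, Finset.mem_univ, and_true] at hs
  refine ⟨?_, hs⟩
  rcases Nat.eq_zero_or_pos s.1 with h | h
  · exfalso
    apply hc
    unfold Proto.c
    rw [h]
    split_ifs
    · simp [hp.t0]
    · simp [hp.b0]
  · exact h

theorem local_tooth {H : ℝ} (hH : 0 < H) (hH8 : H ≤ 1 / 8) {p : Proto} (hp : p.Good)
    {s : ℕ × Bool} (hs : s ∈ p.sites) (hc : p.c s < 0) :
    ∀ w ∈ ball (0 : ℂ) H, (p.pos H s + w ∈ p.shape H ↔ |w.re| ≤ tt (p.c s) * (tau s * w.im)) := by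
  intro w hw
  rw [mem_ball_zero_iff] at hw
  obtain ⟨h1, h2⟩ := site_int hp hs hc.ne
  have h1' : (1 : ℝ) ≤ s.1 := by exact_mod_cast h1
  have h2' : (s.1 : ℝ) + 1 ≤ 4 * p.ℓ := by exact_mod_cast h2
  have hr := re_le_norm w
  have hi := im_le_norm w
  rw [abs_le] at hr hi
  obtain ⟨n, β⟩ := s
  simp only at h1' h2'
  have hx : |((n : ℝ) / 4 + w.re) - ((n : ℤ) : ℝ) / 4| ≤ 1 / 8 := by
    push_cast
    rw [abs_le]
    constructor <;> linarith [hr.1, hr.2]
  have hsg : Int.sign (p.c (n, β)) = -1 := Int.sign_eq_neg_one_of_neg hc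
  have hap : ∀ d : ℤ → ℤ, -H ≤ prof H d ((n : ℝ) / 4 + w.re) ∧ prof H d ((n : ℝ) / 4 + w.re) ≤ H :=
    fun d => abs_le.1 (abs_prof_le hH d _)
  cases β
  · have hb : p.b n < 0 := by simpa [Proto.c] using hc
    have e : p.pos H (n, false) = ⟨(n : ℝ) / 4, -H⟩ := by
      rw [Proto.pos, hsg]
      simp [tau]
    rw [e]
    simp only [Proto.shape, Set.mem_ofPred_eq, Complex.add_re, Complex.add_im]
    have hE : prof H p.b ((n : ℝ) / 4 + w.re) = -max 0 (H - |w.re| / tt (p.b n)) := by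
      rw [prof_eq hH8 _ hx, E, Int.sign_eq_neg_one_of_neg hb]
      push_cast
      rw [add_sub_cancel_left]
      ring
    have ht : |w.re| ≤ tt (p.c (n, false)) * (tau (n, false) * w.im) ↔ |w.re| ≤ tt (p.b n) * w.im := by
      simp [Proto.c, tau]
    rw [ht, ← tooth_iff (H := H) (tt_pos _) (by linarith), hE]
    constructor
    · rintro ⟨-, -, h, -⟩
      exact h
    · intro h
      exact ⟨by linarith, by linarith, h, by linarith [(hap p.t).1]⟩
  · have hb : 0 < p.t n := by
      have : -p.t n < 0 := by simpa [Proto.c] using hc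
      omega
    have e : p.pos H (n, true) = ⟨(n : ℝ) / 4, 1 + H⟩ := by
      rw [Proto.pos, hsg]
      simp [tau]
    rw [e]
    simp only [Proto.shape, Set.mem_ofPred_eq, Complex.add_re, Complex.add_im]
    have hE : prof H p.t ((n : ℝ) / 4 + w.re) = max 0 (H - |w.re| / tt (p.t n)) := by
      rw [prof_eq hH8 _ hx, E, Int.sign_eq_one_of_pos hb]
      push_cast
      rw [add_sub_cancel_left]
      ring
    have ht : |w.re| ≤ tt (p.c (n, true)) * (tau (n, true) * w.im) ↔
        |w.re| ≤ tt (p.t n) * (-w.im) := by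
      simp [Proto.c, tau, tt_neg]
    rw [ht, ← tooth_iff (H := H) (tt_pos _) (by linarith), hE]
    constructor
    · rintro ⟨-, -, -, h⟩
      linarith
    · intro h
      exact ⟨by linarith, by linarith, by linarith [(hap p.b).2], by linarith⟩

theorem local_notch {H : ℝ} (hH : 0 < H) (hH8 : H ≤ 1 / 8) {p : Proto} (hp : p.Good)
    {s : ℕ × Bool} (hs : s ∈ p.sites) (hc : 0 < p.c s) :
    ∀ w ∈ ball (0 : ℂ) H, (p.pos H s + w ∈ p.shape H ↔
      ¬ (|w.re| < tt (p.c s) * (-(tau s * w.im)))) := by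
  intro w hw
  rw [mem_ball_zero_iff] at hw
  obtain ⟨h1, h2⟩ := site_int hp hs hc.ne'
  have h1' : (1 : ℝ) ≤ s.1 := by exact_mod_cast h1
  have h2' : (s.1 : ℝ) + 1 ≤ 4 * p.ℓ := by exact_mod_cast h2
  have hr := re_le_norm w
  have hi := im_le_norm w
  rw [abs_le] at hr hi
  obtain ⟨n, β⟩ := s
  simp only at h1' h2'
  have hx : |((n : ℝ) / 4 + w.re) - ((n : ℤ) : ℝ) / 4| ≤ 1 / 8 := by
    push_cast
    rw [abs_le]
    constructor <;> linarith [hr.1, hr.2]
  have hsg : Int.sign (p.c (n, β)) = 1 := Int.sign_eq_one_of_pos hc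
  have hap : ∀ d : ℤ → ℤ, -H ≤ prof H d ((n : ℝ) / 4 + w.re) ∧ prof H d ((n : ℝ) / 4 + w.re) ≤ H :=
    fun d => abs_le.1 (abs_prof_le hH d _)
  cases β
  · have hb : 0 < p.b n := by simpa [Proto.c] using hc
    have e : p.pos H (n, false) = ⟨(n : ℝ) / 4, H⟩ := by
      rw [Proto.pos, hsg]
      simp [tau]
    rw [e]
    simp only [Proto.shape, Set.mem_ofPred_eq, Complex.add_re, Complex.add_im]
    have hE : prof H p.b ((n : ℝ) / 4 + w.re) = max 0 (H - |w.re| / tt (p.b n)) := by
      rw [prof_eq hH8 _ hx, E, Int.sign_eq_one_of_pos hb]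
      push_cast
      rw [add_sub_cancel_left]
      ring
    have ht : |w.re| < tt (p.c (n, false)) * (-(tau (n, false) * w.im)) ↔
        |w.re| < tt (p.b n) * (-w.im) := by
      simp [Proto.c, tau]
    rw [ht, ← notch_iff (H := H) (tt_pos _) (by linarith), hE]
    constructor
    · rintro ⟨-, -, h, -⟩
      exact h
    · intro h
      exact ⟨by linarith, by linarith, h, by linarith [(hap p.t).1]⟩
  · have hb : p.t n < 0 := by
      have : 0 < -p.t n := by simpa [Proto.c] using hc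
      omega
    have e : p.pos H (n, true) = ⟨(n : ℝ) / 4, 1 - H⟩ := by
      rw [Proto.pos, hsg]
      simp [tau]
      ring
    rw [e]
    simp only [Proto.shape, Set.mem_ofPred_eq, Complex.add_re, Complex.add_im]
    have hE : prof H p.t ((n : ℝ) / 4 + w.re) = -max 0 (H - |w.re| / tt (p.t n)) := by
      rw [prof_eq hH8 _ hx, E, Int.sign_eq_neg_one_of_neg hb]
      push_cast
      rw [add_sub_cancel_left]
      ring
    have ht : |w.re| < tt (p.c (n, true)) * (-(tau (n, true) * w.im)) ↔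
        |w.re| < tt (p.t n) * (-(-w.im)) := by
      simp [Proto.c, tau, tt_neg]
    rw [ht, ← notch_iff (H := H) (tt_pos _) (by linarith), hE]
    constructor
    · rintro ⟨-, -, -, h⟩
      linarith
    · intro h
      exact ⟨by linarith, by linarith, by linarith [(hap p.b).2], by linarith⟩

/-- the positions of the sites that carry something are distinct -/
theorem pos_inj {H : ℝ} (hH : 0 < H) (hH8 : H ≤ 1 / 8) {p : Proto} {s s' : ℕ × Bool}
    (hc : p.c s ≠ 0) (hc' : p.c s' ≠ 0) (h : p.pos H s = p.pos H s') : s = s' := by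
  have h1 := congrArg Complex.re h
  have h2 := congrArg Complex.im h
  simp only [Proto.pos] at h1 h2
  obtain ⟨n, β⟩ := s
  obtain ⟨n', β'⟩ := s'
  have hn : n = n' := by
    simp only at h1
    have : (n : ℝ) = n' := by linarith
    exact_mod_cast this
  subst hn
  have hsg : ∀ e : ℤ, e ≠ 0 → (Int.sign e : ℝ) = 1 ∨ (Int.sign e : ℝ) = -1 := by
    intro e he
    rcases lt_or_gt_of_ne he with h | h
    · right; rw [Int.sign_eq_neg_one_of_neg h]; simp
    · left; rw [Int.sign_eq_one_of_pos h]; simp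
  congr 1
  by_contra hne
  cases β <;> cases β'
  · exact hne rfl
  · simp only [tau] at h2
    rcases hsg _ hc with h | h <;> rcases hsg _ hc' with h' | h' <;> rw [h, h'] at h2 <;>
      norm_num at h2 <;> linarith
  · simp only [tau] at h2
    rcases hsg _ hc with h | h <;> rcases hsg _ hc' with h' | h' <;> rw [h, h'] at h2 <;>
      norm_num at h2 <;> linarith
  · exact hne rfl

end Pool.Agent.H108R4.Br
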